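import Pool.Agent.W169.HF.Defs

/-!
# Project HF (helper169): statements for the half-line Laplace method
-/

set_option autoImplicit false

open Complex MeasureTheory Filter Topology Set
open scoped ComplexConjugate

namespace Pool.Agent.W169.HF

/-- the integrand of `hh` -/
noncomputable def ww (t : ℝ) (g : ℝ → ℂ) (x u : ℝ) : ℂ :=
  ((Real.exp (x * u / (2 * t) - u ^ 2 / (4 * t)) : ℝ) : ℂ) * g u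

/-- LINT: integrability -/
def S_LINT : Prop := ∀ (K a ℓ t : ℝ) (g P : ℝ → ℂ), 1 ≤ K → 1 / 2 ≤ a → RP K a ℓ g P → 0 < t →
  t ≤ 1 / (16 * K) → ∀ x : ℝ, IntegrableOn (ww t g x) (Ioi 0) ∧
    IntegrableOn (fun u : ℝ => (u : ℂ) * ww t g x u) (Ioi 0) ∧
    HasDerivAt (hh t g) (∫ u in Ioi (0 : ℝ), ((u / (2 * t) : ℝ) : ℂ) * ww t g x u) x

/-- LSAD: the saddle point -/
def S_LSAD : Prop := ∀ K a η : ℝ, 1 ≤ K → 1 / 2 ≤ a → 0 < η → ∃ t1 : ℝ, 0 < t1 ∧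
  ∀ (ℓ t : ℝ) (g P : ℝ → ℂ), RP K a ℓ g P → 0 < t → t ≤ t1 → ℓ = (P a).re → 2 * a + η ≤ 2 * t * ℓ →
    ∀ x : ℝ, -t ≤ x → ∃ c : ℝ, a + 1 / 4 ≤ c ∧ (P c).re = (c - x) / (2 * t)

/-- LLEFT: the part to the left of `a` is small -/
def S_LLEFT : Prop := ∀ K a η : ℝ, 1 ≤ K → 1 / 2 ≤ a → 0 < η → ∃ t1 K1 : ℝ, 0 < t1 ∧
  ∀ (ℓ t : ℝ) (g P : ℝ → ℂ), RP K a ℓ g P → 0 < t → t ≤ t1 → ℓ = (P a).re → 2 * a + η ≤ 2 * t * ℓ →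
    ∀ x : ℝ, -t ≤ x → ∀ c : ℝ, a ≤ c → (P c).re = (c - x) / (2 * t) →
    ∀ u : ℝ, 0 ≤ u → u ≤ a → ‖ww t g x u‖ ≤ Real.exp (K1 - ℓ * η / 2) * ‖ww t g x c‖

/-- LMAIN: the integral is close to its Gaussian approximation -/
def S_LMAIN : Prop := ∀ K a η δ : ℝ, 1 ≤ K → 1 / 2 ≤ a → 0 < η → 0 < δ → ∃ t1 ℓ0 : ℝ, 0 < t1 ∧
  t1 ≤ 1 / (16 * K) ∧
  ∀ (ℓ t : ℝ) (g P : ℝ → ℂ), RP K a ℓ g P → 0 < t → t ≤ t1 → ℓ = (P a).re → ℓ0 ≤ ℓ →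
    2 * a + η ≤ 2 * t * ℓ →
    ∀ x : ℝ, -t ≤ x → ∃ (c : ℝ) (W : ℂ), a + 1 / 4 ≤ c ∧ W ≠ 0 ∧
      ‖hh t g x - W‖ ≤ δ * ‖W‖ ∧
      ∫ u in Ioi (0 : ℝ), ‖ww t g x u‖ ≤ (1 + δ) * ‖W‖ ∧
      (1 - δ) * ‖W‖ ≤ ∫ u in Ioi a, ‖ww t g x u‖ ∧
      ‖∫ u in Ioi (0 : ℝ), ((u - c : ℝ) : ℂ) * ww t g x u‖ ≤ δ * c * ‖W‖

end Pool.Agent.W169.HF
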