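import Pool.Agent.W169.HF.DefsC

/-!
# Project GLD (helper169): the Grand Lindelof hypothesis and the number of zeros of the heat flow

Statements (Mathlib only).  `phx x r = r + max (x - r, 0)² / (2 x)`: the size exponent of `f` that is
equivalent to few zeros of the heat flow at the time `t`, `2 t ℓ = x`.
-/

set_option autoImplicit false

open Complex MeasureTheory Filter Topology Set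
open scoped ComplexConjugate

namespace Pool.Agent.W169.HF

/-- the exponent -/
noncomputable def phx (x r : ℝ) : ℝ := r + max (x - r) 0 ^ 2 / (2 * x)

/-- the zeros of `F` in `A` have total multiplicity at most `c` -/
def Cnt (F : ℂ → ℂ) (A : Set ℂ) (c : ℝ) : Prop :=
  ∀ S : Finset ℂ, (∀ z ∈ S, F z = 0 ∧ z ∈ A) → ∑ z ∈ S, (analyticOrderNatAt F z : ℝ) ≤ c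

/-- HPX: upper bound for the heat flow -/
def S_HPX : Prop := ∀ K ϑ0 x X κ R1 : ℝ, 1 ≤ K → 1 / 2 ≤ ϑ0 → ϑ0 ≤ 2 → 0 < x → x ≤ X → 1 ≤ X → 0 < κ →
  1 ≤ R1 → ∃ κ1 R ℓ0 : ℝ, 0 < κ1 ∧ R1 ≤ R ∧ ∀ (ℓ G t : ℝ) (f : ℂ → ℂ), ℓ0 ≤ ℓ → UD K ϑ0 ℓ G f →
    (∀ u : ℂ, |u.re| ≤ R → |u.im| ≤ R → ‖f u‖ ≤ G * Real.exp (ℓ * phx x |u.re| + κ1 * ℓ)) →
    0 < t → x - κ1 ≤ 2 * t * ℓ → 2 * t * ℓ ≤ X → ∀ u : ℂ, |u.re| ≤ R1 → |u.im| ≤ R1 →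
      ‖heat t f u‖ ≤ G * Real.exp (t * ℓ ^ 2) * Real.exp (ℓ * |u.re| + κ * ℓ)

/-- JEN: Jensen's inequality counts the zeros -/
def S_JEN : Prop := ∀ R δ ε b : ℝ, 1 ≤ R → 0 < δ → δ ≤ 1 → 0 < ε → 1 ≤ b →
  ∃ κ R1 : ℝ, 0 < κ ∧ R ≤ R1 ∧ ∀ (ℓ H : ℝ) (F : ℂ → ℂ), 0 < ℓ → 0 < H → Differentiable ℂ F →
    (∀ u : ℂ, 0 ≤ u.re → u.re ≤ R1 → |u.im| ≤ R1 → ‖F u‖ ≤ H * Real.exp (ℓ * u.re + κ * ℓ)) →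
    (∀ u : ℂ, b ≤ u.re → u.re ≤ R1 → |u.im| ≤ R1 → H * Real.exp (ℓ * u.re - κ * ℓ) ≤ ‖F u‖) →
    Cnt F {z : ℂ | δ ≤ z.re ∧ z.re ≤ R ∧ |z.im| ≤ R} (ε * ℓ)

/-- TCZ: three circles with few zeros -/
def S_TCZ : Prop := ∀ A b ρ κ R1 : ℝ, 0 ≤ A → 1 / 2 ≤ b → b ≤ 3 → 0 < ρ → ρ ≤ 1 → 0 < κ → 1 ≤ R1 →
  ∃ κ1 R : ℝ, 0 < κ1 ∧ R1 ≤ R ∧ ∀ (ℓ H : ℝ) (F : ℂ → ℂ), 0 < ℓ → 0 < H → Differentiable ℂ F →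
    (∀ u : ℂ, 0 ≤ u.re → u.re ≤ R → |u.im| ≤ R → ‖F u‖ ≤ H * Real.exp (ℓ * u.re + A * ℓ)) →
    (∀ u : ℂ, b ≤ u.re → u.re ≤ R → |u.im| ≤ R → H * Real.exp (ℓ * u.re - κ1 * ℓ) ≤ ‖F u‖ ∧
      ‖F u‖ ≤ H * Real.exp (ℓ * u.re + κ1 * ℓ)) →
    Cnt F {z : ℂ | κ1 ≤ z.re ∧ z.re ≤ R ∧ |z.im| ≤ R} (κ1 * ℓ) →
    ∀ u : ℂ, ρ ≤ u.re → u.re ≤ R1 → |u.im| ≤ R1 → ‖F u‖ ≤ H * Real.exp (ℓ * u.re + κ * ℓ)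

/-- INVX: the inverse heat flow -/
def S_INVX : Prop := ∀ K ϑ0 g X κ : ℝ, 1 ≤ K → 1 / 2 ≤ ϑ0 → ϑ0 ≤ 2 → 0 < g → 1 ≤ X → 0 < κ →
  ∃ κ1 R ℓ0 : ℝ, 0 < κ1 ∧ κ1 ≤ 1 ∧ 1 ≤ R ∧ ∀ (ℓ G t : ℝ) (f : ℂ → ℂ), ℓ0 ≤ ℓ → UD K ϑ0 ℓ G f → 0 < t →
    g ≤ 2 * t * ℓ → 2 * t * ℓ ≤ X →
    (∀ u : ℂ, κ1 ≤ u.re → u.re ≤ 2 → |u.im| ≤ R →
      ‖heat t f u‖ ≤ G * Real.exp (t * ℓ ^ 2) * Real.exp (ℓ * u.re + κ1 * ℓ)) →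
    ∀ r : ℝ, 0 ≤ r → r ≤ 1 → ‖f r‖ ≤ G * Real.exp (ℓ * phx (2 * t * ℓ) r + κ * ℓ)

/-- NET: bounds on finitely many vertical lines give a bound in a rectangle -/
def S_NET : Prop := ∀ K ϑ0 x κ R : ℝ, 1 ≤ K → 1 / 2 ≤ ϑ0 → ϑ0 ≤ 2 → 0 < x → 0 < κ → 1 ≤ R →
  ∃ (M : ℕ) (κ1 R1 ℓ0 : ℝ), 1 ≤ M ∧ 0 < κ1 ∧ 1 ≤ R1 ∧ ∀ (ℓ G : ℝ) (f : ℂ → ℂ), ℓ0 ≤ ℓ → UD K ϑ0 ℓ G f →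
    Pf κ1 (1 / 2 + 1 / (2 * M)) R1 ℓ G f →
    (∀ k : ℕ, 1 ≤ k → k ≤ M → ∀ v : ℝ, |v| ≤ R1 → ‖f (((k / (2 * M) : ℝ) : ℂ) + v * I)‖ ≤
      G * Real.exp (ℓ * phx x (k / (2 * M)) + κ1 * ℓ)) →
    ∀ u : ℂ, |u.re| ≤ R → |u.im| ≤ R → ‖f u‖ ≤ G * Real.exp (ℓ * phx x |u.re| + κ * ℓ)

end Pool.Agent.W169.HF
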