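import Pool.Agent.W169.HF.Defs
import Pool.Agent.W169.HF.DefsL
import Pool.Agent.W32.HF.Der
import Pool.Agent.W762.HF.HS
import Pool.Agent.W613.HF.Sg
import Pool.Agent.W346.HF.Heat
import Pool.Agent.W216.HF.Lim
import Pool.Agent.W613.HF.Step
import Pool.Agent.W577.HF.DB
import Pool.Agent.W806.HF.Rep
import Pool.Agent.W578.HF.Lint
import Pool.Agent.W597.HF.Lsad
import Pool.Agent.W12.HF.Left
import Pool.Agent.W736.HF.Main
import Pool.Agent.W959.HF.LFin

/-!
# Project HF: assembly of the heat flow part
-/

set_option autoImplicit false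

open Complex Set MeasureTheory Filter Topology
open scoped ComplexConjugate

namespace Pool.Agent.W169.HF

theorem der_all : S_DER := Pool.Agent.W32.HF.der

theorem hs_all : S_HS := Pool.Agent.W762.HF.hs_of der_all

theorem sg_all : S_SG := Pool.Agent.W613.HF.sg_of der_all hs_all

theorem heat_all : S_HEAT := Pool.Agent.W346.HF.heat_of der_all

theorem lim_all : S_LIM := Pool.Agent.W216.HF.Lim.lim_of der_all

theorem step_all : S_STEP := Pool.Agent.W613.HF.step_of

theorem db_all : S_DB := (Pool.Agent.W577.HF.db_of hs_all sg_all heat_all lim_all step_all).1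

theorem mono_all : S_MONO := (Pool.Agent.W577.HF.db_of hs_all sg_all heat_all lim_all step_all).2

theorem rep_all : S_REP := Pool.Agent.W806.HF.rep

theorem lint_all : S_LINT := Pool.Agent.W578.HF.lint

theorem lmain_all : S_LMAIN :=
  Pool.Agent.W736.HF.lmain_of lint_all Pool.Agent.W597.HF.lsad Pool.Agent.W12.HF.lleft

theorem lap_all : S_LAP := Pool.Agent.W959.HF.lfin_of lint_all lmain_all

end Pool.Agent.W169.HF
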