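import Pool.Agent.W169.HF.Defs

/-!
# Project HF (helper169), second stage: zero-free strips and the heat flow

Definitions and statements (Mathlib only).  `f u = Λ(1/2 + i y + u)`, `ℓ` is half the logarithm of the
analytic conductor at height `y`.
-/

set_option autoImplicit false

open Complex MeasureTheory Filter Topology Set
open scoped ComplexConjugate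

namespace Pool.Agent.W169.HF

/-- unconditional data -/
structure UD (K ϑ0 ℓ G : ℝ) (f : ℂ → ℂ) : Prop where
  slow : Slow f
  fe : ∃ ε : ℂ, ‖ε‖ = 1 ∧ ∀ u : ℂ, f u = ε * conj (f (-conj u))
  hG : 0 < G
  up : ∀ u : ℂ, ‖f u‖ ≤ G * Real.exp (ℓ * max |u.re| ϑ0 + K * (1 + ‖u‖ ^ 2))
  lo : ∀ u : ℂ, ϑ0 ≤ u.re → G * Real.exp (ℓ * u.re - K * (1 + ‖u‖ ^ 2)) ≤ ‖f u‖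

/-- profile: `f` looks like `G exp (ℓ u)` to the right of `ϑ`, in a window of size `R` -/
structure Pf (κ ϑ R ℓ G : ℝ) (f : ℂ → ℂ) : Prop where
  low : ∀ u : ℂ, ϑ ≤ u.re → u.re ≤ R → |u.im| ≤ R → G * Real.exp (ℓ * u.re - κ * ℓ) ≤ ‖f u‖
  upp : ∀ u : ℂ, |u.re| ≤ R → |u.im| ≤ R → ‖f u‖ ≤ G * Real.exp (ℓ * max |u.re| ϑ + κ * ℓ)
  der : ∀ u : ℂ, ϑ ≤ u.re → u.re ≤ R → |u.im| ≤ R → ‖logDeriv f u - ℓ‖ ≤ κ * ℓ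

/-- TC: three circles -/
def S_TC : Prop := ∀ A ϑ0 ϑ ρ κ R1 : ℝ, 0 ≤ A → 0 ≤ ϑ → 0 < ρ → 0 < κ → 1 ≤ R1 →
  ∃ κ1 R : ℝ, 0 < κ1 ∧ R1 ≤ R ∧ ∀ (ℓ G : ℝ) (f : ℂ → ℂ), 0 < ℓ → 0 < G → Differentiable ℂ f →
    (∀ u : ℂ, ϑ < u.re → u.re < R → |u.im| < R → f u ≠ 0) →
    (∀ u : ℂ, ϑ < u.re → u.re < R → |u.im| < R → ‖f u‖ ≤ G * Real.exp (ℓ * u.re + A * ℓ)) →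
    (∀ u : ℂ, ϑ0 < u.re → u.re < R → |u.im| < R → G * Real.exp (ℓ * u.re - κ1 * ℓ) ≤ ‖f u‖ ∧
      ‖f u‖ ≤ G * Real.exp (ℓ * u.re + κ1 * ℓ)) →
    ∀ u : ℂ, ϑ + ρ ≤ u.re → u.re ≤ R1 → |u.im| ≤ R1 → G * Real.exp (ℓ * u.re - κ * ℓ) ≤ ‖f u‖ ∧
      ‖f u‖ ≤ G * Real.exp (ℓ * u.re + κ * ℓ) ∧ ‖logDeriv f u - ℓ‖ ≤ κ * ℓ

/-- LCX: local convexity -/
def S_LCX : Prop := ∀ K ϑ0 ϑ κ R1 : ℝ, 1 ≤ K → 1 / 2 ≤ ϑ0 → ϑ0 ≤ 2 → 0 < ϑ → ϑ ≤ 3 → 0 < κ → 1 ≤ R1 →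
  ∃ κ1 R ℓ0 : ℝ, 0 < κ1 ∧ R1 ≤ R ∧ ∀ (ℓ G : ℝ) (f : ℂ → ℂ), ℓ0 ≤ ℓ → UD K ϑ0 ℓ G f →
    (∀ u : ℂ, u.re = ϑ → |u.im| ≤ R → ‖f u‖ ≤ G * Real.exp (ℓ * ϑ + κ1 * ℓ)) →
    ∀ u : ℂ, |u.re| ≤ ϑ → |u.im| ≤ R1 → ‖f u‖ ≤ G * Real.exp (ℓ * ϑ + κ * ℓ)

/-- PROF: profile from a zero-free half-strip -/
def S_PROF : Prop := ∀ K ϑ0 ϑ ρ κ R1 : ℝ, 1 ≤ K → 1 / 2 ≤ ϑ0 → ϑ0 ≤ 2 → 0 ≤ ϑ → ϑ ≤ ϑ0 → 0 < ρ →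
  ρ ≤ 1 → 0 < κ → 1 ≤ R1 → ∃ R ℓ0 : ℝ, R1 ≤ R ∧ ∀ (ℓ G : ℝ) (f : ℂ → ℂ), ℓ0 ≤ ℓ → UD K ϑ0 ℓ G f →
    (∀ u : ℂ, ϑ < u.re → |u.im| ≤ R → f u ≠ 0) → Pf κ (ϑ + ρ) R1 ℓ G f

/-- the half-line integral -/
noncomputable def J (t : ℝ) (f : ℂ → ℂ) (a : ℂ) : ℂ :=
  ∫ r in Ioi (0 : ℝ), cexp (-((r : ℂ) ^ 2 / (4 * t)) + a * r) * f r

/-- JU: upper bound -/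
def S_JU : Prop := ∀ K ϑ0 ϑ g X Y κ : ℝ, 1 ≤ K → 1 / 2 ≤ ϑ0 → ϑ0 ≤ 2 → 0 ≤ ϑ → ϑ ≤ 3 → 0 < g → g ≤ 1 →
  1 ≤ X → 3 ≤ Y → 0 < κ → ∃ ℓ0 : ℝ, ∀ (ℓ G t : ℝ) (f : ℂ → ℂ), ℓ0 ≤ ℓ → UD K ϑ0 ℓ G f →
    Pf κ ϑ (2 * X + 2 * Y + 4) ℓ G f → 0 < t → g ≤ 2 * t * ℓ → 2 * t * ℓ ≤ X →
    ∀ α : ℝ, 2 * t * α ≤ Y →
      ((2 * ϑ + g ≤ 2 * t * ℓ ∧ -(g / 64 * ℓ) ≤ α) ∨ ϑ ≤ 2 * t * α) →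
      IntegrableOn (fun r : ℝ => Real.exp (-(r ^ 2 / (4 * t)) + α * r) * ‖f r‖) (Ioi 0) ∧
      ∫ r in Ioi (0 : ℝ), Real.exp (-(r ^ 2 / (4 * t)) + α * r) * ‖f r‖ ≤
        G * Real.exp (t * (ℓ + α) ^ 2 + 2 * κ * ℓ)

/-- JL: lower bound -/
def S_JL : Prop := ∀ K ϑ0 ϑ g X Y : ℝ, 1 ≤ K → 1 / 2 ≤ ϑ0 → ϑ0 ≤ 2 → 0 ≤ ϑ → ϑ ≤ 3 → 0 < g → g ≤ 1 →
  1 ≤ X → 3 ≤ Y → ∃ ζ0 : ℝ, 0 < ζ0 ∧ ∀ ζ : ℝ, 0 < ζ → ζ ≤ ζ0 → ∃ κ0 ℓ0 : ℝ, 0 < κ0 ∧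
    ∀ (ℓ G t : ℝ) (f : ℂ → ℂ), ℓ0 ≤ ℓ → UD K ϑ0 ℓ G f →
    Pf κ0 ϑ (2 * X + 2 * Y + 4) ℓ G f → 0 < t → g ≤ 2 * t * ℓ → 2 * t * ℓ ≤ X →
    ∀ a : ℂ, |a.im| ≤ ζ * ℓ → 2 * t * a.re ≤ Y →
      ((2 * ϑ + g ≤ 2 * t * ℓ ∧ -(ζ * ℓ) ≤ a.re) ∨ ϑ ≤ 2 * t * a.re) →
      G * Real.exp (t * (ℓ + a.re) ^ 2 - ζ ^ 2 * X * ℓ) ≤ ‖J t f a‖

/-- the local situation for the saddle point lemma (as in `Pool.Agent.W186.HZ.Sad`) -/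
def Lc (ρ s θ : ℝ) (μ p : ℂ) (F : ℂ → ℂ) : Prop :=
  ∀ w ∈ Metric.ball p ρ, DifferentiableAt ℂ F w ∧ F w ≠ 0 ∧ ‖logDeriv F w - μ‖ ≤ θ * s ^ 2

/-- the integrand of the saddle point lemma -/
noncomputable def Q (F : ℂ → ℂ) (s : ℝ) (z0 w : ℂ) : ℂ := cexp (-((s : ℂ) ^ 2 * (w - z0) ^ 2 / 2)) * F w

/-- SADL: the saddle point lemma (proved: `Pool.Agent.W186.HZ.sad`) -/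
def S_SADL : Prop := ∀ (F : ℂ → ℂ) (p μ : ℂ) (ρ s θ : ℝ), 0 < ρ → ρ ≤ 1 / 2 → 30000 ≤ s → 5 / ρ ≤ s →
  0 < θ → θ ≤ ρ / 100000 → Lc ρ s θ μ p F →
    ∃ w0 : ℂ, ‖w0 - p‖ ≤ θ ∧
      (∀ y : ℝ, |y| ≤ ρ / 5 → ‖Q F s (p - μ / s ^ 2) (w0 + y)‖ ≤
        Real.exp (-(s ^ 2 * y ^ 2 / 4)) * ‖Q F s (p - μ / s ^ 2) w0‖) ∧
      1 / 2 / s * ‖Q F s (p - μ / s ^ 2) w0‖ ≤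
        ‖∫ y in (-(ρ / 5) : ℝ)..(ρ / 5), Q F s (p - μ / s ^ 2) (w0 + y)‖

/-- FWD: zero-free half-strips give zeros on the line -/
def S_FWD : Prop := ∀ K ϑ0 ϑ g X : ℝ, 1 ≤ K → 1 / 2 ≤ ϑ0 → ϑ0 ≤ 2 → 0 ≤ ϑ → ϑ ≤ ϑ0 → 0 < g → 1 ≤ X →
  ∃ R ℓ0 : ℝ, ∀ (ℓ G t : ℝ) (f : ℂ → ℂ), ℓ0 ≤ ℓ → UD K ϑ0 ℓ G f → 0 < t → 2 * ϑ + g ≤ 2 * t * ℓ →
    2 * t * ℓ ≤ X → (∀ u : ℂ, ϑ < u.re → |u.im| ≤ R → f u ≠ 0) →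
    ∀ x : ℝ, x ≠ 0 → |x| ≤ 2 → heat t f x ≠ 0

/-- HUP: upper bound for the heat flow -/
def S_HUP : Prop := ∀ K ϑ0 X : ℝ, 1 ≤ K → 1 / 2 ≤ ϑ0 → ϑ0 ≤ 2 → 1 ≤ X → ∃ K' ℓ0 : ℝ, 1 ≤ K' ∧
  ∀ (ℓ G t : ℝ) (f : ℂ → ℂ), ℓ0 ≤ ℓ → UD K ϑ0 ℓ G f → 0 < t → 2 * t * ℓ ≤ X →
    ∀ u : ℂ, ‖heat t f u‖ ≤ G * Real.exp (t * ℓ ^ 2) * Real.exp (ℓ * max |u.re| ϑ0 + K' * (1 + ‖u‖ ^ 2))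

/-- HLO: two-sided bound for the heat flow far to the right -/
def S_HLO : Prop := ∀ K ϑ0 g X κ R1 : ℝ, 1 ≤ K → 1 / 2 ≤ ϑ0 → ϑ0 ≤ 2 → 0 < g → 1 ≤ X → 0 < κ → 1 ≤ R1 →
  ∃ ℓ0 : ℝ, ∀ (ℓ G t : ℝ) (f : ℂ → ℂ), ℓ0 ≤ ℓ → UD K ϑ0 ℓ G f → 0 < t → g ≤ 2 * t * ℓ →
    2 * t * ℓ ≤ X → ∀ u : ℂ, ϑ0 + 1 / 2 ≤ u.re → u.re ≤ R1 → |u.im| ≤ R1 →
      G * Real.exp (t * ℓ ^ 2) * Real.exp (ℓ * u.re - κ * ℓ) ≤ ‖heat t f u‖ ∧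
      ‖heat t f u‖ ≤ G * Real.exp (t * ℓ ^ 2) * Real.exp (ℓ * u.re + κ * ℓ)

/-- INV: the inverse heat flow along shifted vertical lines -/
def S_INV : Prop := ∀ (f : ℂ → ℂ), Slow f → ∀ t : ℝ, 0 < t → ∀ z w0 : ℂ,
  Integrable (fun y : ℝ => cexp (-((w0 + y) ^ 2 / (4 * t))) * heat t f (z + I * (w0 + y))) ∧
  ∫ y : ℝ, cexp (-((w0 + y) ^ 2 / (4 * t))) * heat t f (z + I * (w0 + y)) =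
    ((Real.sqrt (4 * Real.pi * t) : ℝ) : ℂ) * f z

/-- BWD: zeros of the heat flow on the line give zero-free half-strips -/
def S_BWD : Prop := ∀ K ϑ0 g X : ℝ, 1 ≤ K → 1 / 2 ≤ ϑ0 → ϑ0 ≤ 2 → 0 < g → 1 ≤ X →
  ∃ R ℓ0 : ℝ, ∀ (ℓ G t : ℝ) (f : ℂ → ℂ), ℓ0 ≤ ℓ → UD K ϑ0 ℓ G f → 0 < t → g ≤ 2 * t * ℓ →
    2 * t * ℓ ≤ X → (∀ u : ℂ, 0 < u.re → |u.im| ≤ R → heat t f u ≠ 0) →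
    ∀ x : ℝ, 2 * t * ℓ + g ≤ x → x ≤ 2 → f x ≠ 0

end Pool.Agent.W169.HF
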