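import Pool.Agent.W169.HF.Asm
import Pool.Agent.W169.HF.DefsB
import Pool.Agent.W186.HZ.Sad
import Pool.Agent.W351.HF.TC
import Pool.Agent.W397.HF.Lcx
import Pool.Agent.W45.HF.Prof
import Pool.Agent.W363.HF.JU
import Pool.Agent.W736.HF.JL
import Pool.Agent.W327.HF.Fwd
import Pool.Agent.W366.HF.Hlo
import Pool.Agent.W565.HF.Hup
import Pool.Agent.W565.HF.Inv
import Pool.Agent.W85.HF.Bwd

/-!
# Project HF: assembly of the second stage
-/

set_option autoImplicit false

open Complex Set MeasureTheory Filter Topology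
open scoped ComplexConjugate

namespace Pool.Agent.W169.HF

theorem sadl_all : S_SADL := fun _ _ _ _ _ _ hρ0 hρ hs hsρ hθ0 hθ h =>
  Pool.Agent.W186.HZ.sad hρ0 hρ hs hsρ hθ0 hθ h

theorem tc_all : S_TC := Pool.Agent.W351.HF.tc

theorem lcx_all : S_LCX := Pool.Agent.W397.HF.lcx

theorem prof_all : S_PROF := Pool.Agent.W45.HF.prof_of tc_all lcx_all

theorem ju_all : S_JU := Pool.Agent.W363.HF.ju

theorem jl_all : S_JL := Pool.Agent.W736.HF2.jl_of sadl_all

theorem fwd_all : S_FWD := W327.HF.fwd_of prof_all ju_all jl_all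

theorem hup_all : S_HUP := Pool.Agent.W565.HF.hup

theorem hlo_all : S_HLO := Pool.Agent.W366.HF.hlo_of prof_all ju_all jl_all

theorem inv_all : S_INV := Pool.Agent.W565.HF.inv hs_all sg_all heat_all

theorem bwd_all : S_BWD := Pool.Agent.W85.HF.bwd_of sadl_all tc_all hup_all hlo_all inv_all

end Pool.Agent.W169.HF
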