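import Pool.Agent.W169.HF.DefsC

/-!
# Project SC: the majorant from a bound on the critical line
-/

set_option autoImplicit false

open Complex MeasureTheory Filter Topology Set
open scoped ComplexConjugate

namespace Pool.Agent.W169.HF

lemma nsq {u : ℂ} {a b : ℝ} (h1 : |u.re| ≤ a) (h2 : |u.im| ≤ b) : ‖u‖ ^ 2 ≤ a ^ 2 + b ^ 2 := by
  rw [Complex.sq_norm, Complex.normSq_apply]
  have h3 := abs_nonneg u.re
  have h4 := abs_nonneg u.im
  have h5 := abs_mul_abs_self u.re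
  have h6 := abs_mul_abs_self u.im
  nlinarith

theorem maj (h5 : S_RECT) {K K1 ϑ0 b M0 κ : ℝ} (hK : 1 ≤ K) (hK1 : 0 ≤ K1) (hϑ0 : 1 / 2 ≤ ϑ0)
    (hϑ02 : ϑ0 ≤ 2) (hb : 1 / 2 ≤ b) (hb3 : b ≤ 3) (hM0 : 0 ≤ M0) (hMb : M0 ≤ b) (hκ : 0 < κ) (K2 : ℝ → ℝ) :
    ∃ κ' R ρ ℓ0 : ℝ, 0 < κ' ∧ 0 < ρ ∧ ρ ≤ 1 ∧ ∀ (ℓ G : ℝ) (f h γ : ℂ → ℂ), ℓ0 ≤ ℓ → UD K ϑ0 ℓ G f →
      Pf κ' b R ℓ G f → Differentiable ℂ h → (∀ u, h u = f u * (γ u)⁻¹) →
      (∀ u : ℂ, 0 ≤ u.re → ‖(γ u)⁻¹‖ ≤ G⁻¹ * Real.exp (-(ℓ * u.re) + K1 * (1 + ‖u‖ ^ 2))) →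
      (∀ u : ℂ, ρ ≤ u.re → γ u ≠ 0 ∧ ‖γ u‖ ≤ G * Real.exp (ℓ * u.re + K2 ρ * (1 + ‖u‖ ^ 2))) →
      (∀ v : ℝ, |v| ≤ R → ‖h ((v : ℂ) * I)‖ ≤ Real.exp (ℓ * M0 + κ' * ℓ)) → Mj κ b M0 ℓ G f := by
  obtain ⟨ρ, hρd⟩ : ∃ ρ : ℝ, ρ = min (κ / 8) (1 / 8) := ⟨_, rfl⟩
  have hρ : 0 < ρ := by rw [hρd]; exact lt_min (by positivity) (by norm_num)
  have hρκ : ρ ≤ κ / 8 := by rw [hρd]; exact min_le_left _ _
  have hρ1 : ρ ≤ 1 / 8 := by rw [hρd]; exact min_le_right _ _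
  obtain ⟨κa, Ra, hκa, hRa, HA⟩ := h5 6 (2 * ρ) (κ / 4) 1 (by norm_num) (by positivity) (by linarith)
    (by positivity) le_rfl
  obtain ⟨κ2, hκ2d⟩ : ∃ κ2 : ℝ, κ2 = min κa (κ / 4) / 2 := ⟨_, rfl⟩
  have hκ2 : 0 < κ2 := by rw [hκ2d]; have := lt_min hκa (by positivity : 0 < κ / 4); linarith
  have hκ2a : 2 * κ2 ≤ κa := by rw [hκ2d]; have := min_le_left κa (κ / 4); linarith
  have hκ2b : 2 * κ2 ≤ κ / 4 := by rw [hκ2d]; have := min_le_right κa (κ / 4); linarith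
  obtain ⟨κb, Rb, hκb, hRb, HB⟩ := h5 6 b κ2 Ra (by norm_num) (by linarith) (by linarith) hκ2 hRa
  obtain ⟨κ', hκ'd⟩ : ∃ κ' : ℝ, κ' = κb / 2 := ⟨_, rfl⟩
  have hκ' : 0 < κ' := by rw [hκ'd]; positivity
  obtain ⟨R, hRd⟩ : ∃ R : ℝ, R = max Rb 3 := ⟨_, rfl⟩
  have hRRb : Rb ≤ R := by rw [hRd]; exact le_max_left _ _
  have hR3 : 3 ≤ R := by rw [hRd]; exact le_max_right _ _
  obtain ⟨W, hW⟩ : ∃ W : ℝ, W = 1 + (3 ^ 2 + Rb ^ 2) := ⟨_, rfl⟩
  have hW0 : 0 < W := by rw [hW]; positivity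
  refine ⟨κ', R, ρ, max ((K + K1) * W) (max (K1 * W / κ') (max (|K2 ρ| * W / κ2) 0)), hκ', hρ,
    by linarith, ?_⟩
  intro ℓ G f h γ hℓ ud pf hh hfh hginv hgup hline
  have hG := ud.hG
  have hℓ1 : (K + K1) * W ≤ ℓ := (le_max_left _ _).trans hℓ
  have hℓ2 : K1 * W / κ' ≤ ℓ := ((le_max_left _ _).trans (le_max_right _ _)).trans hℓ
  have hℓ3 : |K2 ρ| * W / κ2 ≤ ℓ :=
    ((le_max_left _ _).trans ((le_max_right _ _).trans (le_max_right _ _))).trans hℓ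
  have hℓ0 : 0 ≤ ℓ := ((le_max_right _ _).trans ((le_max_right _ _).trans (le_max_right _ _))).trans hℓ
  rw [div_le_iff₀ hκ'] at hℓ2
  rw [div_le_iff₀ hκ2] at hℓ3
  have hKW : K * W ≤ ℓ := by nlinarith
  -- size of |u|² in the windows
  have hwin : ∀ u : ℂ, |u.re| ≤ 3 → |u.im| ≤ Rb → 1 + ‖u‖ ^ 2 ≤ W := fun u h1 h2 => by
    have := nsq h1 h2
    rw [hW]
    linarith
  have hlen : ∀ u : ℂ, 0 ≤ 1 + ‖u‖ ^ 2 := fun u => by positivity
  -- growth of f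
  have hgrow : ∀ u : ℂ, |u.re| ≤ 3 → |u.im| ≤ Rb →
      ‖f u‖ ≤ G * Real.exp (ℓ * max |u.re| ϑ0 + K * (1 + ‖u‖ ^ 2)) := fun u _ _ => ud.up u
  -- step 2
  have hB := HB ℓ 0 M0 0 1 h hℓ0 one_pos hh (by rw [abs_of_nonneg hM0]; linarith) (by norm_num)
    (fun u hu1 hu2 => by
      have e : u = (u.im : ℂ) * I := by
        apply Complex.ext
        · simp [hu1]
        · simp
      have h1 := hline u.im (hu2.trans hRRb)
      rw [← e] at h1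
      rw [one_mul]
      refine h1.trans (Real.exp_le_exp.2 ?_)
      have : κ' * ℓ ≤ κb * ℓ := mul_le_mul_of_nonneg_right (by rw [hκ'd]; linarith) hℓ0
      linarith)
    (fun u hu1 hu2 => by
      rw [zero_add] at hu1
      have hre : |u.re| = b := by rw [hu1, abs_of_nonneg (by linarith)]
      have h1 := pf.upp u (by rw [hre]; linarith) (hu2.trans hRRb)
      rw [hre, max_self] at h1
      have h2 := hginv u (by rw [hu1]; linarith)
      have h3 := hwin u (by rw [hre]; linarith) hu2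
      rw [hfh, norm_mul, one_mul]
      calc ‖f u‖ * ‖(γ u)⁻¹‖ ≤ (G * Real.exp (ℓ * b + κ' * ℓ)) *
            (G⁻¹ * Real.exp (-(ℓ * u.re) + K1 * (1 + ‖u‖ ^ 2))) :=
            mul_le_mul h1 h2 (norm_nonneg _) (by positivity)
        _ = Real.exp (ℓ * b + κ' * ℓ + (-(ℓ * u.re) + K1 * (1 + ‖u‖ ^ 2))) := by
            rw [Real.exp_add (ℓ * b + κ' * ℓ)]
            field_simp
        _ ≤ Real.exp (ℓ * 0 + κb * ℓ) := by
            apply Real.exp_le_exp.2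
            rw [hu1]
            have h4 : K1 * (1 + ‖u‖ ^ 2) ≤ K1 * W := mul_le_mul_of_nonneg_left h3 hK1
            have h5 : κb * ℓ = κ' * ℓ + κ' * ℓ := by rw [hκ'd]; ring
            linarith)
    (fun u hu1 hu2 hu3 => by
      rw [zero_add] at hu2
      have hre : |u.re| ≤ 3 := by rw [abs_of_nonneg hu1]; linarith
      have h1 := ud.up u
      have h2 := hginv u hu1
      have h3 := hwin u hre hu3.le
      rw [hfh, norm_mul, one_mul]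
      calc ‖f u‖ * ‖(γ u)⁻¹‖ ≤ (G * Real.exp (ℓ * max |u.re| ϑ0 + K * (1 + ‖u‖ ^ 2))) *
            (G⁻¹ * Real.exp (-(ℓ * u.re) + K1 * (1 + ‖u‖ ^ 2))) :=
            mul_le_mul h1 h2 (norm_nonneg _) (by positivity)
        _ = Real.exp (ℓ * max |u.re| ϑ0 + K * (1 + ‖u‖ ^ 2) + (-(ℓ * u.re) + K1 * (1 + ‖u‖ ^ 2))) := by
            rw [Real.exp_add (ℓ * max |u.re| ϑ0 + K * (1 + ‖u‖ ^ 2))]
            field_simp
        _ ≤ Real.exp (6 * ℓ) := by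
            apply Real.exp_le_exp.2
            have h4 : (K + K1) * (1 + ‖u‖ ^ 2) ≤ (K + K1) * W := mul_le_mul_of_nonneg_left h3 (by linarith)
            have h5 : ℓ * max |u.re| ϑ0 ≤ ℓ * 3 :=
              mul_le_mul_of_nonneg_left (max_le hre (by linarith)) hℓ0
            have h6 : 0 ≤ ℓ * u.re := mul_nonneg hℓ0 hu1
            linarith)
  -- the bound for f to the right of ρ
  have hf : ∀ u : ℂ, ρ ≤ u.re → u.re ≤ b → |u.im| ≤ Ra →
      ‖f u‖ ≤ G * Real.exp (ℓ * (M0 + (1 - M0 / b) * u.re) + 2 * κ2 * ℓ) := by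
    intro u hu1 hu2 hu3
    have h1 := hB u (by linarith) (by linarith) hu3
    obtain ⟨hne, h2⟩ := hgup u hu1
    have h3 := hwin u (by rw [abs_of_nonneg (by linarith)]; linarith) (hu3.trans hRb)
    have e1 : f u = h u * γ u := by
      rw [hfh, mul_assoc, inv_mul_cancel₀ hne, mul_one]
    rw [e1, norm_mul]
    rw [one_mul, sub_zero] at h1
    calc ‖h u‖ * ‖γ u‖ ≤ Real.exp (ℓ * (M0 + (0 - M0) * (u.re / b)) + κ2 * ℓ) *
          (G * Real.exp (ℓ * u.re + K2 ρ * (1 + ‖u‖ ^ 2))) :=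
          mul_le_mul h1 h2 (norm_nonneg _) (Real.exp_pos _).le
      _ = G * Real.exp (ℓ * (M0 + (0 - M0) * (u.re / b)) + κ2 * ℓ + (ℓ * u.re + K2 ρ * (1 + ‖u‖ ^ 2))) := by
          rw [Real.exp_add (ℓ * (M0 + (0 - M0) * (u.re / b)) + κ2 * ℓ)]
          ring
      _ ≤ _ := by
          apply mul_le_mul_of_nonneg_left _ hG.le
          apply Real.exp_le_exp.2
          have h4 : K2 ρ * (1 + ‖u‖ ^ 2) ≤ |K2 ρ| * W :=
            (mul_le_mul_of_nonneg_right (le_abs_self _) (hlen u)).trans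
              (mul_le_mul_of_nonneg_left h3 (abs_nonneg _))
          have h5 : ℓ * (M0 + (0 - M0) * (u.re / b)) + ℓ * u.re = ℓ * (M0 + (1 - M0 / b) * u.re) := by
            ring
          linarith
  obtain ⟨ε, hε, hfe⟩ := ud.fe
  have hMb' : 0 ≤ 1 - M0 / b := by
    rw [sub_nonneg, div_le_one (by linarith)]
    exact hMb
  have hMb1 : 1 - M0 / b ≤ 1 := by
    have : 0 ≤ M0 / b := by positivity
    linarith
  have hside : ∀ u : ℂ, u.re = ρ → |u.im| ≤ Ra → ‖f u‖ ≤ G * Real.exp (ℓ * (M0 + ρ) + κa * ℓ) := by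
    intro u hu1 hu2
    refine (hf u hu1.ge (by linarith) hu2).trans ?_
    apply mul_le_mul_of_nonneg_left _ hG.le
    apply Real.exp_le_exp.2
    rw [hu1]
    have h1 : (1 - M0 / b) * ρ ≤ 1 * ρ := mul_le_mul_of_nonneg_right hMb1 hρ.le
    have h2 : ℓ * (M0 + (1 - M0 / b) * ρ) ≤ ℓ * (M0 + ρ) :=
      mul_le_mul_of_nonneg_left (by linarith) hℓ0
    have h3 : 2 * κ2 * ℓ ≤ κa * ℓ := mul_le_mul_of_nonneg_right hκ2a hℓ0
    linarith
  have hA := HA ℓ (-ρ) (M0 + ρ) (M0 + ρ) G f hℓ0 hG ud.slow.1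
    (by rw [abs_of_nonneg (by linarith)]; linarith) (by rw [abs_of_nonneg (by linarith)]; linarith)
    (fun u hu1 hu2 => by
      rw [hfe u, norm_mul, hε, one_mul, Complex.norm_conj]
      refine hside _ ?_ ?_
      · rw [neg_re, conj_re, hu1, neg_neg]
      · rw [neg_im, conj_im, neg_neg]; exact hu2)
    (fun u hu1 hu2 => hside u (by rw [hu1]; ring) hu2)
    (fun u hu1 hu2 hu3 => by
      have hre : |u.re| ≤ 3 := abs_le.2 ⟨by linarith, by linarith⟩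
      refine (ud.up u).trans ?_
      apply mul_le_mul_of_nonneg_left _ hG.le
      apply Real.exp_le_exp.2
      have h3 := hwin u hre (by rw [hu3]; exact hRb)
      have h4 : K * (1 + ‖u‖ ^ 2) ≤ K * W := mul_le_mul_of_nonneg_left h3 (by linarith)
      have h5 : ℓ * max |u.re| ϑ0 ≤ ℓ * 3 :=
        mul_le_mul_of_nonneg_left (max_le hre (by linarith)) hℓ0
      linarith)
  intro r hr0 hrb
  rcases le_or_gt ρ r with h1 | h1
  · have h2 := hf (r : ℂ) (by simpa using h1) (by simpa using hrb) (by simp; linarith)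
    rw [ofReal_re] at h2
    refine h2.trans ?_
    apply mul_le_mul_of_nonneg_left _ hG.le
    apply Real.exp_le_exp.2
    have h3 : 2 * κ2 * ℓ ≤ κ * ℓ := mul_le_mul_of_nonneg_right (by linarith) hℓ0
    linarith
  · have h2 := hA (r : ℂ) (by rw [ofReal_re]; linarith) (by rw [ofReal_re]; linarith) (by simp)
    rw [ofReal_re] at h2
    refine h2.trans ?_
    apply mul_le_mul_of_nonneg_left _ hG.le
    apply Real.exp_le_exp.2
    rw [sub_self, zero_mul, add_zero]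
    have h3 : ℓ * M0 ≤ ℓ * (M0 + (1 - M0 / b) * r) := by
      apply mul_le_mul_of_nonneg_left _ hℓ0
      have := mul_nonneg hMb' hr0
      linarith
    have h4 : ℓ * ρ ≤ ℓ * (κ / 8) := mul_le_mul_of_nonneg_left hρκ hℓ0
    have h5 : ℓ * (M0 + ρ) = ℓ * M0 + ℓ * ρ := by ring
    have h6 : 0 ≤ κ * ℓ := by positivity
    linarith

end Pool.Agent.W169.HF
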