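import Pool.Agent.W169.HF.DefsB

/-!
# Project SC (helper169): size of L-functions on the critical line and the heat flow

Definitions, statements and the quadratic inequality behind the exponents (Mathlib only).
`M0` is the exponent of `f` on the line: `‖f(i v)‖ ≤ G exp (M0 ℓ)`; the threshold for `2 t ℓ` is
`2 ϑ² / (2 ϑ - M0)` instead of `2 ϑ`.
-/

set_option autoImplicit false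

open Complex MeasureTheory Filter Topology Set
open scoped ComplexConjugate

namespace Pool.Agent.W169.HF

/-- majorant on the real segment `[0, ϑ]` -/
def Mj (κ ϑ M0 ℓ G : ℝ) (f : ℂ → ℂ) : Prop := ∀ r : ℝ, 0 ≤ r → r ≤ ϑ →
  ‖f r‖ ≤ G * Real.exp (ℓ * (M0 + (1 - M0 / ϑ) * r) + κ * ℓ)

/-- the quadratic inequality -/
lemma ql {ϑ M0 g X τ r : ℝ} (hϑ : 1 / 2 ≤ ϑ) (hϑ3 : ϑ ≤ 3) (hM : 0 ≤ M0) (hMϑ : M0 ≤ ϑ)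
    (hg : 0 < g) (hX : 1 ≤ X) (hτ : 0 < τ) (h1 : 2 * ϑ ^ 2 + g ≤ (2 * ϑ - M0) * τ)
    (h2 : τ ≤ X) (hr1 : r ≤ ϑ) :
    g ^ 2 / (288 * X) ≤ (τ - r) ^ 2 / (2 * τ) - M0 * (1 - r / ϑ) := by
  have hϑ0 : 0 < ϑ := by linarith
  have hτϑ : g / 6 ≤ τ - ϑ := by
    have h3 : 2 * ϑ ^ 2 + g ≤ 2 * ϑ * τ := by nlinarith
    have h4 : g ≤ 2 * ϑ * (τ - ϑ) := by nlinarith
    have h5 : 0 < τ - ϑ := by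
      by_contra hcon
      push Not at hcon
      nlinarith
    nlinarith
  have e : (τ - r) ^ 2 / (2 * τ) - M0 * (1 - r / ϑ) =
      (τ * (1 - M0 / ϑ) - r) ^ 2 / (2 * τ) + M0 * ((2 * ϑ - M0) * τ - 2 * ϑ ^ 2) / (2 * ϑ ^ 2) := by
    field_simp
    ring
  rw [e]
  have hD : g ≤ (2 * ϑ - M0) * τ - 2 * ϑ ^ 2 := by linarith
  rcases le_or_gt (M0 * τ) (ϑ * (τ - ϑ) / 2) with h | h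
  · have h3 : (τ - ϑ) / 2 ≤ τ * (1 - M0 / ϑ) - r := by
      have h4 : τ * (M0 / ϑ) ≤ (τ - ϑ) / 2 := by
        rw [mul_div_assoc', div_le_iff₀ hϑ0]
        nlinarith
      nlinarith
    have h5 : ((τ - ϑ) / 2) ^ 2 ≤ (τ * (1 - M0 / ϑ) - r) ^ 2 :=
      pow_le_pow_left₀ (by linarith) h3 2
    have h6 : (g / 12) ^ 2 / (2 * X) ≤ (τ * (1 - M0 / ϑ) - r) ^ 2 / (2 * τ) := by
      have h7 : (g / 12) ^ 2 ≤ ((τ - ϑ) / 2) ^ 2 := pow_le_pow_left₀ (by positivity) (by linarith) 2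
      have h8 : (g / 12) ^ 2 ≤ (τ * (1 - M0 / ϑ) - r) ^ 2 := h7.trans h5
      gcongr
    have h9 : 0 ≤ M0 * ((2 * ϑ - M0) * τ - 2 * ϑ ^ 2) / (2 * ϑ ^ 2) := by
      apply div_nonneg (mul_nonneg hM (by linarith)) (by positivity)
    have h10 : g ^ 2 / (288 * X) = (g / 12) ^ 2 / (2 * X) := by ring
    linarith
  · have h3 : 0 ≤ (τ * (1 - M0 / ϑ) - r) ^ 2 / (2 * τ) := by positivity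
    have h4 : g ^ 2 / (288 * X) ≤ M0 * ((2 * ϑ - M0) * τ - 2 * ϑ ^ 2) / (2 * ϑ ^ 2) := by
      have h5 : M0 * g / (2 * ϑ ^ 2) ≤ M0 * ((2 * ϑ - M0) * τ - 2 * ϑ ^ 2) / (2 * ϑ ^ 2) := by gcongr
      have h6 : ϑ * (g / 6) / 2 ≤ M0 * τ := by
        have : ϑ * (g / 6) ≤ ϑ * (τ - ϑ) := mul_le_mul_of_nonneg_left hτϑ hϑ0.le
        linarith
      have h7 : ϑ * (g / 6) / 2 ≤ M0 * X := h6.trans (mul_le_mul_of_nonneg_left h2 hM)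
      have h8 : g ^ 2 / (288 * X) ≤ M0 * g / (2 * ϑ ^ 2) := by
        rw [div_le_div_iff₀ (by positivity) (by positivity)]
        have h9 : ϑ * g ≤ 12 * (M0 * X) := by linarith
        have h10 : g * (ϑ * g) ≤ g * (12 * (M0 * X)) := mul_le_mul_of_nonneg_left h9 hg.le
        have h11 : 2 * ϑ * (g * (ϑ * g)) ≤ 2 * ϑ * (g * (12 * (M0 * X))) :=
          mul_le_mul_of_nonneg_left h10 (by positivity)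
        have h12 : 0 ≤ M0 * X * g := by positivity
        nlinarith
      linarith
    linarith

/-- the exponent near the origin -/
lemma ql2 {ϑ M0 g X ζ t ℓ α r : ℝ} (hϑ : 1 / 2 ≤ ϑ) (hϑ3 : ϑ ≤ 3) (hM : 0 ≤ M0) (hMϑ : M0 ≤ ϑ)
    (hg : 0 < g) (hX : 1 ≤ X) (ht : 0 < t) (hℓ : 0 < ℓ)
    (h1 : 2 * ϑ ^ 2 + g ≤ (2 * ϑ - M0) * (2 * t * ℓ)) (h2 : 2 * t * ℓ ≤ X) (hr0 : 0 ≤ r) (hr1 : r ≤ ϑ)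
    (hζ : 0 ≤ ζ) (hζX : ζ * X ≤ g ^ 2 / (576 * X)) (hα : -(ζ * ℓ) ≤ α) :
    -(r ^ 2 / (4 * t)) + α * r + ℓ * (M0 + (1 - M0 / ϑ) * r) ≤
      t * (ℓ + α) ^ 2 - g ^ 2 / (576 * X) * ℓ := by
  obtain ⟨τ, hτd⟩ : ∃ τ : ℝ, τ = 2 * t * ℓ := ⟨_, rfl⟩
  have hτ : 0 < τ := by rw [hτd]; positivity
  rw [← hτd] at h1 h2
  have hq := ql hϑ hϑ3 hM hMϑ hg hX hτ h1 h2 hr1
  have hϑ0 : 0 < ϑ := by linarith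
  have hτϑ : ϑ ≤ τ := by
    have h3 : 2 * ϑ ^ 2 + g ≤ 2 * ϑ * τ := by nlinarith
    by_contra hcon
    push Not at hcon
    nlinarith
  obtain ⟨σ, hσd⟩ : ∃ σ : ℝ, σ = 2 * t * α := ⟨_, rfl⟩
  have hσ : -(ζ * τ) ≤ σ := by
    have := mul_le_mul_of_nonneg_left hα (by positivity : (0 : ℝ) ≤ 2 * t)
    rw [hσd, hτd]
    linarith
  have hsq : (τ - r) ^ 2 - 2 * ζ * τ ^ 2 ≤ (τ + σ - r) ^ 2 := by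
    have h3 : 0 ≤ τ - r := by linarith
    have h4 : -(ζ * τ) * (τ - r) ≤ σ * (τ - r) := mul_le_mul_of_nonneg_right hσ h3
    have h5 : ζ * τ * r ≥ 0 := by positivity
    nlinarith [sq_nonneg σ]
  have hdiv : (τ - r) ^ 2 / (2 * τ) - ζ * τ ≤ (τ + σ - r) ^ 2 / (2 * τ) := by
    have h3 : (τ - r) ^ 2 / (2 * τ) - ζ * τ = ((τ - r) ^ 2 - 2 * ζ * τ ^ 2) / (2 * τ) := by
      field_simp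
    rw [h3]
    gcongr
  have hζτ : ζ * τ ≤ g ^ 2 / (576 * X) := (mul_le_mul_of_nonneg_left h2 hζ).trans hζX
  have h288 : g ^ 2 / (288 * X) = g ^ 2 / (576 * X) + g ^ 2 / (576 * X) := by
    field_simp
    ring
  have hkey : M0 * (1 - r / ϑ) + g ^ 2 / (576 * X) ≤ (τ + σ - r) ^ 2 / (2 * τ) := by linarith
  have hkey2 := mul_le_mul_of_nonneg_left hkey hℓ.le
  have e1 : ℓ * ((τ + σ - r) ^ 2 / (2 * τ)) = (r - 2 * t * (ℓ + α)) ^ 2 / (4 * t) := by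
    rw [hσd, hτd]
    field_simp
    ring
  have e2 : -(r ^ 2 / (4 * t)) + α * r + ℓ * r = t * (ℓ + α) ^ 2 - (r - 2 * t * (ℓ + α)) ^ 2 / (4 * t) := by
    field_simp
    ring
  have e3 : ℓ * (M0 + (1 - M0 / ϑ) * r) = ℓ * r + ℓ * (M0 * (1 - r / ϑ)) := by
    field_simp
    ring
  rw [e1] at hkey2
  rw [e3]
  nlinarith

/-- JU2: upper bound for the half-line integral with the majorant -/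
def S_JU2 : Prop := ∀ K ϑ0 ϑ M0 g X Y : ℝ, 1 ≤ K → 1 / 2 ≤ ϑ0 → ϑ0 ≤ 2 → 1 / 2 ≤ ϑ → ϑ ≤ 3 → 0 ≤ M0 →
  M0 ≤ ϑ → 0 < g → g ≤ 1 → 1 ≤ X → 3 ≤ Y → ∃ ζ0 : ℝ, 0 < ζ0 ∧ ∀ κ : ℝ, 0 < κ → ∃ ℓ0 : ℝ,
  ∀ (ℓ G t : ℝ) (f : ℂ → ℂ), ℓ0 ≤ ℓ → UD K ϑ0 ℓ G f →
    Pf κ ϑ (2 * X + 2 * Y + 4) ℓ G f → Mj κ ϑ M0 ℓ G f → 0 < t →
    2 * ϑ ^ 2 + g ≤ (2 * ϑ - M0) * (2 * t * ℓ) → 2 * t * ℓ ≤ X →
    ∀ α : ℝ, 2 * t * α ≤ Y → -(ζ0 * ℓ) ≤ α →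
      IntegrableOn (fun r : ℝ => Real.exp (-(r ^ 2 / (4 * t)) + α * r) * ‖f r‖) (Ioi 0) ∧
      ∫ r in Ioi (0 : ℝ), Real.exp (-(r ^ 2 / (4 * t)) + α * r) * ‖f r‖ ≤
        G * Real.exp (t * (ℓ + α) ^ 2 + 2 * κ * ℓ)

/-- JL2: lower bound with the majorant -/
def S_JL2 : Prop := ∀ K ϑ0 ϑ M0 g X Y : ℝ, 1 ≤ K → 1 / 2 ≤ ϑ0 → ϑ0 ≤ 2 → 1 / 2 ≤ ϑ → ϑ ≤ 3 → 0 ≤ M0 →
  M0 ≤ ϑ → 0 < g → g ≤ 1 → 1 ≤ X → 3 ≤ Y → ∃ ζ0 : ℝ, 0 < ζ0 ∧ ∀ ζ : ℝ, 0 < ζ → ζ ≤ ζ0 →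
  ∃ κ0 ℓ0 : ℝ, 0 < κ0 ∧ ∀ (ℓ G t : ℝ) (f : ℂ → ℂ), ℓ0 ≤ ℓ → UD K ϑ0 ℓ G f →
    Pf κ0 ϑ (2 * X + 2 * Y + 4) ℓ G f → Mj κ0 ϑ M0 ℓ G f → 0 < t →
    2 * ϑ ^ 2 + g ≤ (2 * ϑ - M0) * (2 * t * ℓ) → 2 * t * ℓ ≤ X →
    ∀ a : ℂ, |a.im| ≤ ζ * ℓ → 2 * t * a.re ≤ Y → -(ζ * ℓ) ≤ a.re →
      G * Real.exp (t * (ℓ + a.re) ^ 2 - ζ ^ 2 * X * ℓ) ≤ ‖J t f a‖

/-- FWD2: zeros of the heat flow on the line from a bound on the line -/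
def S_FWD2 : Prop := ∀ K ϑ0 ϑ M0 g X : ℝ, 1 ≤ K → 1 / 2 ≤ ϑ0 → ϑ0 ≤ 2 → 1 / 2 ≤ ϑ → ϑ ≤ 3 → 0 ≤ M0 →
  M0 ≤ ϑ → 0 < g → g ≤ 1 → 1 ≤ X → ∃ κ R ℓ0 : ℝ, 0 < κ ∧ ∀ (ℓ G t : ℝ) (f : ℂ → ℂ), ℓ0 ≤ ℓ →
    UD K ϑ0 ℓ G f → Pf κ ϑ R ℓ G f → Mj κ ϑ M0 ℓ G f → 0 < t →
    2 * ϑ ^ 2 + g ≤ (2 * ϑ - M0) * (2 * t * ℓ) → 2 * t * ℓ ≤ X →
    ∀ x : ℝ, x ≠ 0 → |x| ≤ 2 → heat t f x ≠ 0

/-- RECT: three lines theorem on a rectangle -/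
def S_RECT : Prop := ∀ A b κ R1 : ℝ, 0 ≤ A → 0 < b → b ≤ 6 → 0 < κ → 1 ≤ R1 →
  ∃ κ1 R : ℝ, 0 < κ1 ∧ R1 ≤ R ∧ ∀ (ℓ x0 a0 a1 H : ℝ) (h : ℂ → ℂ), 0 ≤ ℓ → 0 < H →
    Differentiable ℂ h → |a0| ≤ A → |a1| ≤ A →
    (∀ u : ℂ, u.re = x0 → |u.im| ≤ R → ‖h u‖ ≤ H * Real.exp (ℓ * a0 + κ1 * ℓ)) →
    (∀ u : ℂ, u.re = x0 + b → |u.im| ≤ R → ‖h u‖ ≤ H * Real.exp (ℓ * a1 + κ1 * ℓ)) →
    (∀ u : ℂ, x0 ≤ u.re → u.re ≤ x0 + b → |u.im| = R → ‖h u‖ ≤ H * Real.exp (A * ℓ)) →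
    ∀ u : ℂ, x0 ≤ u.re → u.re ≤ x0 + b → |u.im| ≤ R1 →
      ‖h u‖ ≤ H * Real.exp (ℓ * (a0 + (a1 - a0) * ((u.re - x0) / b)) + κ * ℓ)

/-- SIZE: zeros of the heat flow on the line give a bound on the line -/
def S_SIZE : Prop := ∀ K ϑ0 g X κ : ℝ, 1 ≤ K → 1 / 2 ≤ ϑ0 → ϑ0 ≤ 2 → 0 < g → 1 ≤ X → 0 < κ →
  ∃ R ℓ0 : ℝ, ∀ (ℓ G t : ℝ) (f : ℂ → ℂ), ℓ0 ≤ ℓ → UD K ϑ0 ℓ G f → 0 < t → g ≤ 2 * t * ℓ →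
    2 * t * ℓ ≤ X → (∀ u : ℂ, 0 < u.re → |u.im| ≤ R → heat t f u ≠ 0) →
    ‖f 0‖ ≤ G * Real.exp (t * ℓ ^ 2 + κ * ℓ)

end Pool.Agent.W169.HF
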