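import Pool.Agent.W169.HF.AsmB
import Pool.Agent.W169.HF.Maj
import Pool.Agent.W320.HF.Rect
import Pool.Agent.W816.HF.JU2
import Pool.Agent.W816.HF.JL2
import Pool.Agent.W131.HF.Fwd2
import Pool.Agent.W327.HF.Size

/-!
# Project SC: assembly of the parts
-/

set_option autoImplicit false

namespace Pool.Agent.W169.HF

theorem rect_all : S_RECT := Pool.Agent.W320.HF.rect

theorem ju2_all : S_JU2 := Pool.Agent.W816.HF.ju2

theorem jl2_all : S_JL2 := Pool.Agent.W816.HF.jl2_of sadl_all

theorem fwd2_all : S_FWD2 := Pool.Agent.W131.HF.fwd2_of ju2_all jl2_all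

theorem size_all : S_SIZE := Pool.Agent.W327.HF.size_of tc_all hup_all hlo_all inv_all rect_all

end Pool.Agent.W169.HF
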