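import Pool.Agent.W169.HF.Fam4
import Pool.Agent.W160.HF.Hpx
import Pool.Agent.W251.HF.Jen
import Pool.Agent.W948.HF.Tcz
import Pool.Agent.W583.HF.InvX
import Pool.Agent.W193.HF.Net

/-!
# Project GLD: assembly of the parts
-/

set_option autoImplicit false

namespace Pool.Agent.W169.HF

theorem hpx_all : S_HPX := Pool.Agent.W160.HF.hpx

theorem jen_all : S_JEN := Pool.Agent.W251.HF.jen

theorem tcz_all : S_TCZ := Pool.Agent.W948.HF.tcz

theorem invx_all : S_INVX := Pool.Agent.W583.HF.invx_of hup_all inv_all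

theorem net_all : S_NET := Pool.Agent.W193.HF.net_of rect_all

end Pool.Agent.W169.HF
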