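import Mathlib

/-!
# Project HF (helper169): de Bruijn-Newman constants in the conductor aspect

Definitions and statements (Mathlib only).
-/

set_option autoImplicit false

open Complex MeasureTheory Filter Topology Set
open scoped ComplexConjugate

namespace Pool.Agent.W169.HF

/-- entire functions growing slower than every `exp (δ |z|²)` -/
def Slow (f : ℂ → ℂ) : Prop := Differentiable ℂ f ∧
  ∀ δ : ℝ, 0 < δ → ∃ K : ℝ, 0 < K ∧ ∀ z : ℂ, ‖f z‖ ≤ K * Real.exp (δ * ‖z‖ ^ 2)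

/-- the heat flow `e^{t D²} F` as a Gaussian average (`0 ≤ t`) -/
noncomputable def heat (t : ℝ) (F : ℂ → ℂ) (s : ℂ) : ℂ :=
  ((1 / Real.sqrt Real.pi : ℝ) : ℂ) *
    ∫ v : ℝ, ((Real.exp (-v ^ 2) : ℝ) : ℂ) * F (s + ((2 * Real.sqrt t * v : ℝ) : ℂ))

/-- the heat flow `e^{t D²} f` as a series (all real `t`) -/
noncomputable def hs (t : ℝ) (f : ℂ → ℂ) (z : ℂ) : ℂ :=
  ∑' k : ℕ, ((t ^ k / (k.factorial : ℝ) : ℝ) : ℂ) * iteratedDeriv (2 * k) f z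

/-- the operator `1 + α D²` -/
noncomputable def step (α : ℝ) (f : ℂ → ℂ) (z : ℂ) : ℂ := f z + (α : ℂ) * iteratedDeriv 2 f z

/-- functional equation `s → 1 - s` with complex conjugation -/
def Fe (f : ℂ → ℂ) : Prop := ∃ ε : ℂ, ‖ε‖ = 1 ∧ ∀ s : ℂ, f s = ε * conj (f (1 - conj s))

/-- the class preserved by the heat flow -/
structure Cl (b : ℝ) (f : ℂ → ℂ) : Prop where
  slow : Slow f
  fe : Fe f
  zer : ∀ s : ℂ, f s = 0 → s.re ≤ 1 / 2 + b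

/-- DER: bound for the derivatives -/
def S_DER : Prop := ∀ f : ℂ → ℂ, Slow f → ∀ δ : ℝ, 0 < δ → ∃ K : ℝ, 0 < K ∧ ∀ (k : ℕ) (z : ℂ),
  ‖iteratedDeriv (2 * k) f z‖ ≤ K * (k.factorial : ℝ) * (30 * δ) ^ k * Real.exp (2 * δ * ‖z‖ ^ 2)

/-- HS: the series converges absolutely, is slow, and may be differentiated termwise -/
def S_HS : Prop := ∀ f : ℂ → ℂ, Slow f → ∀ t : ℝ,
  (∀ z : ℂ, Summable fun k : ℕ => ‖((t ^ k / (k.factorial : ℝ) : ℝ) : ℂ) * iteratedDeriv (2 * k) f z‖) ∧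
  Slow (hs t f) ∧
  ∀ (j : ℕ) (z : ℂ), iteratedDeriv (2 * j) (hs t f) z =
    ∑' k : ℕ, ((t ^ k / (k.factorial : ℝ) : ℝ) : ℂ) * iteratedDeriv (2 * j + 2 * k) f z

/-- SG: the group property -/
def S_SG : Prop := ∀ f : ℂ → ℂ, Slow f → ∀ s t : ℝ, hs s (hs t f) = hs (s + t) f

/-- HEAT: the Gaussian average is the series -/
def S_HEAT : Prop := ∀ f : ℂ → ℂ, Slow f → ∀ t : ℝ, 0 ≤ t → heat t f = hs t f

/-- LIM: `(1 + (t / n) D²)^n f → e^{t D²} f` locally uniformly -/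
def S_LIM : Prop := ∀ f : ℂ → ℂ, Slow f → ∀ t : ℝ, 0 ≤ t →
  TendstoLocallyUniformly (fun (n : ℕ) (z : ℂ) => ((step (t / ((n : ℝ) + 1)))^[n + 1] f) z) (hs t f) atTop

/-- STEP: one step preserves the class (or gives the zero function) -/
def S_STEP : Prop := ∀ (b : ℝ) (f : ℂ → ℂ), Cl b f → (∃ z, f z ≠ 0) → ∀ α : ℝ, 0 ≤ α →
  (∀ z, step α f z = 0) ∨ Cl b (step α f)

/-- DB: de Bruijn's theorem for the class -/
def S_DB : Prop := ∀ (b : ℝ) (f : ℂ → ℂ), Cl b f → (∃ z, f z ≠ 0) → ∀ t : ℝ, 0 ≤ t →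
  (∃ z, heat t f z ≠ 0) ∧ Cl b (heat t f)

/-- MONO: zeros stay on the line -/
def S_MONO : Prop := ∀ f : ℂ → ℂ, Slow f → Fe f → (∃ z, f z ≠ 0) → ∀ t0 t : ℝ, 0 ≤ t0 → t0 ≤ t →
  (∀ s : ℂ, heat t0 f s = 0 → s.re = 1 / 2) → ∀ s : ℂ, heat t f s = 0 → s.re = 1 / 2

/-! ### The real variable part -/

/-- profile of a function on a horizontal half-line -/
structure RP (K a ℓ : ℝ) (g P : ℝ → ℂ) : Prop where
  cont : Continuous g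
  der : ∀ u : ℝ, a ≤ u → HasDerivAt g (g u * P u) u
  ne : ∀ u : ℝ, a ≤ u → g u ≠ 0
  im : ∀ u : ℝ, a ≤ u → |(P u).im| ≤ K
  lip : ∀ u v : ℝ, a ≤ u → a ≤ v → ‖P u - P v‖ ≤ K * |u - v|
  re : ℓ ≤ (P a).re
  left : ∀ u : ℝ, 0 ≤ u → u ≤ a → ‖g u‖ ≤ K * ‖g a‖

/-- the half-line integral -/
noncomputable def hh (t : ℝ) (g : ℝ → ℂ) (x : ℝ) : ℂ :=
  ∫ u in Ioi (0 : ℝ), ((Real.exp (x * u / (2 * t) - u ^ 2 / (4 * t)) : ℝ) : ℂ) * g u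

/-- LAP: the comparison -/
def S_LAP : Prop := ∀ K a η : ℝ, 1 ≤ K → 1 / 2 ≤ a → 0 < η → ∃ t1 ℓ0 : ℝ, 0 < t1 ∧
  ∀ (ℓ t : ℝ) (g P : ℝ → ℂ), RP K a ℓ g P → 0 < t → t ≤ t1 → ℓ0 ≤ ℓ → 2 * a + η ≤ 2 * t * ℓ →
    (∀ x : ℝ, IntegrableOn (fun u : ℝ =>
      ((Real.exp (x * u / (2 * t) - u ^ 2 / (4 * t)) : ℝ) : ℂ) * g u) (Ioi 0)) ∧
    ∀ x : ℝ, 0 < x → ‖hh t g (-x)‖ < ‖hh t g x‖

/-- REP: the heat flow in terms of the half-line integral -/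
def S_REP : Prop := ∀ (f : ℂ → ℂ) (ε : ℂ), Slow f → (∀ s : ℂ, f s = ε * conj (f (1 - conj s))) →
  ∀ (t y x : ℝ), 0 < t →
    heat t f (1 / 2 + (x : ℂ) + (y : ℂ) * I) =
      ((1 / Real.sqrt (4 * Real.pi * t) * Real.exp (-(x ^ 2 / (4 * t))) : ℝ) : ℂ) *
        (hh t (fun u : ℝ => f (1 / 2 + (u : ℂ) + (y : ℂ) * I)) x +
          ε * conj (hh t (fun u : ℝ => f (1 / 2 + (u : ℂ) + (y : ℂ) * I)) (-x)))

end Pool.Agent.W169.HF
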