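import Pool.Agent.H353R7.G4
import Pool.Agent.W169.HF.Defs

/-!
# Project HF: the analytic data of an automorphic L-function
-/

set_option autoImplicit false

open Complex Set MeasureTheory intervalIntegral Filter Topology
open scoped ComplexConjugate NNReal ENNReal

namespace Pool.Agent.W169.HF

open H353.E H353.F

lemma slow_of_E {f : ℂ → ℂ} (hf : Differentiable ℂ f) (h : ∃ E : ℝ → ℝ, Monotone E ∧
    Tendsto (fun ρ => E ρ / ρ ^ 2) atTop (𝓝 0) ∧ ∀ s, ‖f s‖ ≤ Real.exp (E ‖s‖)) : Slow f := by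
  obtain ⟨E, hE, hEt, hb⟩ := h
  refine ⟨hf, fun δ hδ => ?_⟩
  have h1 := hEt.eventually (gt_mem_nhds hδ)
  obtain ⟨R, hR⟩ := Filter.eventually_atTop.1 (h1.and (eventually_gt_atTop 0))
  refine ⟨Real.exp (max (E (max R 1)) 0), Real.exp_pos _, fun z => (hb z).trans ?_⟩
  rw [← Real.exp_add]
  apply Real.exp_le_exp.2
  have h0 : 0 ≤ δ * ‖z‖ ^ 2 := by positivity
  rcases le_or_gt R ‖z‖ with hz | hz
  · obtain ⟨h2, h3⟩ := hR ‖z‖ hz
    rw [div_lt_iff₀ (by positivity)] at h2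
    have := le_max_right (E (max R 1)) 0
    linarith
  · have h2 := hE (hz.le.trans (le_max_left R 1))
    have := le_max_left (E (max R 1)) 0
    linarith

/-- the normalised completed L-function -/
noncomputable def XX (N : ℝ) (Λ : ℂ → ℂ) (z : ℂ) : ℂ := (N : ℂ) ^ (z / 2) * Λ z

theorem sharpX (m : ℕ) (hm : 1 ≤ m) {θ η : ℝ} (hθ0 : 0 ≤ θ) (hθ1 : θ ≤ 1 / 2) (hη : 0 < η)
    (hη1 : η ≤ 1) :
    ∃ B : ℝ, 1 ≤ B ∧ ∀ (N : ℝ) (μ : Fin m → ℂ) (α : Fin m → ℕ → ℂ) (ε : ℂ) (Λ : ℂ → ℂ),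
    DatumT θ N μ α ε Λ →
    Sharp (6 * m) B (1 + θ + η) (fun K => 4 * Real.exp (2 * |K| + 10)) (XX N Λ) (gaf N μ) (gaD N μ) ∧
    Slow (XX N Λ) ∧ (∀ z : ℂ, XX N Λ z = ε * conj (XX N Λ (1 - conj z))) ∧
    (∀ z, XX N Λ z = 0 → z.re ≤ 3 / 2) ∧ ∃ z, XX N Λ z ≠ 0 := by
  have hm' : (1 : ℝ) ≤ m := by exact_mod_cast hm
  obtain ⟨B1, hB1, hBc⟩ := euler_close m
  obtain ⟨B2, hB2, hBe⟩ := euler_two m hη
  set σ : ℝ := 1 + θ + η with hσ
  have hσ1 : 1 ≤ σ := by linarith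
  set C : ℝ := 6 * m with hC
  have hC1 : 1 ≤ C := by rw [hC]; linarith
  have hexp1 : 1 ≤ Real.exp (C ^ 2 / 4 + 64) := Real.one_le_exp (by positivity)
  refine ⟨B2 * Real.exp (C ^ 2 / 4 + 64), by nlinarith, fun N μ α ε Λ d => ?_⟩
  have hN := d.one_le
  have hN0 : 0 < N := by linarith
  have hNc : (N : ℂ) ≠ 0 := by exact_mod_cast hN0.ne'
  set X : ℂ → ℂ := XX N Λ with hX
  have hXdef : ∀ z, X z = (N : ℂ) ^ (z / 2) * Λ z := fun z => rfl
  have gp := gaf_GP hm hN d.re_le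
  have hnorm : ∀ j, ∀ p : ℕ, p.Prime → ‖α j p‖ ≤ Real.sqrt p := fun j p hp => by
    refine (d.norm_le j p hp).trans ?_
    rw [Real.sqrt_eq_rpow]
    have : (1 : ℝ) ≤ p := by exact_mod_cast hp.one_le
    exact Real.rpow_le_rpow_of_exponent_le this hθ1
  have hXd : Differentiable ℂ X := by
    rw [hX]
    unfold XX
    refine Differentiable.mul (fun z => ?_) d.entire
    exact (((hasDerivAt_id z).div_const 2).const_cpow (c := (N : ℂ)) (Or.inl hNc)).differentiableAt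
  have hXe : ∀ z : ℂ, 1 + θ < z.re → X z = gaf N μ z * euler α z := fun z hz => by
    simp only [hXdef, gaf]
    rw [d.euler z hz, mul_assoc]
    rfl
  have hclose : ∀ z : ℂ, 4 ≤ z.re → ‖X z - gaf N μ z‖ ≤ B1 * (1 / 2 : ℝ) ^ z.re * ‖gaf N μ z‖ :=
    fun z hz => by
      have e : X z - gaf N μ z = (euler α z - 1) * gaf N μ z := by
        rw [hXe z (by linarith)]
        ring
      rw [e, norm_mul]
      exact mul_le_mul_of_nonneg_right (hBc α hnorm z hz) (norm_nonneg _)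
  have hfe : ∀ z : ℂ, X z = ε * conj (X (1 - conj z)) := fun z => by
    simp only [hXdef]
    rw [map_mul, conj_cpow_real hN0]
    have e1 : conj ((1 - conj z) / 2) = (1 - z) / 2 := by
      rw [map_div₀, map_sub, Complex.conj_conj, map_one, map_ofNat]
    have e2 : (N : ℂ) ^ (z / 2) * (N : ℂ) ^ (1 / 2 - z) = (N : ℂ) ^ ((1 - z) / 2) := by
      rw [← cpow_add _ _ hNc]
      congr 1
      ring
    rw [e1, d.fe z, ← e2]
    ring
  have hbdd : ∃ M, ∀ z : ℂ, -3 ≤ z.re → z.re ≤ 4 → ‖X z‖ ≤ Real.exp (M * (1 + |z.im|)) := by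
    obtain ⟨M, hM⟩ := d.bdd (-3) 4
    refine ⟨Real.log (N ^ (2 : ℝ)) + M, fun z h1 h2 => ?_⟩
    simp only [hXdef]
    rw [norm_mul, Complex.norm_cpow_eq_rpow_re_of_pos hN0]
    have e : (z / 2).re = z.re / 2 := by
      rw [show (2 : ℂ) = ((2 : ℝ) : ℂ) by norm_num, Complex.div_ofReal_re]
    rw [e]
    have h3 : N ^ (z.re / 2) ≤ N ^ (2 : ℝ) := Real.rpow_le_rpow_of_exponent_le hN (by linarith)
    have h4 := hM z h1 h2
    have h5 : 0 < N ^ (2 : ℝ) := Real.rpow_pos_of_pos hN0 _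
    have h6 : 1 ≤ N ^ (2 : ℝ) := Real.one_le_rpow hN (by norm_num)
    refine (mul_le_mul h3 h4 (norm_nonneg _) h5.le).trans ?_
    rw [add_mul, Real.exp_add]
    refine mul_le_mul_of_nonneg_right ?_ (Real.exp_pos _).le
    have h7 := Real.log_nonneg h6
    have h8 := abs_nonneg z.im
    calc N ^ (2 : ℝ) = Real.exp (Real.log (N ^ (2 : ℝ))) := (Real.exp_log h5).symm
      _ ≤ Real.exp (Real.log (N ^ (2 : ℝ)) * (1 + |z.im|)) := by
        apply Real.exp_le_exp.mpr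
        nlinarith
  have L : LD (6 * m) ((1 + B1) * Real.exp (6 * m * 7)) (fun K => 4 * Real.exp (2 * |K| + 10)) X
      (gaf N μ) (gaD N μ) :=
    LD_of gp hC1 hB1 hXd hclose ⟨ε, d.norm_eq, hfe⟩ hbdd
  have hzer : ∀ z, X z = 0 → z.re ≤ 3 / 2 := fun z hz => by
    by_contra hcon
    push Not at hcon
    rw [hXe z (by linarith)] at hz
    rcases mul_eq_zero.mp hz with h | h
    · exact gp.ne z (by linarith) h
    · exact euler_ne hnorm hcon h
  have hhi : ∀ z : ℂ, σ ≤ z.re → ‖X z‖ ≤ B2 * ‖gaf N μ z‖ := fun z hz => by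
    rw [hXe z (by linarith), norm_mul, mul_comm]
    exact mul_le_mul_of_nonneg_right (hBe θ α d.norm_le z hz).1 (norm_nonneg _)
  have S : Sharp C (B2 * Real.exp (C ^ 2 / 4 + 64)) σ (fun K => 4 * Real.exp (2 * |K| + 10)) X
      (gaf N μ) (gaD N μ) := by
    refine
      { gp := gp, hC := hC1, hB := by nlinarith, hσ := hσ1, diff := hXd,
        fe := ⟨ε, d.norm_eq, hfe⟩, hi := fun z hz => ?_, lo := fun z hz => ?_,
        strip := fun z h1 h2 => ?_ }
    · refine (hhi z hz).trans (mul_le_mul_of_nonneg_right ?_ (norm_nonneg _))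
      nlinarith
    · rw [hXe z (by linarith), norm_mul]
      have h3 := (hBe θ α d.norm_le z hz).2
      have h4 := norm_nonneg (gaf N μ z)
      have h5 : 1 ≤ B2 * Real.exp (C ^ 2 / 4 + 64) * ‖euler α z‖ := by
        calc (1 : ℝ) ≤ B2 * ‖euler α z‖ := h3
          _ = B2 * 1 * ‖euler α z‖ := by ring
          _ ≤ B2 * Real.exp (C ^ 2 / 4 + 64) * ‖euler α z‖ := by gcongr
      calc ‖gaf N μ z‖ = ‖gaf N μ z‖ * 1 := by ring
        _ ≤ ‖gaf N μ z‖ * (B2 * Real.exp (C ^ 2 / 4 + 64) * ‖euler α z‖) := by gcongr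
        _ = _ := by ring
    · exact strip_sharp gp hC1 hB2 hσ1 (by linarith) hXd hhi ⟨ε, d.norm_eq, hfe⟩ hbdd h1 h2
  have hp1 : ∀ j, 1 ≤ 1 + ‖μ j‖ := fun j => by linarith [norm_nonneg (μ j)]
  have hcond1 : 1 ≤ N * ∏ j, (1 + ‖μ j‖) := by
    have h1 : 1 ≤ ∏ j, (1 + ‖μ j‖) := by
      refine Finset.prod_induction _ (fun x => (1 : ℝ) ≤ x) (fun a b ha hb => ?_) le_rfl fun j _ => ?_
      · nlinarith
      · linarith [norm_nonneg (μ j)]
    nlinarith
  have hslow : Slow X := by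
    refine slow_of_E hXd (slow_of L (a := Real.log (N * ∏ j, (1 + ‖μ j‖)) + 7 * m) (k := m) ?_
      (by linarith) (fun z hz => ?_))
    · have := Real.log_nonneg hcond1
      linarith
    · have := gaD_norm hN d.re_le hz
      linarith
  refine ⟨S, hslow, hfe, hzer, 2, fun h => ?_⟩
  have := hzer 2 h
  norm_num at this

/-- lower bound for the real part of the logarithmic derivative of the gamma factor -/
lemma gaD_re_ge {m : ℕ} {N : ℝ} (hN : 1 ≤ N) {μ : Fin m → ℂ} (hμ : ∀ j, (μ j).re ≤ 1 / 2) (t : ℝ) :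
    1 / 2 * Real.log (N * ∏ j, (1 + ‖(t : ℂ) * I - μ j‖)) - 7 * m ≤ (gaD N μ (3 / 2 + t * I)).re := by
  have hN0 : 0 < N := by linarith
  have hp : ∀ j, 0 < 1 + ‖(t : ℂ) * I - μ j‖ := fun j => by positivity
  have hpp : 0 < ∏ j, (1 + ‖(t : ℂ) * I - μ j‖) := Finset.prod_pos fun j _ => hp j
  rw [Real.log_mul hN0.ne' hpp.ne', Real.log_prod (fun j _ => (hp j).ne')]
  unfold gaD
  rw [add_re, ofReal_re, re_sum]
  have h2 : ∀ j, 1 / 2 * Real.log (1 + ‖(t : ℂ) * I - μ j‖) - 7 ≤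
      ((((-(Real.log Real.pi) / 2 : ℝ)) : ℂ) +
      logDeriv Gamma ((3 / 2 + t * I - μ j) / 2) / 2).re := fun j => by
    have hs : (1 : ℝ) ≤ (3 / 2 + t * I : ℂ).re := by simp; norm_num
    obtain ⟨_, _, hz⟩ := zre (hμ j) hs
    set z : ℂ := (3 / 2 + t * I - μ j) / 2 with hzdef
    have h3 := (Complex.abs_re_le_norm _).trans (dig_aux hz)
    rw [sub_re, Complex.log_re] at h3
    have h3' := (abs_le.mp h3).1
    have hlp := logpi
    have h4 : (1 + ‖(t : ℂ) * I - μ j‖) / 5 ≤ ‖z + 2‖ := by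
      have e : (t : ℂ) * I - μ j = 2 * (z + 2) - ((11 / 2 : ℝ) : ℂ) := by
        rw [hzdef]
        push_cast
        ring
      have h5 : ‖(t : ℂ) * I - μ j‖ ≤ 2 * ‖z + 2‖ + 11 / 2 := by
        rw [e]
        refine (norm_sub_le _ _).trans ?_
        rw [norm_mul, Complex.norm_real]
        norm_num
      have h6 : 9 / 4 ≤ ‖z + 2‖ := by
        have := re_le_norm (z + 2)
        rw [add_re, re_ofNat] at this
        linarith
      linarith
    have h6 : Real.log (1 + ‖(t : ℂ) * I - μ j‖) - Real.log 5 ≤ Real.log ‖z + 2‖ := by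
      rw [← Real.log_div (hp j).ne' (by norm_num)]
      exact Real.log_le_log (by have := hp j; positivity) h4
    have h7 : Real.log 5 ≤ 4 := by
      have := Real.log_le_sub_one_of_pos (show (0:ℝ) < 5 by norm_num)
      linarith
    have e2 : ((((-(Real.log Real.pi) / 2 : ℝ)) : ℂ) + logDeriv Gamma z / 2).re =
        -(Real.log Real.pi) / 2 + (logDeriv Gamma z).re / 2 := by
      rw [add_re, ofReal_re, show (2 : ℂ) = ((2 : ℝ) : ℂ) by norm_num, Complex.div_ofReal_re]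
    rw [e2]
    linarith
  have h3 := Finset.sum_le_sum (s := (Finset.univ : Finset (Fin m))) fun j _ => h2 j
  rw [Finset.sum_sub_distrib, ← Finset.mul_sum, Finset.sum_const, Finset.card_univ, Fintype.card_fin,
    nsmul_eq_mul] at h3
  have hlog : 0 ≤ Real.log N := Real.log_nonneg hN
  linarith

end Pool.Agent.W169.HF
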