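import Pool.Agent.W169.HF.Aut1

/-!
# Project HF: from the analytic data to the half-line profile, and the local theorem
-/

set_option autoImplicit false

open Complex Set MeasureTheory intervalIntegral Filter Topology
open scoped ComplexConjugate NNReal ENNReal

namespace Pool.Agent.W169.HF

open H353.E H353.F

variable {C B σ : ℝ} {Sg : ℝ → ℝ} {Λ γ D : ℂ → ℂ}

/-- the constant of the profile -/
noncomputable def KK (C B ρ : ℝ) : ℝ := C + 2 * B ^ 2 / ρ ^ 2 * 4 + B ^ 2 * Real.exp (3 * C)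

theorem rp_of_sharp (S : Sharp C B σ Sg Λ γ D) (hσ2 : σ ≤ 5 / 2) {ρ : ℝ} (hρ : 0 < ρ) (hρ1 : ρ ≤ 1) (y : ℝ) :
    RP (KK C B ρ) (σ - 1 / 2 + ρ) ((D (3 / 2 + y * I)).re - 2 * C - B ^ 2 / ρ)
      (fun u : ℝ => Λ (1 / 2 + (u : ℂ) + (y : ℂ) * I))
      (fun u : ℝ => D (1 / 2 + (u : ℂ) + (y : ℂ) * I) + Qf Λ γ (1 / 2 + (u : ℂ) + (y : ℂ) * I)) := by
  have hC := S.hC
  have hB := S.hB
  have hσ := S.hσ
  have hre : ∀ u : ℝ, (1 / 2 + (u : ℂ) + (y : ℂ) * I : ℂ).re = 1 / 2 + u := fun u => by simp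
  have hBρ : B ^ 2 / ρ ≤ B ^ 2 / ρ ^ 2 := by
    apply div_le_div_of_nonneg_left (by positivity) (by positivity)
    nlinarith
  have hB0 : 0 ≤ B ^ 2 / ρ ^ 2 := by positivity
  have hexp : 1 ≤ Real.exp (3 * C) := Real.one_le_exp (by positivity)
  have hKK : C + 8 * (B ^ 2 / ρ ^ 2) + B ^ 2 * Real.exp (3 * C) = KK C B ρ := by
    unfold KK; ring
  have hQ : ∀ u : ℝ, σ - 1 / 2 + ρ ≤ u → ‖Qf Λ γ (1 / 2 + (u : ℂ) + (y : ℂ) * I)‖ ≤ B ^ 2 / ρ := by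
    intro u hu
    have h1 := Qf_bound S (η := 2 * ρ) (by positivity) (z := 1 / 2 + (u : ℂ) + (y : ℂ) * I)
      (by rw [hre]; linarith)
    refine h1.trans (le_of_eq ?_)
    field_simp
  have hBB : 0 ≤ B ^ 2 * Real.exp (3 * C) := by positivity
  -- comparison of the gamma factor along the line
  have hmono : ∀ u v : ℝ, σ - 1 / 2 ≤ u → u ≤ v → v ≤ σ - 1 / 2 + ρ →
      ‖γ (1 / 2 + (u : ℂ) + (y : ℂ) * I)‖ ≤ Real.exp C * ‖γ (1 / 2 + (v : ℂ) + (y : ℂ) * I)‖ := by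
    intro u v hu huv hv
    have h1 := right_ge S.gp (s := 1 / 2 + (u : ℂ) + (y : ℂ) * I) (by rw [hre]; linarith)
      (a := v - u) (by linarith)
    have e : (1 / 2 + (u : ℂ) + (y : ℂ) * I : ℂ) + ((v - u : ℝ) : ℂ) = 1 / 2 + (v : ℂ) + (y : ℂ) * I := by
      push_cast; ring
    rw [e] at h1
    refine h1.trans ?_
    apply mul_le_mul_of_nonneg_right _ (norm_nonneg _)
    apply Real.exp_le_exp.2
    nlinarith
  have hga : ‖γ (1 / 2 + ((σ - 1 / 2 + ρ : ℝ) : ℂ) + (y : ℂ) * I)‖ ≤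
      B * ‖Λ (1 / 2 + ((σ - 1 / 2 + ρ : ℝ) : ℂ) + (y : ℂ) * I)‖ := S.lo _ (by rw [hre]; linarith)
  have hE1 : Real.exp C ≤ Real.exp (3 * C) := Real.exp_le_exp.2 (by linarith)
  refine
    { cont := ?_, der := fun u hu => ?_, ne := fun u hu => ?_, im := fun u hu => ?_,
      lip := fun u v hu hv => ?_, re := ?_, left := fun u hu0 hu1 => ?_ }
  · have := S.diff.continuous
    fun_prop
  · have h1 := lam_der S (z := 1 / 2 + (u : ℂ) + (y : ℂ) * I) (by rw [hre]; linarith)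
    have h2 : HasDerivAt (fun u : ℝ => (1 / 2 + (u : ℂ) + (y : ℂ) * I : ℂ)) 1 u := by
      have := ((Complex.ofRealCLM.hasDerivAt (x := u)).const_add (1 / 2 : ℂ)).add_const ((y : ℂ) * I)
      simpa using this
    have h3 := h1.comp u h2
    rw [mul_one] at h3
    exact h3
  · exact (quot_ne S (z := 1 / 2 + (u : ℂ) + (y : ℂ) * I) (by rw [hre]; linarith)).2.1
  · rw [add_im]
    have h1 := S.gp.im (1 / 2 + (u : ℂ) + (y : ℂ) * I) (by rw [hre]; linarith)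
    have h2 := (Complex.abs_im_le_norm _).trans (hQ u hu)
    have h3 := abs_add_le (D (1 / 2 + (u : ℂ) + (y : ℂ) * I)).im (Qf Λ γ (1 / 2 + (u : ℂ) + (y : ℂ) * I)).im
    rw [← hKK]
    linarith
  · have h1 := S.gp.lipD (ρ := 1) le_rfl (s := 1 / 2 + (u : ℂ) + (y : ℂ) * I)
      (t := 1 / 2 + (v : ℂ) + (y : ℂ) * I) (by rw [hre]; linarith) (by rw [hre]; linarith)
    have e : (1 / 2 + (u : ℂ) + (y : ℂ) * I : ℂ) - (1 / 2 + (v : ℂ) + (y : ℂ) * I) = ((u - v : ℝ) : ℂ) := by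
      push_cast; ring
    rw [e, Complex.norm_real, Real.norm_eq_abs, div_one] at h1
    have hconv : Convex ℝ {z : ℂ | σ + ρ ≤ z.re} := convex_halfSpace_re_ge _
    have h2 := hconv.norm_image_sub_le_of_norm_deriv_le (f := Qf Λ γ) (C := 4 * B ^ 2 / ρ ^ 2)
      (fun z hz => Qf_diff S (by
        have : σ + ρ ≤ z.re := hz
        linarith)) (fun z hz => Qf_deriv S hρ hz)
      (x := 1 / 2 + (v : ℂ) + (y : ℂ) * I) (y := 1 / 2 + (u : ℂ) + (y : ℂ) * I)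
      (by show σ + ρ ≤ _; rw [hre]; linarith) (by show σ + ρ ≤ _; rw [hre]; linarith)
    rw [e, Complex.norm_real, Real.norm_eq_abs] at h2
    have h3 : D (1 / 2 + (u : ℂ) + (y : ℂ) * I) + Qf Λ γ (1 / 2 + (u : ℂ) + (y : ℂ) * I) -
        (D (1 / 2 + (v : ℂ) + (y : ℂ) * I) + Qf Λ γ (1 / 2 + (v : ℂ) + (y : ℂ) * I)) =
        (D (1 / 2 + (u : ℂ) + (y : ℂ) * I) - D (1 / 2 + (v : ℂ) + (y : ℂ) * I)) +
        (Qf Λ γ (1 / 2 + (u : ℂ) + (y : ℂ) * I) - Qf Λ γ (1 / 2 + (v : ℂ) + (y : ℂ) * I)) := by ring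
    rw [h3]
    refine (norm_add_le _ _).trans ((add_le_add h1 h2).trans ?_)
    rw [← add_mul]
    apply mul_le_mul_of_nonneg_right _ (abs_nonneg _)
    rw [← hKK]
    have : 4 * B ^ 2 / ρ ^ 2 = 4 * (B ^ 2 / ρ ^ 2) := by ring
    rw [this]
    linarith
  · have h1 := S.gp.lipD (ρ := 1) le_rfl (s := 3 / 2 + (y : ℂ) * I)
      (t := 1 / 2 + ((σ - 1 / 2 + ρ : ℝ) : ℂ) + (y : ℂ) * I) (by simp; norm_num) (by rw [hre]; linarith)
    have e : (3 / 2 + (y : ℂ) * I : ℂ) - (1 / 2 + ((σ - 1 / 2 + ρ : ℝ) : ℂ) + (y : ℂ) * I) =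
        ((1 - (σ - 1 / 2 + ρ) : ℝ) : ℂ) := by
      push_cast; ring
    rw [e, Complex.norm_real, Real.norm_eq_abs, div_one] at h1
    have h2 : |1 - (σ - 1 / 2 + ρ)| ≤ 2 := abs_le.2 ⟨by linarith, by linarith⟩
    have h3 := (Complex.abs_re_le_norm _).trans h1
    rw [sub_re] at h3
    have h4 := (abs_le.1 h3).2
    have h5 : C * |1 - (σ - 1 / 2 + ρ)| ≤ C * 2 := by gcongr
    have h6 := (Complex.abs_re_le_norm _).trans (hQ (σ - 1 / 2 + ρ) le_rfl)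
    have h7 := (abs_le.1 h6).1
    show (D (3 / 2 + y * I)).re - 2 * C - B ^ 2 / ρ ≤ (D _ + Qf Λ γ _).re
    rw [add_re]
    linarith
  · show ‖Λ (1 / 2 + (u : ℂ) + (y : ℂ) * I)‖ ≤ KK C B ρ * ‖Λ (1 / 2 + ((σ - 1 / 2 + ρ : ℝ) : ℂ) + (y : ℂ) * I)‖
    have hfin : ∀ X : ℝ, X ≤ B * (Real.exp C * ‖γ (1 / 2 + ((σ - 1 / 2 + ρ : ℝ) : ℂ) + (y : ℂ) * I)‖) →
        X ≤ KK C B ρ * ‖Λ (1 / 2 + ((σ - 1 / 2 + ρ : ℝ) : ℂ) + (y : ℂ) * I)‖ := by
      intro X hX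
      refine hX.trans ?_
      calc B * (Real.exp C * ‖γ (1 / 2 + ((σ - 1 / 2 + ρ : ℝ) : ℂ) + (y : ℂ) * I)‖)
          ≤ B * (Real.exp (3 * C) * (B * ‖Λ (1 / 2 + ((σ - 1 / 2 + ρ : ℝ) : ℂ) + (y : ℂ) * I)‖)) := by
            gcongr
        _ = B ^ 2 * Real.exp (3 * C) * ‖Λ (1 / 2 + ((σ - 1 / 2 + ρ : ℝ) : ℂ) + (y : ℂ) * I)‖ := by ring
        _ ≤ _ := by
            apply mul_le_mul_of_nonneg_right _ (norm_nonneg _)
            rw [← hKK]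
            linarith
    rcases le_total σ (1 / 2 + u) with h | h
    · apply hfin
      refine (S.hi _ (by rw [hre]; exact h)).trans ?_
      apply mul_le_mul_of_nonneg_left _ (by linarith)
      exact hmono u _ (by linarith) hu1 le_rfl
    · apply hfin
      have h1 := S.strip (1 / 2 + (u : ℂ) + (y : ℂ) * I) (by rw [hre]; linarith) (by rw [hre]; exact h)
      have him : (1 / 2 + (u : ℂ) + (y : ℂ) * I : ℂ).im = y := by simp
      rw [him] at h1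
      refine h1.trans ?_
      apply mul_le_mul_of_nonneg_left _ (by linarith)
      have h2 := hmono (σ - 1 / 2) (σ - 1 / 2 + ρ) le_rfl (by linarith) le_rfl
      have e : (1 / 2 + ((σ - 1 / 2 : ℝ) : ℂ) + (y : ℂ) * I : ℂ) = σ + y * I := by push_cast; ring
      rwa [e] at h2

/-- the local theorem for abstract data -/
theorem local_of_sharp (hLAP : S_LAP) (hREP : S_REP) (C B σ : ℝ) (Sg : ℝ → ℝ) (hC : 1 ≤ C) (hB : 1 ≤ B)
    (hσ : 1 ≤ σ) (hσ2 : σ ≤ 5 / 2) {η : ℝ} (hη : 0 < η) :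
    ∃ t1 ℓ0 : ℝ, 0 < t1 ∧ ∀ (Λ γ D : ℂ → ℂ), Sharp C B σ Sg Λ γ D → Slow Λ →
      ∀ (t y : ℝ), 0 < t → t ≤ t1 → ℓ0 ≤ (D (3 / 2 + y * I)).re →
      2 * (σ - 1 / 2) + η ≤ 2 * t * (D (3 / 2 + y * I)).re →
      ∀ s : ℂ, s.im = y → heat t Λ s = 0 → s.re = 1 / 2 := by
  obtain ⟨ρ, hρd⟩ : ∃ ρ : ℝ, ρ = min 1 (η / 8) := ⟨_, rfl⟩
  have hρ : 0 < ρ := by rw [hρd]; exact lt_min one_pos (by positivity)
  have hρ1 : ρ ≤ 1 := by rw [hρd]; exact min_le_left _ _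
  have hρ2 : ρ ≤ η / 8 := by rw [hρd]; exact min_le_right _ _
  have hK : 1 ≤ KK C B ρ := by
    unfold KK
    have h1 : 0 ≤ 2 * B ^ 2 / ρ ^ 2 * 4 := by positivity
    have h2 : 0 ≤ B ^ 2 * Real.exp (3 * C) := by positivity
    linarith
  obtain ⟨t1, ℓ1, ht1, H⟩ := hLAP (KK C B ρ) (σ - 1 / 2 + ρ) (η / 4) hK (by linarith) (by positivity)
  obtain ⟨c, hc⟩ : ∃ c : ℝ, c = 2 * C + B ^ 2 / ρ := ⟨_, rfl⟩
  have hc0 : 0 < c := by rw [hc]; positivity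
  refine ⟨min t1 (η / (8 * c)), ℓ1 + c, lt_min ht1 (by positivity), ?_⟩
  intro Λ γ D S hslow t y ht htt hℓ htℓ s hs hz
  have hta : t ≤ t1 := htt.trans (min_le_left _ _)
  have htb : t ≤ η / (8 * c) := htt.trans (min_le_right _ _)
  rw [le_div_iff₀ (by positivity)] at htb
  have hrp := rp_of_sharp S hσ2 hρ hρ1 y
  have e1 : (D (3 / 2 + y * I)).re - 2 * C - B ^ 2 / ρ = (D (3 / 2 + y * I)).re - c := by rw [hc]; ring
  rw [e1] at hrp
  obtain ⟨-, hcmp⟩ := H _ t _ _ hrp ht hta (by linarith) (by nlinarith)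
  obtain ⟨ε, hε, hfe⟩ := S.fe
  obtain ⟨x, hx⟩ : ∃ x : ℝ, x = s.re - 1 / 2 := ⟨_, rfl⟩
  have hsx : s = 1 / 2 + (x : ℂ) + (y : ℂ) * I := by
    apply Complex.ext
    · simp [hx]
    · simp [hs]
  have hrep := hREP Λ ε hslow hfe t y x ht
  rw [← hsx, hz] at hrep
  have hne : (((1 / Real.sqrt (4 * Real.pi * t) * Real.exp (-(x ^ 2 / (4 * t))) : ℝ)) : ℂ) ≠ 0 := by
    have : 0 < 1 / Real.sqrt (4 * Real.pi * t) * Real.exp (-(x ^ 2 / (4 * t))) := by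
      have : 0 < Real.sqrt (4 * Real.pi * t) := Real.sqrt_pos.2 (by positivity)
      positivity
    exact_mod_cast this.ne'
  have h2 := (mul_eq_zero.1 hrep.symm).resolve_left hne
  set g : ℝ → ℂ := fun u : ℝ => Λ (1 / 2 + (u : ℂ) + (y : ℂ) * I) with hg
  have h3 : ‖hh t g x‖ = ‖hh t g (-x)‖ := by
    have h4 : hh t g x = -(ε * conj (hh t g (-x))) := eq_neg_of_add_eq_zero_left h2
    rw [h4, norm_neg, norm_mul, hε, one_mul, Complex.norm_conj]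
  rcases lt_trichotomy x 0 with h | h | h
  · have := hcmp (-x) (by linarith)
    rw [neg_neg, h3] at this
    exact absurd this (lt_irrefl _)
  · rw [h] at hx; linarith
  · have := hcmp x h
    rw [h3] at this
    exact absurd this (lt_irrefl _)

end Pool.Agent.W169.HF
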