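import Pool.Agent.W169.HF.Aut2
import Pool.Agent.W169.HF.Asm

/-!
# Project HF: the local and the global theorem for automorphic data
-/

set_option autoImplicit false

open Complex Set MeasureTheory intervalIntegral Filter Topology
open scoped ComplexConjugate NNReal ENNReal

namespace Pool.Agent.W169.HF

open H353.E H353.F

/-- the analytic conductor at height `y` -/
noncomputable def cnd {m : ℕ} (N : ℝ) (μ : Fin m → ℂ) (y : ℝ) : ℝ :=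
  N * ∏ j, (1 + ‖(y : ℂ) * I - μ j‖)

lemma one_le_prod {m : ℕ} (μ : Fin m → ℂ) (y : ℝ) : 1 ≤ ∏ j, (1 + ‖(y : ℂ) * I - μ j‖) := by
  refine Finset.prod_induction _ (fun x => (1 : ℝ) ≤ x) (fun a b ha hb => ?_) le_rfl fun j _ => ?_
  · nlinarith
  · linarith [norm_nonneg ((y : ℂ) * I - μ j)]

lemma le_cnd {m : ℕ} {N : ℝ} (hN : 1 ≤ N) (μ : Fin m → ℂ) (y : ℝ) : N ≤ cnd N μ y := by
  unfold cnd
  have := one_le_prod μ y
  nlinarith

theorem aut_local (m : ℕ) (hm : 1 ≤ m) {θ η : ℝ} (hθ0 : 0 ≤ θ) (hθ1 : θ ≤ 1 / 2) (hη : 0 < η) :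
    ∃ t1 C0 : ℝ, 0 < t1 ∧ ∀ (N : ℝ) (μ : Fin m → ℂ) (α : Fin m → ℕ → ℂ) (ε : ℂ) (Λ : ℂ → ℂ),
    DatumT θ N μ α ε Λ → ∀ (t : ℝ) (s : ℂ), 0 < t → t ≤ t1 → C0 ≤ cnd N μ s.im →
      1 + 2 * θ + η ≤ t * Real.log (cnd N μ s.im) →
      heat t (XX N Λ) s = 0 → s.re = 1 / 2 := by
  have hm' : (1 : ℝ) ≤ m := by exact_mod_cast hm
  obtain ⟨η', hη'd⟩ : ∃ η' : ℝ, η' = min 1 (η / 8) := ⟨_, rfl⟩
  have hη' : 0 < η' := by rw [hη'd]; exact lt_min one_pos (by positivity)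
  have hη'1 : η' ≤ 1 := by rw [hη'd]; exact min_le_left _ _
  have hη'2 : η' ≤ η / 8 := by rw [hη'd]; exact min_le_right _ _
  obtain ⟨B, hB, HS⟩ := sharpX m hm hθ0 hθ1 hη' hη'1
  obtain ⟨t1, ℓ0, ht1, HL⟩ := local_of_sharp lap_all rep_all (6 * m) B (1 + θ + η')
    (fun K => 4 * Real.exp (2 * |K| + 10)) (by linarith) hB (by linarith) (by linarith)
    (show 0 < η / 4 by positivity)
  refine ⟨min t1 (η / (28 * m)), Real.exp (2 * ℓ0 + 14 * m), lt_min ht1 (by positivity), ?_⟩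
  intro N μ α ε Λ d t s ht htt hC htC hz
  obtain ⟨S, hslow, -, -, -⟩ := HS N μ α ε Λ d
  have hN := d.one_le
  have hcnd : 1 ≤ cnd N μ s.im := hN.trans (le_cnd hN μ s.im)
  have h1 := gaD_re_ge hN d.re_le s.im
  change 1 / 2 * Real.log (cnd N μ s.im) - 7 * m ≤ _ at h1
  have h2 : 2 * ℓ0 + 14 * m ≤ Real.log (cnd N μ s.im) := by
    have := Real.log_le_log (Real.exp_pos _) hC
    rwa [Real.log_exp] at this
  have hta : t ≤ t1 := htt.trans (min_le_left _ _)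
  have htb : t ≤ η / (28 * m) := htt.trans (min_le_right _ _)
  rw [le_div_iff₀ (by positivity)] at htb
  refine HL (XX N Λ) (gaf N μ) (gaD N μ) S hslow t s.im ht hta ?_ ?_ s rfl hz
  · linarith
  · have h3 : 2 * t * (1 / 2 * Real.log (cnd N μ s.im) - 7 * m) ≤
        2 * t * (gaD N μ (3 / 2 + s.im * I)).re :=
      mul_le_mul_of_nonneg_left h1 (by positivity)
    have h4 : 2 * t * (1 / 2 * Real.log (cnd N μ s.im) - 7 * m) =
      t * Real.log (cnd N μ s.im) - t * (28 * m) / 2 := by ring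
    linarith

theorem aut_global (m : ℕ) (hm : 1 ≤ m) {θ η : ℝ} (hθ0 : 0 ≤ θ) (hθ1 : θ ≤ 1 / 2) (hη : 0 < η) :
    ∃ Q0 : ℝ, 1 < Q0 ∧ ∀ (N : ℝ) (μ : Fin m → ℂ) (α : Fin m → ℕ → ℂ) (ε : ℂ) (Λ : ℂ → ℂ),
    DatumT θ N μ α ε Λ → ∀ Q : ℝ, Q0 ≤ Q → (∀ y : ℝ, Q ≤ cnd N μ y) →
      ∀ (t : ℝ) (s : ℂ), (1 + 2 * θ + η) / Real.log Q ≤ t →
      heat t (XX N Λ) s = 0 → s.re = 1 / 2 := by
  obtain ⟨t1, C0, ht1, H⟩ := aut_local m hm hθ0 hθ1 hη
  have hη0 : 0 < 1 + 2 * θ + η := by linarith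
  refine ⟨max (max C0 2) (Real.exp ((1 + 2 * θ + η) / t1)), ?_, ?_⟩
  · exact lt_of_lt_of_le (by norm_num) ((le_max_right C0 2).trans (le_max_left _ _))
  intro N μ α ε Λ d Q hQ hQc t s ht hz
  have hQ2 : 2 ≤ Q := (le_max_right C0 2).trans ((le_max_left _ _).trans hQ)
  have hQC : C0 ≤ Q := (le_max_left C0 2).trans ((le_max_left _ _).trans hQ)
  have hQe : Real.exp ((1 + 2 * θ + η) / t1) ≤ Q := (le_max_right _ _).trans hQ
  have hlogpos : 0 < Real.log Q := Real.log_pos (by linarith)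
  have hlog : (1 + 2 * θ + η) / t1 ≤ Real.log Q := by
    have := Real.log_le_log (Real.exp_pos _) hQe
    rwa [Real.log_exp] at this
  obtain ⟨t0, ht0⟩ : ∃ t0 : ℝ, t0 = (1 + 2 * θ + η) / Real.log Q := ⟨_, rfl⟩
  have ht0p : 0 < t0 := by rw [ht0]; positivity
  have ht01 : t0 ≤ t1 := by
    rw [ht0, div_le_iff₀ hlogpos]
    rw [div_le_iff₀ ht1] at hlog
    linarith
  obtain ⟨B, hB, HS⟩ := sharpX m hm hθ0 hθ1 (show (0 : ℝ) < 1 by norm_num) le_rfl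
  obtain ⟨-, hslow, hfe, -, hne⟩ := HS N μ α ε Λ d
  refine mono_all (XX N Λ) hslow ⟨ε, d.norm_eq, hfe⟩ hne t0 t ht0p.le (by rw [ht0]; exact ht) ?_ s hz
  intro w hw
  refine H N μ α ε Λ d t0 w ht0p ht01 (hQC.trans (hQc _)) ?_ hw
  have h1 : Real.log Q ≤ Real.log (cnd N μ w.im) := Real.log_le_log (by linarith) (hQc _)
  calc 1 + 2 * θ + η = t0 * Real.log Q := by rw [ht0]; field_simp
    _ ≤ t0 * Real.log (cnd N μ w.im) := mul_le_mul_of_nonneg_left h1 ht0p.le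

end Pool.Agent.W169.HF
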