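import Mathlib

/-!
# Project HF (helper169): newforms of weight two as degree two L-functions

Definitions and statements (Mathlib only).
-/

set_option autoImplicit false

open Complex UpperHalfPlane MatrixGroups CongruenceSubgroup
open scoped ComplexConjugate

namespace Pool.Agent.W169.HF

/-- The `n`-th Fourier coefficient of `f`. -/
noncomputable def coef {N : ℕ} (f : CuspForm (Gamma0 N : Subgroup (GL (Fin 2) ℝ)) 2) (n : ℕ) : ℂ :=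
  (UpperHalfPlane.qExpansion 1 f).coeff n

/-- `f ∈ S_2(Γ₀(N))` has the properties of a newform with real coefficients: `c(1) = 1`, `c(n)` real,
the Hecke relations, the Fricke eigenvalue, and the bounds `|c(p)| ≤ 2 √p` (`p ∤ N`),
`|c(p)| ≤ √p` (`p ∣ N`). -/
structure IsForm (N : ℕ) (f : CuspForm (Gamma0 N : Subgroup (GL (Fin 2) ℝ)) 2) (w : ℝ) : Prop where
  one : coef f 1 = 1
  real : ∀ n, (coef f n).im = 0
  mul : ∀ m n : ℕ, Nat.Coprime m n → coef f (m * n) = coef f m * coef f n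
  pow : ∀ p j : ℕ, p.Prime → coef f (p ^ (j + 2)) = coef f p * coef f (p ^ (j + 1)) -
      (if p ∣ N then 0 else (p : ℂ) * coef f (p ^ j))
  sign : w = 1 ∨ w = -1
  fricke : ∀ τ τ' : ℍ, (τ' : ℂ) * ((N : ℂ) * (τ : ℂ)) = -1 →
    f τ' = -(w : ℂ) * (N : ℂ) * (τ : ℂ) ^ 2 * f τ
  good : ∀ p : ℕ, p.Prime → ¬ p ∣ N → ‖coef f p‖ ≤ 2 * Real.sqrt p
  bad : ∀ p : ℕ, p.Prime → p ∣ N → ‖coef f p‖ ≤ Real.sqrt p

/-- `Λ` is the completed L-function of `f`: it is entire and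
`Λ(s) = N^(s/2) (2π)^(-s) Γ(s) ∑ c(n) n^(-s)` for `Re s > 2`. -/
def IsCompleted {N : ℕ} (f : CuspForm (Gamma0 N : Subgroup (GL (Fin 2) ℝ)) 2) (Λ : ℂ → ℂ) : Prop :=
  Differentiable ℂ Λ ∧ ∀ s : ℂ, 2 < s.re →
    Λ s = ((Real.sqrt N / (2 * Real.pi) : ℝ) : ℂ) ^ s * Complex.Gamma s *
      ∑' n : ℕ, coef f (n + 1) * ((n + 1 : ℕ) : ℂ) ^ (-s)

/-- NF1: analytic properties of the completed L-function -/
def S_NF1 : Prop := ∀ (N : ℕ) [NeZero N] (f : CuspForm (Gamma0 N : Subgroup (GL (Fin 2) ℝ)) 2) (w : ℝ),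
  IsForm N f w → ∃ Λ : ℂ → ℂ, IsCompleted f Λ ∧ (∀ s : ℂ, Λ (2 - s) = (w : ℂ) * Λ s) ∧
    (∀ s : ℂ, Λ (conj s) = conj (Λ s)) ∧
    ∀ a b : ℝ, ∃ M : ℝ, ∀ s : ℂ, a ≤ s.re → s.re ≤ b → ‖Λ s‖ ≤ M

/-- NF2: the Euler product in the analytic normalisation -/
def S_NF2 : Prop := ∀ (N : ℕ) [NeZero N] (f : CuspForm (Gamma0 N : Subgroup (GL (Fin 2) ℝ)) 2) (w : ℝ),
  IsForm N f w → ∃ α : Fin 2 → ℕ → ℂ, (∀ j, ∀ p : ℕ, p.Prime → ‖α j p‖ ≤ 1) ∧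
    (∀ s : ℂ, 1 < s.re → Summable (fun n : ℕ => ‖coef f (n + 1) * ((n + 1 : ℕ) : ℂ) ^ (-(s + 1 / 2))‖)) ∧
    ∀ s : ℂ, 1 < s.re → ∑' n : ℕ, coef f (n + 1) * ((n + 1 : ℕ) : ℂ) ^ (-(s + 1 / 2)) =
      ∏' p : Nat.Primes, ∏ j, (1 - α j p * ((p : ℕ) : ℂ) ^ (-s))⁻¹

end Pool.Agent.W169.HF
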