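import Pool.Agent.H353R7.G4
import Pool.Agent.W169.HF.DefsNF

/-!
# Project HF: newforms of weight two satisfy the general analytic data
-/

set_option autoImplicit false

open Complex UpperHalfPlane MatrixGroups CongruenceSubgroup
open scoped ComplexConjugate

namespace Pool.Agent.W169.HF

/-- NF3: the general analytic data for a newform of weight two -/
def S_NF3 : Prop := ∀ (N : ℕ) [NeZero N] (f : CuspForm (Gamma0 N : Subgroup (GL (Fin 2) ℝ)) 2) (w : ℝ),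
  IsForm N f w → ∀ Λ : ℂ → ℂ, IsCompleted f Λ → (∀ s : ℂ, Λ (2 - s) = (w : ℂ) * Λ s) →
    (∀ s : ℂ, Λ (conj s) = conj (Λ s)) →
    (∀ a b : ℝ, ∃ M : ℝ, ∀ s : ℂ, a ≤ s.re → s.re ≤ b → ‖Λ s‖ ≤ M) →
    ∃ α : Fin 2 → ℕ → ℂ, H353.F.DatumT (0 : ℝ) (N : ℝ) ![(-1 / 2 : ℂ), (-3 / 2 : ℂ)] α (w : ℂ)
      (fun s : ℂ => 2 * (N : ℂ) ^ (-((s + 1 / 2) / 2)) * Λ (s + 1 / 2))

end Pool.Agent.W169.HF
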