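import Pool.Agent.W169.HF.Asm

/-!
# Project HF: small times
-/

set_option autoImplicit false

open Complex Set MeasureTheory Filter Topology
open scoped ComplexConjugate

namespace Pool.Agent.W169.HF

lemma hs_sub_bound {f : ℂ → ℂ} (hf : Slow f) : ∃ K : ℝ, 0 < K ∧ ∀ t : ℝ, 0 ≤ t → t ≤ 1 → ∀ z : ℂ,
    ‖hs t f z - f z‖ ≤ t * (K * Real.exp (‖z‖ ^ 2)) := by
  obtain ⟨K, hK, hb⟩ := der_all f hf (1 / 60) (by norm_num)
  refine ⟨K, hK, fun t ht ht1 z => ?_⟩
  have hsum := (hs_all f hf t).1 z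
  have hsum' : Summable fun k : ℕ => ((t ^ k / (k.factorial : ℝ) : ℝ) : ℂ) * iteratedDeriv (2 * k) f z :=
    hsum.of_norm
  have e : hs t f z - f z = ∑' k : ℕ, ((t ^ (k + 1) / ((k + 1).factorial : ℝ) : ℝ) : ℂ) *
      iteratedDeriv (2 * (k + 1)) f z := by
    unfold hs
    rw [hsum'.tsum_eq_zero_add]
    simp
  have hE : Real.exp (2 * (1 / 60) * ‖z‖ ^ 2) ≤ Real.exp (‖z‖ ^ 2) := by
    apply Real.exp_le_exp.2
    nlinarith [sq_nonneg ‖z‖]
  have hterm : ∀ k : ℕ, ‖((t ^ (k + 1) / ((k + 1).factorial : ℝ) : ℝ) : ℂ) *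
      iteratedDeriv (2 * (k + 1)) f z‖ ≤ t * (K * Real.exp (‖z‖ ^ 2)) * ((1 / 2 : ℝ) / 2 ^ k) := by
    intro k
    rw [norm_mul, Complex.norm_real, Real.norm_eq_abs, abs_of_nonneg (by positivity)]
    have h1 := hb (k + 1) z
    have hfac : (0 : ℝ) < ((k + 1).factorial : ℝ) := by exact_mod_cast Nat.factorial_pos _
    have ht2 : t ^ (k + 1) ≤ t := by
      rw [pow_succ]
      have : t ^ k ≤ 1 := pow_le_one₀ ht ht1
      nlinarith
    calc t ^ (k + 1) / ((k + 1).factorial : ℝ) * ‖iteratedDeriv (2 * (k + 1)) f z‖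
        ≤ t ^ (k + 1) / ((k + 1).factorial : ℝ) * (K * ((k + 1).factorial : ℝ) * (30 * (1 / 60)) ^ (k + 1) *
          Real.exp (2 * (1 / 60) * ‖z‖ ^ 2)) := by gcongr
      _ = t ^ (k + 1) * (K * Real.exp (2 * (1 / 60) * ‖z‖ ^ 2)) * (1 / 2) ^ (k + 1) := by
          field_simp
          norm_num
      _ ≤ t * (K * Real.exp (‖z‖ ^ 2)) * (1 / 2) ^ (k + 1) := by gcongr
      _ = t * (K * Real.exp (‖z‖ ^ 2)) * ((1 / 2 : ℝ) / 2 ^ k) := by
          rw [pow_succ, one_div_pow]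
          ring
  have hgeo : HasSum (fun k : ℕ => t * (K * Real.exp (‖z‖ ^ 2)) * ((1 / 2 : ℝ) / 2 ^ k))
      (t * (K * Real.exp (‖z‖ ^ 2)) * 1) := by
    have := (hasSum_geometric_two' (1 : ℝ)).mul_left (t * (K * Real.exp (‖z‖ ^ 2)))
    exact this
  rw [e]
  refine (tsum_of_norm_bounded hgeo hterm).trans (le_of_eq ?_)
  ring

lemma heat_tendsto {f : ℂ → ℂ} (hf : Slow f) (T : ℝ) (hT : 0 < T) :
    TendstoLocallyUniformly (fun (n : ℕ) (z : ℂ) => heat (T / ((n : ℝ) + 1)) f z) f atTop := by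
  obtain ⟨K, hK, hb⟩ := hs_sub_bound hf
  rw [Metric.tendstoLocallyUniformly_iff]
  intro ε hε x
  refine ⟨Metric.ball x 1, Metric.ball_mem_nhds x one_pos, ?_⟩
  have hlim : Tendsto (fun n : ℕ => T / ((n : ℝ) + 1)) atTop (𝓝 0) := by
    have := (tendsto_one_div_add_atTop_nhds_zero_nat (𝕜 := ℝ)).const_mul T
    rw [mul_zero] at this
    refine this.congr fun n => ?_
    ring
  have h1 : ∀ᶠ n : ℕ in atTop, T / ((n : ℝ) + 1) < 1 := hlim.eventually (gt_mem_nhds one_pos)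
  have h2 : ∀ᶠ n : ℕ in atTop, T / ((n : ℝ) + 1) < ε / (K * Real.exp ((‖x‖ + 1) ^ 2)) :=
    hlim.eventually (gt_mem_nhds (by positivity))
  filter_upwards [h1, h2] with n hn1 hn2 y hy
  have ht0 : 0 ≤ T / ((n : ℝ) + 1) := by positivity
  rw [heat_all f hf _ ht0, dist_comm, dist_eq_norm]
  refine (hb _ ht0 hn1.le y).trans_lt ?_
  rw [lt_div_iff₀ (by positivity)] at hn2
  refine lt_of_le_of_lt ?_ hn2
  apply mul_le_mul_of_nonneg_left _ ht0
  apply mul_le_mul_of_nonneg_left _ hK.le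
  apply Real.exp_le_exp.2
  have hy1 : ‖y‖ ≤ ‖x‖ + 1 := by
    have h3 : ‖y - x‖ < 1 := by rwa [Metric.mem_ball, dist_eq_norm] at hy
    have h4 := norm_add_le (y - x) x
    rw [sub_add_cancel] at h4
    linarith
  exact pow_le_pow_left₀ (norm_nonneg y) hy1 2

/-- zeros on the line for all small positive times give zeros on the line at time zero -/
theorem zero_of_small {f : ℂ → ℂ} (hf : Slow f) (hne : ∃ z, f z ≠ 0) {T : ℝ} (hT : 0 < T)
    (h : ∀ t : ℝ, 0 < t → t < T → ∀ s : ℂ, heat t f s = 0 → s.re = 1 / 2) (s : ℂ) (hs0 : f s = 0) :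
    s.re = 1 / 2 := by
  by_contra hcon
  have hV : IsOpen {z : ℂ | z.re ≠ 1 / 2} := isOpen_ne.preimage Complex.continuous_re
  have hlim := heat_tendsto hf (T / 2) (by positivity)
  have hpos : ∀ n : ℕ, 0 < T / 2 / ((n : ℝ) + 1) := fun n => by positivity
  have hlt : ∀ n : ℕ, T / 2 / ((n : ℝ) + 1) < T := fun n => by
    rw [div_lt_iff₀ (by positivity)]
    have : (0 : ℝ) ≤ n := Nat.cast_nonneg n
    nlinarith
  have hev0 := Pool.Agent.Helper114.RMT.hurwitz hV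
    (fun n => (by
      rw [heat_all f hf _ (hpos n).le]
      exact ((hs_all f hf _).2.1.1).differentiableOn))
    (tendstoLocallyUniformlyOn_univ.2 hlim |>.mono (subset_univ _))
    (fun n z hz h0 => absurd (h _ (hpos n) (hlt n) z h0) hz) hcon hs0
  obtain ⟨z, hz⟩ := hne
  have han : AnalyticOnNhd ℂ f univ := fun z _ => hf.1.analyticAt z
  have := han.eqOn_zero_of_preconnected_of_eventuallyEq_zero isPreconnected_univ (mem_univ s) hev0
  exact hz (this (mem_univ z))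

lemma heat_zero_time (f : ℂ → ℂ) (hf : Slow f) : heat 0 f = f := by
  rw [heat_all f hf 0 le_rfl, Pool.Agent.W577.HF.hs_zero_time]

/-- zeros on the line at time zero is the same as zeros on the line for all small positive times -/
theorem line_iff {f : ℂ → ℂ} (hf : Slow f) (hfe : Fe f) (hne : ∃ z, f z ≠ 0) {T : ℝ} (hT : 0 < T) :
    (∀ s : ℂ, f s = 0 → s.re = 1 / 2) ↔
      ∀ t : ℝ, 0 < t → t < T → ∀ s : ℂ, heat t f s = 0 → s.re = 1 / 2 := by
  refine ⟨fun h t ht _ s hs => ?_, fun h s hs => zero_of_small hf hne hT h s hs⟩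
  refine mono_all f hf hfe hne 0 t le_rfl ht.le ?_ s hs
  rw [heat_zero_time f hf]
  exact h

end Pool.Agent.W169.HF
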