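import Pool.Agent.W169.HF.Aut3
import Pool.Agent.W169.HF.Small
import Pool.Agent.W169.HF.DefsNF3
import Pool.Agent.W174.HF.NF1
import Pool.Agent.W45.HF.NF2
import Pool.Agent.W930.HF.NF3

/-!
# Project HF: the local and the global theorem for newforms of weight two
-/

set_option autoImplicit false

open Complex UpperHalfPlane MatrixGroups CongruenceSubgroup Filter Topology Set MeasureTheory
open scoped ComplexConjugate

namespace Pool.Agent.W169.HF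

open H353.E H353.F

theorem completed_unique {N : ℕ} {f : CuspForm (Gamma0 N : Subgroup (GL (Fin 2) ℝ)) 2} {Λ Λ' : ℂ → ℂ}
    (h : IsCompleted f Λ) (h' : IsCompleted f Λ') : Λ = Λ' := by
  have hev : Λ =ᶠ[𝓝 (3 : ℂ)] Λ' := by
    have hopen : IsOpen {s : ℂ | 2 < s.re} := isOpen_lt continuous_const Complex.continuous_re
    filter_upwards [hopen.mem_nhds (show (3 : ℂ) ∈ {s : ℂ | 2 < s.re} by simp; norm_num)] with s hs
    rw [h.2 s hs, h'.2 s hs]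
  exact AnalyticOnNhd.eq_of_eventuallyEq (fun z _ => h.1.analyticAt z) (fun z _ => h'.1.analyticAt z) hev

/-- the completed L-function in the analytic normalisation -/
lemma xx_nf {N : ℕ} (hN : 0 < N) (Λ : ℂ → ℂ) (s : ℂ) :
    XX (N : ℝ) (fun s : ℂ => 2 * (N : ℂ) ^ (-((s + 1 / 2) / 2)) * Λ (s + 1 / 2)) s =
      2 * (N : ℂ) ^ (-(1 / 4) : ℂ) * Λ (s + 1 / 2) := by
  have hNc : (N : ℂ) ≠ 0 := by exact_mod_cast hN.ne'
  unfold XX
  rw [Complex.ofReal_natCast]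
  have e : (N : ℂ) ^ (s / 2) * (N : ℂ) ^ (-((s + 1 / 2) / 2)) = (N : ℂ) ^ (-(1 / 4) : ℂ) := by
    rw [← Complex.cpow_add _ _ hNc]
    congr 1
    ring
  rw [← e]
  ring

lemma heat_mul (t : ℝ) (c : ℂ) (F : ℂ → ℂ) (s : ℂ) :
    heat t (fun z => c * F z) s = c * heat t F s := by
  unfold heat
  have h : ∀ v : ℝ, ((Real.exp (-v ^ 2) : ℝ) : ℂ) * (c * F (s + ((2 * Real.sqrt t * v : ℝ) : ℂ))) =
      c * (((Real.exp (-v ^ 2) : ℝ) : ℂ) * F (s + ((2 * Real.sqrt t * v : ℝ) : ℂ))) := fun v => by ring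
  simp only [h]
  rw [integral_const_mul]
  ring

lemma heat_shift (t : ℝ) (a : ℂ) (F : ℂ → ℂ) (s : ℂ) :
    heat t (fun z => F (z + a)) s = heat t F (s + a) := by
  unfold heat
  have h : ∀ v : ℝ, s + ((2 * Real.sqrt t * v : ℝ) : ℂ) + a = s + a + ((2 * Real.sqrt t * v : ℝ) : ℂ) :=
    fun v => by ring
  simp only [h]

lemma heat_nf {N : ℕ} (hN : 0 < N) (Λ : ℂ → ℂ) (t : ℝ) (s : ℂ) :
    heat t (XX (N : ℝ) (fun s : ℂ => 2 * (N : ℂ) ^ (-((s + 1 / 2) / 2)) * Λ (s + 1 / 2))) s = 0 ↔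
      heat t Λ (s + 1 / 2) = 0 := by
  have e : XX (N : ℝ) (fun s : ℂ => 2 * (N : ℂ) ^ (-((s + 1 / 2) / 2)) * Λ (s + 1 / 2)) =
      fun s => (2 * (N : ℂ) ^ (-(1 / 4) : ℂ)) * (fun z => Λ (z + 1 / 2)) s := by
    funext s
    rw [xx_nf hN]
  have hNc : (N : ℂ) ≠ 0 := by exact_mod_cast hN.ne'
  have hc : (2 * (N : ℂ) ^ (-(1 / 4) : ℂ)) ≠ 0 := by
    refine mul_ne_zero two_ne_zero ?_
    rw [Ne, Complex.cpow_eq_zero_iff]
    exact fun h => hNc h.1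
  rw [e, heat_mul, heat_shift]
  constructor
  · intro h
    exact (mul_eq_zero.1 h).resolve_left hc
  · intro h
    rw [h, mul_zero]

lemma cnd_nf (N y : ℝ) (hN : 0 ≤ N) :
    N * (1 + |y|) ^ 2 ≤ cnd N ![(-1 / 2 : ℂ), (-3 / 2 : ℂ)] y := by
  unfold cnd
  rw [Fin.prod_univ_two]
  have h1 : ∀ μ : ℂ, μ.im = 0 → |y| ≤ ‖(y : ℂ) * Complex.I - μ‖ := fun μ hμ => by
    have h := Complex.abs_im_le_norm ((y : ℂ) * Complex.I - μ)
    have e : ((y : ℂ) * Complex.I - μ).im = y := by simp [hμ]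
    rwa [e] at h
  have h2 := h1 (-1 / 2) (by simp)
  have h3 := h1 (-3 / 2) (by simp)
  have h4 := abs_nonneg y
  rw [Matrix.cons_val_zero, Matrix.cons_val_one, Matrix.cons_val_zero]
  apply mul_le_mul_of_nonneg_left _ hN
  nlinarith

theorem nf3_all : S_NF3 := Pool.Agent.W930.HFNF3.nf3_of Pool.Agent.W45.HF.nf2

theorem nf_local {η : ℝ} (hη : 0 < η) :
    ∃ t1 C0 : ℝ, 0 < t1 ∧ ∀ (N : ℕ) [NeZero N] (f : CuspForm (Gamma0 N : Subgroup (GL (Fin 2) ℝ)) 2) (w : ℝ),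
      IsForm N f w → ∀ Λ : ℂ → ℂ, IsCompleted f Λ →
      ∀ (t : ℝ) (s : ℂ), 0 < t → t ≤ t1 → C0 ≤ N * (1 + |s.im|) ^ 2 →
      1 + η ≤ t * Real.log (N * (1 + |s.im|) ^ 2) → heat t Λ s = 0 → s.re = 1 := by
  obtain ⟨t1, C0, ht1, H⟩ := aut_local 2 (by norm_num) (θ := 0) le_rfl (by norm_num) hη
  refine ⟨t1, max C0 1, ht1, ?_⟩
  intro N _ f w hf Λ hΛ t s ht htt hC htC hz
  have hN : 0 < N := Nat.pos_of_ne_zero (NeZero.ne N)
  obtain ⟨Λ', hΛ', hfe, hcj, hb⟩ := Pool.Agent.W174.HF.nf1 N f w hf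
  have heq : Λ' = Λ := completed_unique hΛ' hΛ
  rw [heq] at hfe hcj hb
  obtain ⟨α, d⟩ := nf3_all N f w hf Λ hΛ hfe hcj hb
  have h1 : (s - 1 / 2).im = s.im := by simp
  have h2 := cnd_nf (N : ℝ) s.im (by positivity)
  have hCa : C0 ≤ (N : ℝ) * (1 + |s.im|) ^ 2 := (le_max_left _ _).trans hC
  have hCb : 1 ≤ (N : ℝ) * (1 + |s.im|) ^ 2 := (le_max_right _ _).trans hC
  have h4 : Real.log ((N : ℝ) * (1 + |s.im|) ^ 2) ≤
      Real.log (cnd (N : ℝ) ![(-1 / 2 : ℂ), (-3 / 2 : ℂ)] s.im) := Real.log_le_log (by linarith) h2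
  have h5 := mul_le_mul_of_nonneg_left h4 ht.le
  have h6 := H N _ α w _ d t (s - 1 / 2) ht htt (by rw [h1]; exact hCa.trans h2)
    (by rw [h1]; linarith) ((heat_nf hN Λ t _).2 (by rw [sub_add_cancel]; exact hz))
  have h7 : (s - 1 / 2 : ℂ).re = s.re - 1 / 2 := by simp
  rw [h7] at h6
  linarith

theorem nf_global {η : ℝ} (hη : 0 < η) :
    ∃ N0 : ℝ, 1 < N0 ∧ ∀ (N : ℕ) [NeZero N] (f : CuspForm (Gamma0 N : Subgroup (GL (Fin 2) ℝ)) 2) (w : ℝ),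
      IsForm N f w → ∀ Λ : ℂ → ℂ, IsCompleted f Λ → N0 ≤ N →
      ∀ (t : ℝ) (s : ℂ), (1 + η) / Real.log N ≤ t → heat t Λ s = 0 → s.re = 1 := by
  obtain ⟨Q0, hQ0, H⟩ := aut_global 2 (by norm_num) (θ := 0) le_rfl (by norm_num) hη
  refine ⟨Q0, hQ0, ?_⟩
  intro N _ f w hf Λ hΛ hNQ t s ht hz
  have hN : 0 < N := Nat.pos_of_ne_zero (NeZero.ne N)
  obtain ⟨Λ', hΛ', hfe, hcj, hb⟩ := Pool.Agent.W174.HF.nf1 N f w hf
  have heq : Λ' = Λ := completed_unique hΛ' hΛ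
  rw [heq] at hfe hcj hb
  obtain ⟨α, d⟩ := nf3_all N f w hf Λ hΛ hfe hcj hb
  have h6 := H N _ α w _ d N hNQ (fun y => le_cnd d.one_le _ y) t (s - 1 / 2)
    (by rw [mul_zero, add_zero]; exact ht)
    ((heat_nf hN Λ t _).2 (by rw [sub_add_cancel]; exact hz))
  have h7 : (s - 1 / 2 : ℂ).re = s.re - 1 / 2 := by simp
  rw [h7] at h6
  linarith

theorem nf_iff (N : ℕ) [NeZero N] (f : CuspForm (Gamma0 N : Subgroup (GL (Fin 2) ℝ)) 2) (w : ℝ)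
    (hf : IsForm N f w) (Λ : ℂ → ℂ) (hΛ : IsCompleted f Λ) {T : ℝ} (hT : 0 < T) :
    (∀ s : ℂ, Λ s = 0 → s.re = 1) ↔
      ∀ t : ℝ, 0 < t → t < T → ∀ s : ℂ, heat t Λ s = 0 → s.re = 1 := by
  have hN : 0 < N := Nat.pos_of_ne_zero (NeZero.ne N)
  obtain ⟨Λ', hΛ', hfe, hcj, hb⟩ := Pool.Agent.W174.HF.nf1 N f w hf
  have heq : Λ' = Λ := completed_unique hΛ' hΛ
  rw [heq] at hfe hcj hb
  obtain ⟨α, d⟩ := nf3_all N f w hf Λ hΛ hfe hcj hb
  obtain ⟨B, hB, HS⟩ := sharpX 2 (by norm_num) (θ := 0) le_rfl (by norm_num)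
    (show (0 : ℝ) < 1 by norm_num) le_rfl
  obtain ⟨-, hslow, hfe', -, hne⟩ := HS N _ α w _ d
  have key := line_iff hslow ⟨(w : ℂ), d.norm_eq, hfe'⟩ hne hT
  have hNc : (N : ℂ) ≠ 0 := by exact_mod_cast hN.ne'
  have hc : (2 * (N : ℂ) ^ (-(1 / 4) : ℂ)) ≠ 0 := by
    refine mul_ne_zero two_ne_zero ?_
    rw [Ne, Complex.cpow_eq_zero_iff]
    exact fun h => hNc h.1
  constructor
  · intro h t ht htT s hs
    have h1 := key.1 (fun z hz => by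
      rw [xx_nf hN] at hz
      have h2 := h _ ((mul_eq_zero.1 hz).resolve_left hc)
      have h3 : (z + 1 / 2 : ℂ).re = z.re + 1 / 2 := by simp
      rw [h3] at h2
      linarith) t ht htT (s - 1 / 2) ((heat_nf hN Λ t _).2 (by rw [sub_add_cancel]; exact hs))
    have h7 : (s - 1 / 2 : ℂ).re = s.re - 1 / 2 := by simp
    rw [h7] at h1
    linarith
  · intro h s hs
    have h1 := key.2 (fun t ht htT z hz => by
      have h2 := h t ht htT _ ((heat_nf hN Λ t z).1 hz)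
      have h3 : (z + 1 / 2 : ℂ).re = z.re + 1 / 2 := by simp
      rw [h3] at h2
      linarith) (s - 1 / 2) (by rw [xx_nf hN, sub_add_cancel, hs, mul_zero])
    have h7 : (s - 1 / 2 : ℂ).re = s.re - 1 / 2 := by simp
    rw [h7] at h1
    linarith

end Pool.Agent.W169.HF
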