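import Pool.Agent.W169.HF.Loc

/-!
# Project HF: the local equivalence for automorphic data
-/

set_option autoImplicit false

open Complex Set MeasureTheory intervalIntegral Filter Topology
open scoped ComplexConjugate NNReal ENNReal

namespace Pool.Agent.W169.HF

open H353.E H353.F

lemma heat_shift' (t : ℝ) (a : ℂ) (F : ℂ → ℂ) (s : ℂ) :
    heat t (fun z => F (a + z)) s = heat t F (a + s) := by
  unfold heat
  have h : ∀ v : ℝ, a + (s + ((2 * Real.sqrt t * v : ℝ) : ℂ)) = a + s + ((2 * Real.sqrt t * v : ℝ) : ℂ) :=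
    fun v => by ring
  simp only [h]

/-- the zeros of the heat flow are at distance at most 1 from the line -/
lemma heat_strip {f : ℂ → ℂ} (hf : Slow f) (hfe : Fe f) (hne : ∃ z, f z ≠ 0)
    (hz : ∀ z, f z = 0 → z.re ≤ 3 / 2) {t : ℝ} (ht : 0 ≤ t) {s : ℂ} (hs : heat t f s = 0) :
    |s.re - 1 / 2| ≤ 1 := by
  obtain ⟨-, h⟩ := db_all 1 f ⟨hf, hfe, fun s hs => by have := hz s hs; linarith⟩ hne t ht
  have h1 := h.zer s hs
  obtain ⟨ε, hε, hfe'⟩ := h.fe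
  have h2 : heat t f (1 - conj s) = 0 := by
    have h8 := hfe' s
    rw [hs] at h8
    have hε0 : ε ≠ 0 := by rintro rfl; simp at hε
    exact (map_eq_zero _).1 ((mul_eq_zero.1 h8.symm).resolve_left hε0)
  have h3 := h.zer _ h2
  rw [sub_re, one_re, conj_re] at h3
  rw [abs_le]
  constructor <;> linarith

section numbers

/-- passing from the conductor to the logarithmic derivative -/
lemma pass {m g X L ℓ t : ℝ} (hm : 0 < m) (hg : 0 < g) (hX : 1 ≤ X) (ht : 0 < t)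
    (h1 : 1 / 2 * L - 7 * m ≤ ℓ) (h2 : ℓ ≤ 1 / 2 * L + 5 * m) (hL : 28 * m * X / g ≤ L)
    (htL : t * L ≤ X) : t * L - g / 2 ≤ 2 * t * ℓ ∧ 2 * t * ℓ ≤ t * L + g / 2 := by
  have h3 : t * (28 * m * X / g) ≤ X := (mul_le_mul_of_nonneg_left hL ht.le).trans htL
  have h4 : 28 * m * t ≤ g := by
    rw [show t * (28 * m * X / g) = 28 * m * t / g * X by ring] at h3
    have h5 : 28 * m * t / g ≤ 1 := by
      by_contra hcon
      push Not at hcon
      nlinarith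
    rwa [div_le_one hg] at h5
  have h5 : 2 * t * (1 / 2 * L - 7 * m) ≤ 2 * t * ℓ := mul_le_mul_of_nonneg_left h1 (by positivity)
  have h6 : 2 * t * ℓ ≤ 2 * t * (1 / 2 * L + 5 * m) := mul_le_mul_of_nonneg_left h2 (by positivity)
  have h7 : 0 < m * t := by positivity
  constructor <;> nlinarith

end numbers

theorem aut_fwd (m : ℕ) (hm : 1 ≤ m) {θ ϑ g X : ℝ} (hθ0 : 0 ≤ θ) (hθ1 : θ ≤ 1 / 2) (hϑ0 : 0 ≤ ϑ)
    (hϑ1 : ϑ ≤ 1) (hg : 0 < g) (hX : 1 ≤ X) :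
    ∃ R C0 : ℝ, ∀ (N : ℝ) (μ : Fin m → ℂ) (α : Fin m → ℕ → ℂ) (ε : ℂ) (Λ : ℂ → ℂ),
    DatumT θ N μ α ε Λ → ∀ t y : ℝ, 0 < t → C0 ≤ cnd N μ y →
      2 * ϑ + g ≤ t * Real.log (cnd N μ y) → t * Real.log (cnd N μ y) ≤ X →
      (∀ s : ℂ, 1 / 2 + ϑ < s.re → |s.im - y| ≤ R → Λ s ≠ 0) →
      ∀ s : ℂ, s.im = y → heat t (XX N Λ) s = 0 → s.re = 1 / 2 := by
  have hm' : (1 : ℝ) ≤ m := by exact_mod_cast hm
  obtain ⟨B, hB, HS⟩ := sharpX m hm hθ0 hθ1 (show (0 : ℝ) < 1 / 2 by norm_num) (by norm_num)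
  have hlogB : 0 ≤ Real.log B := Real.log_nonneg hB
  obtain ⟨R, ℓ0, HF⟩ := fwd_all (Real.log B + 20 * (6 * m)) (1 + θ + 1 / 2 - 1 / 2) ϑ (g / 2) (X + g)
    (by linarith) (by linarith) (by linarith) hϑ0 (by linarith) (by positivity) (by linarith)
  refine ⟨R, Real.exp (2 * |ℓ0| + 14 * m + 28 * m * X / g), ?_⟩
  intro N μ α ε Λ d t y ht hC h1 h2 hzf s hsy hs
  obtain ⟨S, hslow, hfe, hzer, hne⟩ := HS N μ α ε Λ d
  have hN0 : (N : ℂ) ≠ 0 := by
    have := d.one_le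
    exact_mod_cast (by linarith : (0 : ℝ) < N).ne'
  have hL : 2 * |ℓ0| + 14 * m + 28 * m * X / g ≤ Real.log (cnd N μ y) := by
    have := Real.log_le_log (Real.exp_pos _) hC
    rwa [Real.log_exp] at this
  have h0 : 0 ≤ 28 * m * X / g := by positivity
  have hab := le_abs_self ℓ0
  have hab0 := abs_nonneg ℓ0
  have hlo := gaD_re_ge d.one_le d.re_le y
  have hup := gaD_re_le d.one_le d.re_le y
  change 1 / 2 * Real.log (cnd N μ y) - 7 * m ≤ _ at hlo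
  change _ ≤ 1 / 2 * Real.log (cnd N μ y) + 5 * m at hup
  obtain ⟨h3, h4⟩ := pass (by linarith : (0 : ℝ) < m) hg hX ht hlo hup (by linarith) h2
  have ud := ud_of_sharp S hslow (by linarith) y
  have key := HF _ _ t _ (by linarith) ud ht (by linarith) (by linarith) (fun u hu1 hu2 h => by
    refine hzf (1 / 2 + (y : ℂ) * I + u) (by simp; linarith) (by simpa using hu2) ?_
    unfold XX at h
    rcases mul_eq_zero.1 h with h | h
    · exact absurd (Complex.cpow_eq_zero_iff _ _ |>.1 h).1 hN0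
    · exact h)
  by_contra hcon
  have hst := heat_strip hslow ⟨ε, d.norm_eq, hfe⟩ hne hzer ht.le hs
  refine key (s.re - 1 / 2) (sub_ne_zero.2 hcon) (by linarith) ?_
  rw [heat_shift']
  have e : (1 / 2 + (y : ℂ) * I + ((s.re - 1 / 2 : ℝ) : ℂ) : ℂ) = s := by
    apply Complex.ext
    · simp
    · simp [hsy]
  rw [e]
  exact hs

theorem aut_bwd (m : ℕ) (hm : 1 ≤ m) {θ g X : ℝ} (hθ0 : 0 ≤ θ) (hθ1 : θ ≤ 1 / 2)
    (hg : 0 < g) (hX : 1 ≤ X) :
    ∃ R C0 : ℝ, ∀ (N : ℝ) (μ : Fin m → ℂ) (α : Fin m → ℕ → ℂ) (ε : ℂ) (Λ : ℂ → ℂ),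
    DatumT θ N μ α ε Λ → ∀ t y : ℝ, 0 < t → C0 ≤ cnd N μ y →
      g ≤ t * Real.log (cnd N μ y) → t * Real.log (cnd N μ y) ≤ X →
      (∀ s : ℂ, 1 / 2 < s.re → |s.im - y| ≤ R → heat t (XX N Λ) s ≠ 0) →
      ∀ s : ℂ, s.im = y → 1 / 2 + t * Real.log (cnd N μ y) + g ≤ s.re → Λ s ≠ 0 := by
  have hm' : (1 : ℝ) ≤ m := by exact_mod_cast hm
  obtain ⟨B, hB, HS⟩ := sharpX m hm hθ0 hθ1 (show (0 : ℝ) < 1 / 2 by norm_num) (by norm_num)
  have hlogB : 0 ≤ Real.log B := Real.log_nonneg hB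
  obtain ⟨R, ℓ0, HF⟩ := bwd_all (Real.log B + 20 * (6 * m)) (1 + θ + 1 / 2 - 1 / 2) (g / 2) (X + g)
    (by linarith) (by linarith) (by linarith) (by positivity) (by linarith)
  refine ⟨R, Real.exp (2 * |ℓ0| + 14 * m + 28 * m * X / g), ?_⟩
  intro N μ α ε Λ d t y ht hC h1 h2 hzf s hsy hsre hs
  obtain ⟨S, hslow, hfe, hzer, hne⟩ := HS N μ α ε Λ d
  have hL : 2 * |ℓ0| + 14 * m + 28 * m * X / g ≤ Real.log (cnd N μ y) := by
    have := Real.log_le_log (Real.exp_pos _) hC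
    rwa [Real.log_exp] at this
  have h0 : 0 ≤ 28 * m * X / g := by positivity
  have hab := le_abs_self ℓ0
  have hab0 := abs_nonneg ℓ0
  have hlo := gaD_re_ge d.one_le d.re_le y
  have hup := gaD_re_le d.one_le d.re_le y
  change 1 / 2 * Real.log (cnd N μ y) - 7 * m ≤ _ at hlo
  change _ ≤ 1 / 2 * Real.log (cnd N μ y) + 5 * m at hup
  obtain ⟨h3, h4⟩ := pass (by linarith : (0 : ℝ) < m) hg hX ht hlo hup (by linarith) h2
  have ud := ud_of_sharp S hslow (by linarith) y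
  have hsX : XX N Λ s = 0 := by
    unfold XX
    rw [hs, mul_zero]
  have hs32 := hzer s hsX
  have key := HF _ _ t _ (by linarith) ud ht (by linarith) (by linarith) (fun u hu1 hu2 => by
    rw [heat_shift']
    exact hzf (1 / 2 + (y : ℂ) * I + u) (by simp; linarith) (by simpa using hu2)) (s.re - 1 / 2)
    (by linarith) (by linarith)
  apply key
  have e : (1 / 2 + (y : ℂ) * I + ((s.re - 1 / 2 : ℝ) : ℂ) : ℂ) = s := by
    apply Complex.ext
    · simp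
    · simp [hsy]
  show XX N Λ (1 / 2 + (y : ℂ) * I + ((s.re - 1 / 2 : ℝ) : ℂ)) = 0
  rw [e]
  exact hsX

end Pool.Agent.W169.HF
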