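import Pool.Agent.W169.HF.EC
import Pool.Agent.W169.HF.Loc2

/-!
# Project HF: the local equivalence for newforms of weight two
-/

set_option autoImplicit false

open Complex UpperHalfPlane MatrixGroups CongruenceSubgroup Filter Topology Set MeasureTheory
open scoped ComplexConjugate

namespace Pool.Agent.W169.HF

open H353.E H353.F

lemma cnd_nf_le (N y : ℝ) (hN : 0 ≤ N) :
    cnd N ![(-1 / 2 : ℂ), (-3 / 2 : ℂ)] y ≤ 4 * (N * (1 + |y|) ^ 2) := by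
  unfold cnd
  rw [Fin.prod_univ_two]
  have h1 : ∀ c : ℝ, 0 ≤ c → ‖(y : ℂ) * Complex.I - (-(c : ℂ))‖ ≤ |y| + c := fun c hc => by
    refine (norm_sub_le _ _).trans ?_
    rw [norm_neg, norm_mul, Complex.norm_real, Complex.norm_real, Complex.norm_I, mul_one,
      Real.norm_eq_abs, Real.norm_eq_abs, abs_of_nonneg hc]
  have h2 := h1 (1 / 2) (by norm_num)
  have h3 := h1 (3 / 2) (by norm_num)
  have h4 := abs_nonneg y
  have e2 : (-((1 / 2 : ℝ) : ℂ)) = -1 / 2 := by push_cast; ring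
  have e3 : (-((3 / 2 : ℝ) : ℂ)) = -3 / 2 := by push_cast; ring
  rw [e2] at h2
  rw [e3] at h3
  rw [Matrix.cons_val_zero, Matrix.cons_val_one, Matrix.cons_val_zero]
  have h5 := norm_nonneg ((y : ℂ) * Complex.I - (-1 / 2 : ℂ))
  have h6 := norm_nonneg ((y : ℂ) * Complex.I - (-3 / 2 : ℂ))
  have h7 : (1 + ‖(y : ℂ) * Complex.I - (-1 / 2 : ℂ)‖) * (1 + ‖(y : ℂ) * Complex.I - (-3 / 2 : ℂ)‖) ≤
      4 * (1 + |y|) ^ 2 := by
    have h8 : (1 + ‖(y : ℂ) * Complex.I - (-1 / 2 : ℂ)‖) ≤ 3 / 2 * (1 + |y|) := by linarith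
    have h9 : (1 + ‖(y : ℂ) * Complex.I - (-3 / 2 : ℂ)‖) ≤ 5 / 2 * (1 + |y|) := by linarith
    calc _ ≤ (3 / 2 * (1 + |y|)) * (5 / 2 * (1 + |y|)) :=
          mul_le_mul h8 h9 (by linarith) (by linarith)
      _ ≤ _ := by nlinarith
  calc N * _ ≤ N * (4 * (1 + |y|) ^ 2) := mul_le_mul_of_nonneg_left h7 hN
    _ = _ := by ring

/-- logarithms of the two conductors -/
lemma log_cnd {N y : ℝ} (hN : 1 ≤ N) : 0 ≤ Real.log (N * (1 + |y|) ^ 2) ∧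
    Real.log (N * (1 + |y|) ^ 2) ≤ Real.log (cnd N ![(-1 / 2 : ℂ), (-3 / 2 : ℂ)] y) ∧
    Real.log (cnd N ![(-1 / 2 : ℂ), (-3 / 2 : ℂ)] y) ≤ Real.log (N * (1 + |y|) ^ 2) + 2 := by
  have h4 := abs_nonneg y
  have h1 : 1 ≤ (1 + |y|) ^ 2 := by nlinarith
  have h2 : 1 ≤ N * (1 + |y|) ^ 2 := by nlinarith
  have h3 := cnd_nf N y (by linarith)
  have h5 := cnd_nf_le N y (by linarith)
  refine ⟨Real.log_nonneg h2, Real.log_le_log (by linarith) h3, ?_⟩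
  have h6 := Real.log_le_log (by linarith) h5
  rw [Real.log_mul (by norm_num) (by linarith)] at h6
  have h7 : Real.log 4 ≤ 2 := by
    have h8 : Real.log 4 = 2 * Real.log 2 := by
      rw [show (4 : ℝ) = 2 ^ 2 by norm_num, Real.log_pow]; norm_num
    have := Real.log_two_lt_d9
    rw [h8]
    linarith
  linarith

lemma nf_datum {N : ℕ} [NeZero N] {f : CuspForm (Gamma0 N : Subgroup (GL (Fin 2) ℝ)) 2} {w : ℝ}
    (hf : IsForm N f w) {Λ : ℂ → ℂ} (hΛ : IsCompleted f Λ) :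
    ∃ α : Fin 2 → ℕ → ℂ, DatumT (0 : ℝ) (N : ℝ) ![(-1 / 2 : ℂ), (-3 / 2 : ℂ)] α (w : ℂ)
      (fun s : ℂ => 2 * (N : ℂ) ^ (-((s + 1 / 2) / 2)) * Λ (s + 1 / 2)) := by
  obtain ⟨Λ', hΛ', hfe, hcj, hb⟩ := Pool.Agent.W174.HF.nf1 N f w hf
  have heq : Λ' = Λ := completed_unique hΛ' hΛ
  rw [heq] at hfe hcj hb
  exact nf3_all N f w hf Λ hΛ hfe hcj hb

lemma std_zero {N : ℕ} (hN : 0 < N) (Λ : ℂ → ℂ) (s : ℂ) :
    (fun s : ℂ => 2 * (N : ℂ) ^ (-((s + 1 / 2) / 2)) * Λ (s + 1 / 2)) s = 0 ↔ Λ (s + 1 / 2) = 0 := by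
  have hNc : (N : ℂ) ≠ 0 := by exact_mod_cast hN.ne'
  have hc : (2 * (N : ℂ) ^ (-((s + 1 / 2) / 2))) ≠ 0 := by
    refine mul_ne_zero two_ne_zero ?_
    rw [Ne, Complex.cpow_eq_zero_iff]
    exact fun h => hNc h.1
  show 2 * (N : ℂ) ^ (-((s + 1 / 2) / 2)) * Λ (s + 1 / 2) = 0 ↔ _
  constructor
  · intro h
    exact (mul_eq_zero.1 h).resolve_left hc
  · intro h
    rw [h, mul_zero]

theorem nf_fwd {ϑ g X : ℝ} (hϑ0 : 0 ≤ ϑ) (hϑ1 : ϑ ≤ 1) (hg : 0 < g) (hX : 1 ≤ X) :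
    ∃ R C0 : ℝ, ∀ (N : ℕ) [NeZero N] (f : CuspForm (Gamma0 N : Subgroup (GL (Fin 2) ℝ)) 2) (w : ℝ),
      IsForm N f w → ∀ Λ : ℂ → ℂ, IsCompleted f Λ → ∀ t y : ℝ, 0 < t → C0 ≤ N * (1 + |y|) ^ 2 →
      2 * ϑ + g ≤ t * Real.log (N * (1 + |y|) ^ 2) → t * Real.log (N * (1 + |y|) ^ 2) ≤ X →
      (∀ s : ℂ, 1 + ϑ < s.re → |s.im - y| ≤ R → Λ s ≠ 0) →
      ∀ s : ℂ, s.im = y → heat t Λ s = 0 → s.re = 1 := by
  obtain ⟨R, C0, H⟩ := aut_fwd 2 (by norm_num) (θ := 0) le_rfl (by norm_num) hϑ0 hϑ1 hg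
    (show 1 ≤ X + 1 by linarith)
  refine ⟨R, max C0 (Real.exp (2 * X)), ?_⟩
  intro N _ f w hf Λ hΛ t y ht hC h1 h2 hzf s hsy hs
  have hN : 0 < N := Nat.pos_of_ne_zero (NeZero.ne N)
  have hN1 : (1 : ℝ) ≤ N := by exact_mod_cast hN
  obtain ⟨α, d⟩ := nf_datum hf hΛ
  obtain ⟨l0, l1, l2⟩ := log_cnd (y := y) hN1
  have h3 : 2 * X ≤ Real.log (N * (1 + |y|) ^ 2) := by
    have := Real.log_le_log (Real.exp_pos _) ((le_max_right C0 _).trans hC)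
    rwa [Real.log_exp] at this
  have h4 : t ≤ 1 / 2 := by
    by_contra hcon
    push Not at hcon
    nlinarith
  have h5 := mul_le_mul_of_nonneg_left l1 ht.le
  have h6 := mul_le_mul_of_nonneg_left l2 ht.le
  have h7 := H N _ α w _ d t y ht (((le_max_left _ _).trans hC).trans (cnd_nf _ y (by linarith)))
    (by linarith) (by linarith) (fun s hs1 hs2 => by
      rw [Ne, std_zero hN]
      exact hzf (s + 1 / 2) (by simp; linarith) (by simpa using hs2)) (s - 1 / 2) (by simpa using hsy)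
    ((heat_nf hN Λ t _).2 (by rw [sub_add_cancel]; exact hs))
  have h8 : (s - 1 / 2 : ℂ).re = s.re - 1 / 2 := by simp
  rw [h8] at h7
  linarith

theorem nf_bwd {g X : ℝ} (hg : 0 < g) (hX : 1 ≤ X) :
    ∃ R C0 : ℝ, ∀ (N : ℕ) [NeZero N] (f : CuspForm (Gamma0 N : Subgroup (GL (Fin 2) ℝ)) 2) (w : ℝ),
      IsForm N f w → ∀ Λ : ℂ → ℂ, IsCompleted f Λ → ∀ t y : ℝ, 0 < t → C0 ≤ N * (1 + |y|) ^ 2 →
      g ≤ t * Real.log (N * (1 + |y|) ^ 2) → t * Real.log (N * (1 + |y|) ^ 2) ≤ X →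
      (∀ s : ℂ, 1 < s.re → |s.im - y| ≤ R → heat t Λ s ≠ 0) →
      ∀ s : ℂ, s.im = y → 1 + t * Real.log (N * (1 + |y|) ^ 2) + g ≤ s.re → Λ s ≠ 0 := by
  obtain ⟨R, C0, H⟩ := aut_bwd 2 (by norm_num) (θ := 0) (g := g / 2) le_rfl (by norm_num) (by positivity)
    (show 1 ≤ X + 1 by linarith)
  refine ⟨R, max C0 (Real.exp (4 * X / g + 2 * X)), ?_⟩
  intro N _ f w hf Λ hΛ t y ht hC h1 h2 hzf s hsy hsre hs
  have hN : 0 < N := Nat.pos_of_ne_zero (NeZero.ne N)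
  have hN1 : (1 : ℝ) ≤ N := by exact_mod_cast hN
  obtain ⟨α, d⟩ := nf_datum hf hΛ
  obtain ⟨l0, l1, l2⟩ := log_cnd (y := y) hN1
  have h3 : 4 * X / g + 2 * X ≤ Real.log (N * (1 + |y|) ^ 2) := by
    have := Real.log_le_log (Real.exp_pos _) ((le_max_right C0 _).trans hC)
    rwa [Real.log_exp] at this
  have h3a : 0 ≤ 4 * X / g := by positivity
  have h4 : t ≤ 1 / 2 := by
    by_contra hcon
    push Not at hcon
    nlinarith
  have h4b : 2 * t ≤ g / 2 := by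
    have h5 : t * (4 * X / g) ≤ X :=
      (mul_le_mul_of_nonneg_left (by linarith) ht.le).trans h2
    rw [show t * (4 * X / g) = 4 * t / g * X by ring] at h5
    have h6 : 4 * t / g ≤ 1 := by
      by_contra hcon
      push Not at hcon
      nlinarith
    rw [div_le_one hg] at h6
    linarith
  have h5 := mul_le_mul_of_nonneg_left l1 ht.le
  have h6 := mul_le_mul_of_nonneg_left l2 ht.le
  have h8 : (s - 1 / 2 : ℂ).re = s.re - 1 / 2 := by simp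
  have h7 := H N _ α w _ d t y ht (((le_max_left _ _).trans hC).trans (cnd_nf _ y (by linarith)))
    (by linarith) (by linarith) (fun s hs1 hs2 => by
      rw [Ne, heat_nf hN]
      exact hzf (s + 1 / 2) (by simp; linarith) (by simpa using hs2)) (s - 1 / 2) (by simpa using hsy)
    (by rw [h8]; linarith)
  rw [Ne, std_zero hN, sub_add_cancel] at h7
  exact h7 hs

theorem nf_mono {N : ℕ} [NeZero N] {f : CuspForm (Gamma0 N : Subgroup (GL (Fin 2) ℝ)) 2} {w : ℝ}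
    (hf : IsForm N f w) {Λ : ℂ → ℂ} (hΛ : IsCompleted f Λ) {t0 t : ℝ} (h0 : 0 ≤ t0) (h1 : t0 ≤ t)
    (hz : ∀ s : ℂ, heat t0 Λ s = 0 → s.re = 1) (s : ℂ) (hs : heat t Λ s = 0) : s.re = 1 := by
  have hN : 0 < N := Nat.pos_of_ne_zero (NeZero.ne N)
  obtain ⟨α, d⟩ := nf_datum hf hΛ
  obtain ⟨B, hB, HS⟩ := sharpX 2 (by norm_num) (θ := 0) le_rfl (by norm_num)
    (show (0 : ℝ) < 1 by norm_num) le_rfl
  obtain ⟨-, hslow, hfe', -, hne⟩ := HS N _ α w _ d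
  have key := mono_all _ hslow ⟨(w : ℂ), d.norm_eq, hfe'⟩ hne t0 t h0 h1 (fun z hz0 => by
    have h2 := hz _ ((heat_nf hN Λ t0 z).1 hz0)
    have h3 : (z + 1 / 2 : ℂ).re = z.re + 1 / 2 := by simp
    rw [h3] at h2
    linarith) (s - 1 / 2) ((heat_nf hN Λ t _).2 (by rw [sub_add_cancel]; exact hs))
  have h7 : (s - 1 / 2 : ℂ).re = s.re - 1 / 2 := by simp
  rw [h7] at key
  linarith

end Pool.Agent.W169.HF
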