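import Pool.Agent.W169.HF.EC2

/-!
# Project HF: families of newforms of weight two
-/

set_option autoImplicit false

open Complex UpperHalfPlane MatrixGroups CongruenceSubgroup Filter Topology Set MeasureTheory
open scoped ComplexConjugate

namespace Pool.Agent.W169.HF

/-- zero-free half-planes for large analytic conductor -/
def FA (Pr : (N : ℕ) → CuspForm (Gamma0 N : Subgroup (GL (Fin 2) ℝ)) 2 → Prop) (ϑ : ℝ) : Prop :=
  ∀ ε : ℝ, 0 < ε → ∃ C0 : ℝ, ∀ (N : ℕ) [NeZero N]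
    (f : CuspForm (Gamma0 N : Subgroup (GL (Fin 2) ℝ)) 2) (w : ℝ), Pr N f → IsForm N f w →
    ∀ Λ : ℂ → ℂ, IsCompleted f Λ → ∀ s : ℂ, C0 ≤ N * (1 + |s.im|) ^ 2 → 1 + ϑ + ε ≤ s.re → Λ s ≠ 0

/-- zeros of the heat flow on the line for large analytic conductor -/
def FH (Pr : (N : ℕ) → CuspForm (Gamma0 N : Subgroup (GL (Fin 2) ℝ)) 2 → Prop) (κ : ℝ) : Prop :=
  ∀ ε X : ℝ, 0 < ε → ∃ C0 : ℝ, ∀ (N : ℕ) [NeZero N]
    (f : CuspForm (Gamma0 N : Subgroup (GL (Fin 2) ℝ)) 2) (w : ℝ), Pr N f → IsForm N f w →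
    ∀ Λ : ℂ → ℂ, IsCompleted f Λ → ∀ (t : ℝ) (s : ℂ), 0 < t → C0 ≤ N * (1 + |s.im|) ^ 2 →
      κ + ε ≤ t * Real.log (N * (1 + |s.im|) ^ 2) → t * Real.log (N * (1 + |s.im|) ^ 2) ≤ X →
      heat t Λ s = 0 → s.re = 1

/-- the de Bruijn-Newman constants are at most `(κ + o(1)) / log N` -/
def FD (Pr : (N : ℕ) → CuspForm (Gamma0 N : Subgroup (GL (Fin 2) ℝ)) 2 → Prop) (κ : ℝ) : Prop :=
  ∀ η : ℝ, 0 < η → ∃ N0 : ℝ, ∀ (N : ℕ) [NeZero N]
    (f : CuspForm (Gamma0 N : Subgroup (GL (Fin 2) ℝ)) 2) (w : ℝ), Pr N f → IsForm N f w →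
    ∀ Λ : ℂ → ℂ, IsCompleted f Λ → N0 ≤ N → ∀ t : ℝ, (κ + η) / Real.log N ≤ t →
      ∀ s : ℂ, heat t Λ s = 0 → s.re = 1

/-- zero-free half-planes at bounded height for large level -/
def FL (Pr : (N : ℕ) → CuspForm (Gamma0 N : Subgroup (GL (Fin 2) ℝ)) 2 → Prop) (κ : ℝ) : Prop :=
  ∀ ε T : ℝ, 0 < ε → ∃ N0 : ℝ, ∀ (N : ℕ) [NeZero N]
    (f : CuspForm (Gamma0 N : Subgroup (GL (Fin 2) ℝ)) 2) (w : ℝ), Pr N f → IsForm N f w →
    ∀ Λ : ℂ → ℂ, IsCompleted f Λ → N0 ≤ N → ∀ s : ℂ, |s.im| ≤ T → 1 + κ + ε ≤ s.re → Λ s ≠ 0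

variable {Pr : (N : ℕ) → CuspForm (Gamma0 N : Subgroup (GL (Fin 2) ℝ)) 2 → Prop}

lemma cond_shift {N y y' R : ℝ} (hN : 0 ≤ N) (h : |y' - y| ≤ R) :
    N * (1 + |y|) ^ 2 ≤ (N * (1 + |y'|) ^ 2) * (1 + R) ^ 2 := by
  have hR : 0 ≤ R := (abs_nonneg _).trans h
  have h1 : |y| ≤ |y'| + R := by
    have h2 := abs_sub_abs_le_abs_sub y y'
    rw [abs_sub_comm] at h2
    linarith
  have h3 := abs_nonneg y
  have h4 := abs_nonneg y'
  have h5 : 1 + |y| ≤ (1 + |y'|) * (1 + R) := by nlinarith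
  have h6 : (1 + |y|) ^ 2 ≤ ((1 + |y'|) * (1 + R)) ^ 2 := pow_le_pow_left₀ (by linarith) h5 2
  calc N * (1 + |y|) ^ 2 ≤ N * ((1 + |y'|) * (1 + R)) ^ 2 := mul_le_mul_of_nonneg_left h6 hN
    _ = _ := by ring

lemma one_le_cond {N : ℕ} [NeZero N] (y : ℝ) : (1 : ℝ) ≤ N * (1 + |y|) ^ 2 := by
  have hN : 0 < N := Nat.pos_of_ne_zero (NeZero.ne N)
  have hN1 : (1 : ℝ) ≤ N := by exact_mod_cast hN
  have h4 := abs_nonneg y
  nlinarith [sq_nonneg |y|]

lemma lt_log {a C : ℝ} (h : Real.exp a ≤ C) : a ≤ Real.log C := by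
  have := Real.log_le_log (Real.exp_pos _) h
  rwa [Real.log_exp] at this

lemma log_mul_sq {A B : ℝ} (hA : 0 < A) (hB : 0 < B) : Real.log (A * B ^ 2) = Real.log A + 2 * Real.log B := by
  rw [Real.log_mul hA.ne' (by positivity), Real.log_pow]
  norm_num

lemma log_shift {N : ℕ} [NeZero N] {y y' R : ℝ} (h : |y' - y| ≤ |R|) :
    Real.log (N * (1 + |y|) ^ 2) ≤ Real.log (N * (1 + |y'|) ^ 2) + 2 * Real.log (1 + |R|) := by
  have hp := one_le_cond (N := N) y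
  have hp' := one_le_cond (N := N) y'
  have h3 := cond_shift (N := (N : ℝ)) (Nat.cast_nonneg N) h
  rw [← log_mul_sq (by linarith) (by positivity)]
  exact Real.log_le_log (by linarith) h3

theorem fh_one : FH Pr 1 := by
  intro ε X hε
  obtain ⟨t1, C0, ht1, H⟩ := nf_local hε
  refine ⟨max C0 (Real.exp (|X| / t1 + 1)), ?_⟩
  intro N _ f w _ hf Λ hΛ t s ht hC h1 h2 hs
  have h3 := lt_log ((le_max_right C0 _).trans hC)
  refine H N f w hf Λ hΛ t s ht ?_ ((le_max_left _ _).trans hC) h1 hs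
  by_contra hcon
  push Not at hcon
  have h4 : 0 ≤ |X| / t1 := by positivity
  have h5 : t1 * (|X| / t1 + 1) < t * (|X| / t1 + 1) := mul_lt_mul_of_pos_right hcon (by linarith)
  have h6 : t * (|X| / t1 + 1) ≤ t * Real.log (N * (1 + |s.im|) ^ 2) := mul_le_mul_of_nonneg_left h3 ht.le
  have h7 : t1 * (|X| / t1 + 1) = |X| + t1 := by field_simp
  have h8 := le_abs_self X
  linarith

theorem fa_fh {ϑ : ℝ} (hϑ : 0 ≤ ϑ) (hA : FA Pr ϑ) : FH Pr (2 * ϑ) := by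
  rcases le_or_gt (1 / 2) ϑ with hϑ2 | hϑ2
  · intro ε X hε
    obtain ⟨C0, H⟩ := fh_one (Pr := Pr) ε X hε
    refine ⟨C0, fun N _ f w hP hf Λ hΛ t s ht hC h1 h2 hs => ?_⟩
    exact H N f w hP hf Λ hΛ t s ht hC (by linarith) h2 hs
  intro ε X hε
  obtain ⟨ε', hε'd⟩ : ∃ ε' : ℝ, ε' = min ε 1 := ⟨_, rfl⟩
  have hε' : 0 < ε' := by rw [hε'd]; exact lt_min hε one_pos
  have hε'1 : ε' ≤ 1 := by rw [hε'd]; exact min_le_right _ _
  have hε'2 : ε' ≤ ε := by rw [hε'd]; exact min_le_left _ _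
  obtain ⟨R, C0, HF⟩ := nf_fwd (ϑ := ϑ + ε' / 4) (g := ε' / 2) (X := max X 1) (by linarith) (by linarith)
    (by positivity) (le_max_right _ _)
  obtain ⟨C1, HA⟩ := hA (ε' / 4) (by positivity)
  refine ⟨max C0 (|C1| * (1 + |R|) ^ 2), ?_⟩
  intro N _ f w hP hf Λ hΛ t s ht hC h1 h2 hs
  have hN : 0 < N := Nat.pos_of_ne_zero (NeZero.ne N)
  refine HF N f w hf Λ hΛ t s.im ht ((le_max_left _ _).trans hC) (by linarith)
    (h2.trans (le_max_left _ _)) (fun z hz1 hz2 => ?_) s rfl hs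
  refine HA N f w hP hf Λ hΛ z ?_ (by linarith)
  have h3 := cond_shift (N := (N : ℝ)) (by positivity) (hz2.trans (le_abs_self R))
  have h4 := (le_max_right C0 _).trans (hC.trans h3)
  have h5 : 0 < (1 + |R|) ^ 2 := by positivity
  exact (le_abs_self C1).trans (le_of_mul_le_mul_right h4 h5)

theorem fh_fa {κ : ℝ} (hκ : 0 ≤ κ) (hH : FH Pr κ) : FA Pr κ := by
  intro ε hε
  obtain ⟨X, hX⟩ : ∃ X : ℝ, X = κ + ε + 1 := ⟨_, rfl⟩
  have hX1 : 1 ≤ X := by linarith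
  obtain ⟨R, C0, HB⟩ := nf_bwd (g := ε / 2) (X := X) (by positivity) hX1
  obtain ⟨C1, HH⟩ := hH (ε / 4) X (by positivity)
  obtain ⟨r, hr⟩ : ∃ r : ℝ, r = Real.log (1 + |R|) := ⟨_, rfl⟩
  have hr0 : 0 ≤ r := by rw [hr]; exact Real.log_nonneg (by linarith [abs_nonneg R])
  refine ⟨max (max C0 (|C1| * (1 + |R|) ^ 2)) (Real.exp (8 * X * r / ε + 1)), ?_⟩
  intro N _ f w hP hf Λ hΛ s hC hre
  have hN : 0 < N := Nat.pos_of_ne_zero (NeZero.ne N)
  have hCa : C0 ≤ N * (1 + |s.im|) ^ 2 := (le_max_left _ _).trans ((le_max_left _ _).trans hC)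
  have hCb : |C1| * (1 + |R|) ^ 2 ≤ N * (1 + |s.im|) ^ 2 :=
    (le_max_right _ _).trans ((le_max_left _ _).trans hC)
  have hL := lt_log ((le_max_right _ _).trans hC)
  obtain ⟨L, hLd⟩ : ∃ L : ℝ, L = Real.log (N * (1 + |s.im|) ^ 2) := ⟨_, rfl⟩
  rw [← hLd] at hL
  have h8 : 0 ≤ 8 * X * r / ε := by positivity
  have hL0 : 0 < L := by linarith
  obtain ⟨t, htd⟩ : ∃ t : ℝ, t = (κ + ε / 2) / L := ⟨_, rfl⟩
  have ht : 0 < t := by rw [htd]; positivity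
  have htL : t * L = κ + ε / 2 := by rw [htd]; field_simp
  have htr : 2 * t * r ≤ ε / 4 := by
    have h9 : t * (8 * X * r / ε) ≤ X := by
      have : t * (8 * X * r / ε) ≤ t * L := mul_le_mul_of_nonneg_left (by linarith) ht.le
      linarith
    rw [show t * (8 * X * r / ε) = 8 * t * r / ε * X by ring] at h9
    have h10 : 8 * t * r / ε ≤ 1 := by
      by_contra hcon
      push Not at hcon
      nlinarith
    rw [div_le_one hε] at h10
    linarith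
  have key := HB N f w hf Λ hΛ t s.im ht hCa (by rw [← hLd, htL]; linarith) (by rw [← hLd, htL]; linarith)
    (fun z hz1 hz2 hz => ?_) s rfl (by rw [← hLd, htL]; linarith)
  · exact key
  have hz2' : |z.im - s.im| ≤ |R| := hz2.trans (le_abs_self R)
  have h3 := cond_shift (N := (N : ℝ)) (Nat.cast_nonneg N) hz2'
  have h5 : 0 < (1 + |R|) ^ 2 := by positivity
  have h6 := log_shift (N := N) hz2'
  rw [abs_sub_comm] at hz2'
  have h7 := log_shift (N := N) hz2'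
  rw [← hr] at h6 h7
  rw [← hLd] at h6 h7
  have h6' := mul_le_mul_of_nonneg_left h6 ht.le
  have h7' := mul_le_mul_of_nonneg_left h7 ht.le
  have h9 := HH N f w hP hf Λ hΛ t z ht ((le_abs_self C1).trans
    (le_of_mul_le_mul_right (hCb.trans h3) h5)) (by linarith) (by linarith) hz
  linarith

theorem fh_fd {κ : ℝ} (hκ : 0 ≤ κ) (hH : FH Pr κ) : FD Pr κ := by
  intro η hη
  obtain ⟨t1, C1, ht1, HL⟩ := nf_local (η := 1) one_pos
  obtain ⟨C0, HH⟩ := hH η 2 hη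
  refine ⟨max (max C0 C1) (Real.exp ((κ + η) / t1 + 1)), ?_⟩
  intro N _ f w hP hf Λ hΛ hNN t ht s hs
  have hN : 0 < N := Nat.pos_of_ne_zero (NeZero.ne N)
  have hN1 : (1 : ℝ) ≤ N := by exact_mod_cast hN
  have hL := lt_log ((le_max_right _ _).trans hNN)
  have h0 : 0 ≤ (κ + η) / t1 := by positivity
  have hL0 : 0 < Real.log N := by linarith
  obtain ⟨t0, ht0d⟩ : ∃ t0 : ℝ, t0 = (κ + η) / Real.log N := ⟨_, rfl⟩
  have ht0 : 0 < t0 := by rw [ht0d]; positivity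
  have ht0L : t0 * Real.log N = κ + η := by rw [ht0d]; field_simp
  have ht01 : t0 ≤ t1 := by
    rw [ht0d, div_le_iff₀ hL0]
    have h1 : t1 * ((κ + η) / t1 + 1) ≤ t1 * Real.log N := mul_le_mul_of_nonneg_left hL ht1.le
    have h2 : t1 * ((κ + η) / t1 + 1) = κ + η + t1 := by field_simp
    linarith
  refine nf_mono hf hΛ ht0.le (by rw [ht0d]; exact ht) (fun z hz => ?_) s hs
  have h3 : (N : ℝ) ≤ N * (1 + |z.im|) ^ 2 := by
    have := abs_nonneg z.im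
    have : 1 ≤ (1 + |z.im|) ^ 2 := by nlinarith
    nlinarith
  have h4 : Real.log N ≤ Real.log (N * (1 + |z.im|) ^ 2) := Real.log_le_log (by linarith) h3
  have h5 := mul_le_mul_of_nonneg_left h4 ht0.le
  rcases le_total (t0 * Real.log (N * (1 + |z.im|) ^ 2)) 2 with h6 | h6
  · exact HH N f w hP hf Λ hΛ t0 z ht0 (((le_max_left _ _).trans ((le_max_left _ _).trans hNN)).trans h3)
      (by linarith) h6 hz
  · exact HL N f w hf Λ hΛ t0 z ht0 ht01
      (((le_max_right _ _).trans ((le_max_left _ _).trans hNN)).trans h3) (by linarith) hz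

theorem fd_fl {κ : ℝ} (hκ : 0 ≤ κ) (hD : FD Pr κ) : FL Pr κ := by
  intro ε T hε
  obtain ⟨X, hX⟩ : ∃ X : ℝ, X = κ + ε + 1 := ⟨_, rfl⟩
  have hX1 : 1 ≤ X := by linarith
  obtain ⟨R, C0, HB⟩ := nf_bwd (g := ε / 4) (X := X) (by positivity) hX1
  obtain ⟨N1, HD⟩ := hD (ε / 4) (by positivity)
  obtain ⟨r, hr⟩ : ∃ r : ℝ, r = Real.log (1 + |T|) := ⟨_, rfl⟩
  have hr0 : 0 ≤ r := by rw [hr]; exact Real.log_nonneg (by linarith [abs_nonneg T])
  refine ⟨max (max C0 N1) (Real.exp (8 * X * r / ε + 1)), ?_⟩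
  intro N _ f w hP hf Λ hΛ hNN s hsT hre
  have hN : 0 < N := Nat.pos_of_ne_zero (NeZero.ne N)
  have hN1 : (1 : ℝ) ≤ N := by exact_mod_cast hN
  have hL := lt_log ((le_max_right _ _).trans hNN)
  have h8 : 0 ≤ 8 * X * r / ε := by positivity
  have hL0 : 0 < Real.log N := by linarith
  obtain ⟨t, htd⟩ : ∃ t : ℝ, t = (κ + ε / 4) / Real.log N := ⟨_, rfl⟩
  have ht : 0 < t := by rw [htd]; positivity
  have htL : t * Real.log N = κ + ε / 4 := by rw [htd]; field_simp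
  have h3 : (N : ℝ) ≤ N * (1 + |s.im|) ^ 2 := by
    have := abs_nonneg s.im
    have : 1 ≤ (1 + |s.im|) ^ 2 := by nlinarith
    nlinarith
  have h4 : Real.log N ≤ Real.log (N * (1 + |s.im|) ^ 2) := Real.log_le_log (by linarith) h3
  have h5 : Real.log (N * (1 + |s.im|) ^ 2) ≤ Real.log N + 2 * r := by
    have hT : |s.im| ≤ |T| := hsT.trans (le_abs_self T)
    have h6 : (N : ℝ) * (1 + |s.im|) ^ 2 ≤ N * (1 + |T|) ^ 2 := by
      have := abs_nonneg s.im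
      gcongr
    have := Real.log_le_log (by linarith) h6
    rw [log_mul_sq (A := (N : ℝ)) (B := 1 + |T|) (by linarith) (by positivity), ← hr] at this
    exact this
  have htr : 2 * t * r ≤ ε / 4 := by
    have h9 : t * (8 * X * r / ε) ≤ X := by
      have : t * (8 * X * r / ε) ≤ t * Real.log N := mul_le_mul_of_nonneg_left (by linarith) ht.le
      linarith
    rw [show t * (8 * X * r / ε) = 8 * t * r / ε * X by ring] at h9
    have h10 : 8 * t * r / ε ≤ 1 := by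
      by_contra hcon
      push Not at hcon
      nlinarith
    rw [div_le_one hε] at h10
    linarith
  have h4' := mul_le_mul_of_nonneg_left h4 ht.le
  have h5' := mul_le_mul_of_nonneg_left h5 ht.le
  refine HB N f w hf Λ hΛ t s.im ht (((le_max_left _ _).trans ((le_max_left _ _).trans hNN)).trans h3)
    (by linarith) (by linarith) (fun z hz1 hz2 hz => ?_) s rfl (by linarith)
  have h9 := HD N f w hP hf Λ hΛ ((le_max_right _ _).trans ((le_max_left _ _).trans hNN)) t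
    (by rw [htd]) z hz
  linarith

end Pool.Agent.W169.HF
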