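import Pool.Agent.W169.HF.Loc3
import Pool.Agent.W169.HF.Fam

/-!
# Project SC: classes of standard L-functions
-/

set_option autoImplicit false

open Complex Set MeasureTheory intervalIntegral Filter Topology
open scoped ComplexConjugate NNReal ENNReal

namespace Pool.Agent.W169.HF

open H353.E H353.F

/-- a class of analytic data -/
abbrev Cls (m : ℕ) : Type := ℝ → (Fin m → ℂ) → (Fin m → ℕ → ℂ) → ℂ → (ℂ → ℂ) → Prop

/-- standard data -/
def Std {m : ℕ} (N : ℝ) (μ : Fin m → ℂ) (α : Fin m → ℕ → ℂ) (e : ℂ) (Λ : ℂ → ℂ) : Prop :=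
  DatumT (1 / 2) N μ α e Λ ∧ ∀ s : ℂ, 1 < s.re → Λ s ≠ 0

/-- size exponent `a` -/
def SE {m : ℕ} (P : Cls m) (a : ℝ) : Prop := ∀ ε : ℝ, 0 < ε → ∃ B : ℝ,
  ∀ (N : ℝ) (μ : Fin m → ℂ) (α : Fin m → ℕ → ℂ) (e : ℂ) (Λ : ℂ → ℂ), P N μ α e Λ → Std N μ α e Λ →
  ∀ y : ℝ, ‖LL μ Λ (1 / 2 + (y : ℂ) * I)‖ ≤ Real.exp (B + (a + ε) * Real.log (cnd N μ y))

/-- threshold `κ` for the zeros of the heat flow -/
def SH {m : ℕ} (P : Cls m) (κ : ℝ) : Prop := ∀ ε X : ℝ, 0 < ε → ∃ C0 : ℝ,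
  ∀ (N : ℝ) (μ : Fin m → ℂ) (α : Fin m → ℕ → ℂ) (e : ℂ) (Λ : ℂ → ℂ), P N μ α e Λ → Std N μ α e Λ →
  ∀ (t : ℝ) (s : ℂ), 0 < t → C0 ≤ cnd N μ s.im → κ + ε ≤ t * Real.log (cnd N μ s.im) →
    t * Real.log (cnd N μ s.im) ≤ X → heat t (XX N Λ) s = 0 → s.re = 1 / 2

/-- de Bruijn-Newman constants at most `(κ + o(1)) / log Q` -/
def SN {m : ℕ} (P : Cls m) (κ : ℝ) : Prop := ∀ η : ℝ, 0 < η → ∃ Q0 : ℝ, 1 < Q0 ∧
  ∀ (N : ℝ) (μ : Fin m → ℂ) (α : Fin m → ℕ → ℂ) (e : ℂ) (Λ : ℂ → ℂ), P N μ α e Λ → Std N μ α e Λ →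
  ∀ Q : ℝ, Q0 ≤ Q → (∀ y : ℝ, Q ≤ cnd N μ y) → ∀ t : ℝ, (κ + η) / Real.log Q ≤ t →
    ∀ s : ℂ, heat t (XX N Λ) s = 0 → s.re = 1 / 2

/-- the same in the level aspect -/
def SNq {m : ℕ} (P : Cls m) (κ : ℝ) : Prop := ∀ η : ℝ, 0 < η → ∃ N0 : ℝ,
  ∀ (N : ℝ) (μ : Fin m → ℂ) (α : Fin m → ℕ → ℂ) (e : ℂ) (Λ : ℂ → ℂ), P N μ α e Λ → Std N μ α e Λ →
  N0 ≤ N → ∀ t : ℝ, (κ + η) / Real.log N ≤ t → ∀ s : ℂ, heat t (XX N Λ) s = 0 → s.re = 1 / 2

/-- size exponent in the level aspect -/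
def SL {m : ℕ} (P : Cls m) (a : ℝ) : Prop := ∀ ε T : ℝ, 0 < ε → ∃ B : ℝ,
  ∀ (N : ℝ) (μ : Fin m → ℂ) (α : Fin m → ℕ → ℂ) (e : ℂ) (Λ : ℂ → ℂ), P N μ α e Λ → Std N μ α e Λ →
  (∀ j, ‖μ j‖ ≤ T) → ∀ y : ℝ, |y| ≤ T →
    ‖LL μ Λ (1 / 2 + (y : ℂ) * I)‖ ≤ Real.exp (B + (a + ε) * Real.log N)

variable {m : ℕ} {P : Cls m}

lemma cndm_shift {N : ℝ} (hN : 0 ≤ N) (μ : Fin m → ℂ) {y y' R : ℝ} (h : |y' - y| ≤ R) :
    cnd N μ y ≤ cnd N μ y' * (1 + R) ^ m := by
  have hR : 0 ≤ R := (abs_nonneg _).trans h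
  have h1 : ∀ j, 1 + ‖(y : ℂ) * I - μ j‖ ≤ (1 + ‖(y' : ℂ) * I - μ j‖) * (1 + R) := fun j => by
    have e : (y : ℂ) * I - μ j = ((y' : ℂ) * I - μ j) - ((y' - y : ℝ) : ℂ) * I := by push_cast; ring
    have h2 : ‖(y : ℂ) * I - μ j‖ ≤ ‖(y' : ℂ) * I - μ j‖ + R := by
      rw [e]
      refine (norm_sub_le _ _).trans ?_
      rw [norm_mul, Complex.norm_real, Complex.norm_I, Real.norm_eq_abs, mul_one]
      linarith
    have h3 := norm_nonneg ((y' : ℂ) * I - μ j)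
    nlinarith
  have h2 : ∏ j, (1 + ‖(y : ℂ) * I - μ j‖) ≤ ∏ j, ((1 + ‖(y' : ℂ) * I - μ j‖) * (1 + R)) :=
    Finset.prod_le_prod (fun j _ => by positivity) fun j _ => h1 j
  rw [Finset.prod_mul_distrib, Finset.prod_const, Finset.card_univ, Fintype.card_fin] at h2
  unfold cnd
  calc _ ≤ N * ((∏ j, (1 + ‖(y' : ℂ) * I - μ j‖)) * (1 + R) ^ m) := mul_le_mul_of_nonneg_left h2 hN
    _ = _ := by ring

lemma cnd_pos {N : ℝ} (hN : 1 ≤ N) (μ : Fin m → ℂ) (y : ℝ) : 1 ≤ cnd N μ y := hN.trans (le_cnd hN μ y)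

lemma logm_shift {N : ℝ} (hN : 1 ≤ N) (μ : Fin m → ℂ) {y y' R : ℝ} (h : |y' - y| ≤ |R|) :
    Real.log (cnd N μ y) ≤ Real.log (cnd N μ y') + m * Real.log (1 + |R|) := by
  have hp := cnd_pos hN μ y
  have hp' := cnd_pos hN μ y'
  have h3 := cndm_shift (N := N) (by linarith) μ h
  have h4 : Real.log (cnd N μ y' * (1 + |R|) ^ m) = Real.log (cnd N μ y') + m * Real.log (1 + |R|) := by
    rw [Real.log_mul (by linarith) (by positivity), Real.log_pow]
  rw [← h4]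
  exact Real.log_le_log (by linarith) h3

theorem sh_one (hm : 1 ≤ m) : SH P 1 := by
  intro ε X hε
  obtain ⟨R, C0, H⟩ := aut_fwd m hm (θ := 1 / 2) (ϑ := 1 / 2) (g := ε) (X := max X 1) (by norm_num) le_rfl
    (by norm_num) (by norm_num) hε (le_max_right _ _)
  refine ⟨C0, fun N μ α e Λ _ hS t s ht hC h1 h2 hs => ?_⟩
  exact H N μ α e Λ hS.1 t s.im ht hC (by linarith) (h2.trans (le_max_left _ _))
    (fun z hz _ => hS.2 z (by linarith)) s rfl hs

theorem se_sh (hm : 1 ≤ m) {a : ℝ} (ha : 0 ≤ a) (ha1 : a ≤ 1 / 4) (hE : SE P a) :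
    SH P (1 / (2 - 4 * a)) := by
  intro ε X hε
  obtain ⟨R, κ', C0, hκ', H⟩ := aut_fwd2 m hm (ε := ε) (X := max X 1) ha ha1 hε (le_max_right _ _)
  obtain ⟨B, HB⟩ := hE (κ' / 2) (by positivity)
  obtain ⟨r, hr⟩ : ∃ r : ℝ, r = m * Real.log (1 + |R|) := ⟨_, rfl⟩
  have hr0 : 0 ≤ r := by
    rw [hr]
    exact mul_nonneg (Nat.cast_nonneg m) (Real.log_nonneg (by linarith [abs_nonneg R]))
  refine ⟨max C0 (Real.exp (2 * (|B| + (a + κ' / 2) * r) / κ')), ?_⟩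
  intro N μ α e Λ hP hS t s ht hC h1 h2 hs
  have hN := hS.1.one_le
  refine H N μ α e Λ hS.1 hS.2 t s.im ht ((le_max_left _ _).trans hC) h1 (h2.trans (le_max_left _ _))
    (fun v hv => ?_) s rfl hs
  refine (HB N μ α e Λ hP hS (s.im + v)).trans (Real.exp_le_exp.2 ?_)
  have h3 := logm_shift hN μ (y := s.im + v) (y' := s.im) (R := R) (by
    rw [show s.im - (s.im + v) = -v by ring, abs_neg]
    exact hv.trans (le_abs_self R))
  rw [← hr] at h3
  have h4 := lt_log ((le_max_right _ _).trans hC)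
  rw [div_le_iff₀ hκ'] at h4
  have h5 : (a + κ' / 2) * Real.log (cnd N μ (s.im + v)) ≤ (a + κ' / 2) * (Real.log (cnd N μ s.im) + r) :=
    mul_le_mul_of_nonneg_left h3 (by positivity)
  have h6 := le_abs_self B
  linarith

theorem sh_se (hm : 1 ≤ m) {κ : ℝ} (hκ : 0 ≤ κ) (hH : SH P κ) : SE P (κ / 4) := by
  intro ε hε
  obtain ⟨δ, hδd⟩ : ∃ δ : ℝ, δ = ε / 2 := ⟨_, rfl⟩
  have hδ : 0 < δ := by rw [hδd]; positivity
  obtain ⟨X, hX⟩ : ∃ X : ℝ, X = κ + 2 * ε + 1 := ⟨_, rfl⟩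
  have hX1 : 1 ≤ X := by linarith
  obtain ⟨R, C1, B1, HZ⟩ := aut_size m hm (ε := δ) (X := X) hδ hX1
  obtain ⟨C2, HH⟩ := hH (δ / 2) X (by positivity)
  obtain ⟨B2, HT⟩ := aut_triv m hm
  obtain ⟨r, hr⟩ : ∃ r : ℝ, r = m * Real.log (1 + |R|) := ⟨_, rfl⟩
  have hr0 : 0 ≤ r := by
    rw [hr]
    exact mul_nonneg (Nat.cast_nonneg m) (Real.log_nonneg (by linarith [abs_nonneg R]))
  obtain ⟨W, hW⟩ : ∃ W : ℝ, W = max (max C1 (|C2| * (1 + |R|) ^ m)) (Real.exp (4 * X * r / δ + 1)) := ⟨_, rfl⟩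
  have hW1 : 1 ≤ W := by
    rw [hW]
    exact le_trans (Real.one_le_exp (by positivity)) (le_max_right _ _)
  refine ⟨max B1 (B2 + 3 / 4 * Real.log W), ?_⟩
  intro N μ α e Λ hP hS y
  have hN := hS.1.one_le
  have hc := cnd_pos hN μ y
  have hL0 : 0 ≤ Real.log (cnd N μ y) := Real.log_nonneg hc
  rcases le_total (cnd N μ y) W with hsm | hbig
  · refine (HT N μ α e Λ hS.1 y).trans (Real.exp_le_exp.2 ?_)
    have h1 : Real.log (cnd N μ y) ≤ Real.log W := Real.log_le_log (by linarith) hsm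
    have h2 := le_max_right B1 (B2 + 3 / 4 * Real.log W)
    have h3 : 0 ≤ (κ / 4 + ε) * Real.log (cnd N μ y) := by positivity
    linarith
  · have hCa : C1 ≤ cnd N μ y := ((le_max_left _ _).trans ((le_max_left _ _).trans hW.ge)).trans hbig
    have hCb : |C2| * (1 + |R|) ^ m ≤ cnd N μ y :=
      ((le_max_right _ _).trans ((le_max_left _ _).trans hW.ge)).trans hbig
    have hL := lt_log (((le_max_right _ _).trans hW.ge).trans hbig)
    obtain ⟨L, hLd⟩ : ∃ L : ℝ, L = Real.log (cnd N μ y) := ⟨_, rfl⟩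
    rw [← hLd] at hL hL0 ⊢
    have h8 : 0 ≤ 4 * X * r / δ := by positivity
    have hLp : 0 < L := by linarith
    obtain ⟨t, htd⟩ : ∃ t : ℝ, t = (κ + ε) / L := ⟨_, rfl⟩
    have ht : 0 < t := by rw [htd]; positivity
    have htL : t * L = κ + ε := by rw [htd]; field_simp
    have htr : t * r ≤ δ / 4 := by
      have h9 : t * (4 * X * r / δ) ≤ X := by
        have : t * (4 * X * r / δ) ≤ t * L := mul_le_mul_of_nonneg_left (by linarith) ht.le
        linarith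
      rw [show t * (4 * X * r / δ) = 4 * t * r / δ * X by ring] at h9
      have h10 : 4 * t * r / δ ≤ 1 := by
        by_contra hcon
        push Not at hcon
        nlinarith
      rw [div_le_one hδ] at h10
      linarith
    have key := HZ N μ α e Λ hS.1 t y ht hCa (by rw [← hLd, htL]; linarith)
      (by rw [← hLd, htL]; linarith) (fun z hz1 hz2 hz => by
        have hz2' : |z.im - y| ≤ |R| := hz2.trans (le_abs_self R)
        have h3 := cndm_shift (N := N) (by linarith) μ hz2'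
        have h6 := logm_shift hN μ hz2'
        rw [abs_sub_comm] at hz2'
        have h7 := logm_shift hN μ hz2'
        rw [← hr] at h6 h7
        rw [← hLd] at h6 h7
        have h6' := mul_le_mul_of_nonneg_left h6 ht.le
        have h7' := mul_le_mul_of_nonneg_left h7 ht.le
        have h5 : 0 < (1 + |R|) ^ m := by positivity
        have h9 := HH N μ α e Λ hP hS t z ht ((le_abs_self C2).trans
          (le_of_mul_le_mul_right (hCb.trans h3) h5)) (by linarith) (by linarith) hz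
        linarith)
    refine key.trans (Real.exp_le_exp.2 ?_)
    rw [← hLd, htL]
    have h2 := le_max_left B1 (B2 + 3 / 4 * Real.log W)
    have h3 : ((κ + ε) / 4 + δ) * L ≤ (κ / 4 + ε) * L := by
      apply mul_le_mul_of_nonneg_right _ hL0
      linarith
    linarith

theorem sh_sn (hm : 1 ≤ m) {κ : ℝ} (hκ : 0 ≤ κ) (hH : SH P κ) : SN P κ := by
  intro η hη
  obtain ⟨t1, C1, ht1, HL⟩ := aut_local m hm (θ := 1 / 2) (η := 1) (by norm_num) le_rfl one_pos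
  obtain ⟨C0, HH⟩ := hH η 3 hη
  refine ⟨max (max C0 C1) (Real.exp ((κ + η) / t1 + 1)), ?_, ?_⟩
  · exact lt_of_lt_of_le (Real.one_lt_exp_iff.2 (by positivity)) (le_max_right _ _)
  intro N μ α e Λ hP hS Q hQ hQc t ht s hs
  have hQp : 0 < Q := lt_of_lt_of_le (Real.exp_pos _) ((le_max_right _ _).trans hQ)
  have hL := lt_log ((le_max_right _ _).trans hQ)
  have h0 : 0 ≤ (κ + η) / t1 := by positivity
  have hL0 : 0 < Real.log Q := by linarith
  obtain ⟨t0, ht0d⟩ : ∃ t0 : ℝ, t0 = (κ + η) / Real.log Q := ⟨_, rfl⟩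
  have ht0 : 0 < t0 := by rw [ht0d]; positivity
  have ht0L : t0 * Real.log Q = κ + η := by rw [ht0d]; field_simp
  have ht01 : t0 ≤ t1 := by
    rw [ht0d, div_le_iff₀ hL0]
    have h1 : t1 * ((κ + η) / t1 + 1) ≤ t1 * Real.log Q := mul_le_mul_of_nonneg_left hL ht1.le
    have h2 : t1 * ((κ + η) / t1 + 1) = κ + η + t1 := by field_simp
    linarith
  obtain ⟨B, hB, HS⟩ := sharpX m hm (show (0 : ℝ) ≤ 1 / 2 by norm_num) le_rfl
    (show (0 : ℝ) < 1 / 2 by norm_num) (by norm_num)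
  obtain ⟨-, hslow, hfe, -, hne⟩ := HS N μ α e Λ hS.1
  refine mono_all (XX N Λ) hslow ⟨e, hS.1.norm_eq, hfe⟩ hne t0 t ht0.le (by rw [ht0d]; exact ht)
    (fun z hz => ?_) s hs
  have h4 : Real.log Q ≤ Real.log (cnd N μ z.im) := Real.log_le_log hQp (hQc _)
  have h5 := mul_le_mul_of_nonneg_left h4 ht0.le
  rcases le_total (t0 * Real.log (cnd N μ z.im)) 3 with h6 | h6
  · exact HH N μ α e Λ hP hS t0 z ht0 (((le_max_left _ _).trans ((le_max_left _ _).trans hQ)).trans (hQc _))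
      (by linarith) h6 hz
  · exact HL N μ α e Λ hS.1 t0 z ht0 ht01
      (((le_max_right _ _).trans ((le_max_left _ _).trans hQ)).trans (hQc _)) (by linarith) hz

theorem sn_snq {κ : ℝ} (h : SN P κ) : SNq P κ := by
  intro η hη
  obtain ⟨Q0, -, H⟩ := h η hη
  exact ⟨Q0, fun N μ α e Λ hP hS hN t ht s hs => H N μ α e Λ hP hS N hN
    (fun y => le_cnd hS.1.one_le μ y) t ht s hs⟩

theorem sn_sl (hm : 1 ≤ m) {κ : ℝ} (hκ : 0 ≤ κ) (hN : SNq P κ) : SL P (κ / 4) := by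
  intro ε T hε
  obtain ⟨δ, hδd⟩ : ∃ δ : ℝ, δ = ε / 4 := ⟨_, rfl⟩
  have hδ : 0 < δ := by rw [hδd]; positivity
  obtain ⟨X, hX⟩ : ∃ X : ℝ, X = κ + 2 * ε + 1 := ⟨_, rfl⟩
  have hX1 : 1 ≤ X := by linarith
  obtain ⟨R, C1, B1, HZ⟩ := aut_size m hm (ε := δ) (X := X) hδ hX1
  obtain ⟨Q0, HN⟩ := hN δ hδ
  obtain ⟨B2, HT⟩ := aut_triv m hm
  obtain ⟨r, hr⟩ : ∃ r : ℝ, r = m * Real.log (1 + 2 * |T|) := ⟨_, rfl⟩
  have hr0 : 0 ≤ r := by
    rw [hr]
    exact mul_nonneg (Nat.cast_nonneg m) (Real.log_nonneg (by linarith [abs_nonneg T]))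
  obtain ⟨W, hW⟩ : ∃ W : ℝ, W = max (max C1 Q0) (Real.exp (4 * X * r / δ + 1)) := ⟨_, rfl⟩
  have hW1 : 1 ≤ W := by
    rw [hW]
    exact le_trans (Real.one_le_exp (by positivity)) (le_max_right _ _)
  refine ⟨max (B1 + (κ / 4 + 1 + 2 * ε) * r) (B2 + 3 / 4 * (Real.log W + r)), ?_⟩
  intro N μ α e Λ hP hS hμT y hy
  have hN1 := hS.1.one_le
  have hLN : 0 ≤ Real.log N := Real.log_nonneg hN1
  have hT0 : 0 ≤ |T| := abs_nonneg T
  have hlog : Real.log (cnd N μ y) ≤ Real.log N + r := by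
    have h1 : ∏ j, (1 + ‖(y : ℂ) * I - μ j‖) ≤ (1 + 2 * |T|) ^ m := by
      have h2 : ∀ j, 1 + ‖(y : ℂ) * I - μ j‖ ≤ 1 + 2 * |T| := fun j => by
        have h3 := norm_sub_le ((y : ℂ) * I) (μ j)
        rw [norm_mul, Complex.norm_real, Complex.norm_I, Real.norm_eq_abs, mul_one] at h3
        have h4 := hμT j
        have h5 := le_abs_self T
        linarith
      calc ∏ j, (1 + ‖(y : ℂ) * I - μ j‖) ≤ ∏ _j : Fin m, (1 + 2 * |T|) :=
            Finset.prod_le_prod (fun j _ => by positivity) fun j _ => h2 j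
        _ = _ := by rw [Finset.prod_const, Finset.card_univ, Fintype.card_fin]
    have h3 : cnd N μ y ≤ N * (1 + 2 * |T|) ^ m := by
      unfold cnd
      exact mul_le_mul_of_nonneg_left h1 (by linarith)
    have h4 : Real.log (N * (1 + 2 * |T|) ^ m) = Real.log N + r := by
      rw [Real.log_mul (by linarith) (by positivity), Real.log_pow, hr]
    rw [← h4]
    exact Real.log_le_log (by linarith [cnd_pos hN1 μ y]) h3
  have hlog' : Real.log N ≤ Real.log (cnd N μ y) := Real.log_le_log (by linarith) (le_cnd hN1 μ y)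
  rcases le_total N W with hsm | hbig
  · refine (HT N μ α e Λ hS.1 y).trans (Real.exp_le_exp.2 ?_)
    have h1 : Real.log N ≤ Real.log W := Real.log_le_log (by linarith) hsm
    have h2 := le_max_right (B1 + (κ / 4 + 1 + 2 * ε) * r) (B2 + 3 / 4 * (Real.log W + r))
    have h3 : 0 ≤ (κ / 4 + ε) * Real.log N := by positivity
    linarith
  · have hCa : C1 ≤ N := ((le_max_left _ _).trans ((le_max_left _ _).trans hW.ge)).trans hbig
    have hCb : Q0 ≤ N := ((le_max_right _ _).trans ((le_max_left _ _).trans hW.ge)).trans hbig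
    have hL := lt_log (((le_max_right _ _).trans hW.ge).trans hbig)
    have h8 : 0 ≤ 4 * X * r / δ := by positivity
    have hLp : 0 < Real.log N := by linarith
    obtain ⟨t, htd⟩ : ∃ t : ℝ, t = (κ + δ) / Real.log N := ⟨_, rfl⟩
    have ht : 0 < t := by rw [htd]; positivity
    have htL : t * Real.log N = κ + δ := by rw [htd]; field_simp
    have htr : t * r ≤ δ := by
      have h9 : t * (4 * X * r / δ) ≤ X := by
        have : t * (4 * X * r / δ) ≤ t * Real.log N := mul_le_mul_of_nonneg_left (by linarith) ht.le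
        linarith
      rw [show t * (4 * X * r / δ) = 4 * t * r / δ * X by ring] at h9
      have h10 : 4 * t * r / δ ≤ 1 := by
        by_contra hcon
        push Not at hcon
        nlinarith
      rw [div_le_one hδ] at h10
      nlinarith [mul_nonneg ht.le hr0]
    have h11 : t * Real.log (cnd N μ y) ≤ κ + 2 * δ := by
      have := mul_le_mul_of_nonneg_left hlog ht.le
      linarith
    have h12 : κ + δ ≤ t * Real.log (cnd N μ y) := by
      have := mul_le_mul_of_nonneg_left hlog' ht.le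
      linarith
    have key := HZ N μ α e Λ hS.1 t y ht (hCa.trans (le_cnd hN1 μ y)) (by linarith) (by linarith)
      (fun z hz1 hz2 hz => by
        have := HN N μ α e Λ hP hS hCb t (by rw [htd]) z hz
        linarith)
    refine key.trans (Real.exp_le_exp.2 ?_)
    have h2 := le_max_left (B1 + (κ / 4 + 1 + 2 * ε) * r) (B2 + 3 / 4 * (Real.log W + r))
    have hLc : 0 ≤ Real.log (cnd N μ y) := by linarith
    have h3 : (t * Real.log (cnd N μ y) / 4 + δ) * Real.log (cnd N μ y) ≤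
        (κ / 4 + 3 * δ / 2) * (Real.log N + r) :=
      mul_le_mul (by linarith) hlog hLc (by positivity)
    have h4 : (κ / 4 + 3 * δ / 2) * (Real.log N + r) ≤ (κ / 4 + ε) * Real.log N + (κ / 4 + 1 + 2 * ε) * r := by
      have h5 : (κ / 4 + 3 * δ / 2) * Real.log N ≤ (κ / 4 + ε) * Real.log N :=
        mul_le_mul_of_nonneg_right (by linarith) hLN
      have h6 : (κ / 4 + 3 * δ / 2) * r ≤ (κ / 4 + 1 + 2 * ε) * r :=
        mul_le_mul_of_nonneg_right (by linarith) hr0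
      linarith
    linarith

end Pool.Agent.W169.HF
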