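import Pool.Agent.W169.HF.Fam2

/-!
# Project SC: classes of pairs (L-function, height)
-/

set_option autoImplicit false

open Complex Set MeasureTheory intervalIntegral Filter Topology
open scoped ComplexConjugate NNReal ENNReal

namespace Pool.Agent.W169.HF

open H353.E H353.F

/-- a class of pairs (analytic data, height) -/
abbrev Cls2 (m : ℕ) : Type := ℝ → (Fin m → ℂ) → (Fin m → ℕ → ℂ) → ℂ → (ℂ → ℂ) → ℝ → Prop

/-- size exponent `a` near the pairs of the class -/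
def PE {m : ℕ} (P : Cls2 m) (a : ℝ) : Prop := ∀ ε R : ℝ, 0 < ε → ∃ B : ℝ,
  ∀ (N : ℝ) (μ : Fin m → ℂ) (α : Fin m → ℕ → ℂ) (e : ℂ) (Λ : ℂ → ℂ) (y : ℝ), P N μ α e Λ y →
  Std N μ α e Λ → ∀ v : ℝ, |v| ≤ R →
    ‖LL μ Λ (1 / 2 + ((y + v : ℝ) : ℂ) * I)‖ ≤ Real.exp (B + (a + ε) * Real.log (cnd N μ (y + v)))

/-- threshold `κ` for the zeros of the heat flow near the pairs of the class -/
def PH {m : ℕ} (P : Cls2 m) (κ : ℝ) : Prop := ∀ ε X R : ℝ, 0 < ε → ∃ C0 : ℝ,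
  ∀ (N : ℝ) (μ : Fin m → ℂ) (α : Fin m → ℕ → ℂ) (e : ℂ) (Λ : ℂ → ℂ) (y : ℝ), P N μ α e Λ y →
  Std N μ α e Λ → ∀ (t : ℝ) (s : ℂ), 0 < t → |s.im - y| ≤ R → C0 ≤ cnd N μ s.im →
    κ + ε ≤ t * Real.log (cnd N μ s.im) → t * Real.log (cnd N μ s.im) ≤ X →
    heat t (XX N Λ) s = 0 → s.re = 1 / 2

variable {m : ℕ} {P : Cls2 m}

theorem ph_one (hm : 1 ≤ m) : PH P 1 := by
  intro ε X _ hε
  obtain ⟨C0, H⟩ := sh_one (P := fun _ _ _ _ _ => True) hm ε X hε
  exact ⟨C0, fun N μ α e Λ y _ hS t s ht _ => H N μ α e Λ trivial hS t s ht⟩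

theorem pe_ph (hm : 1 ≤ m) {a : ℝ} (ha : 0 ≤ a) (ha1 : a ≤ 1 / 4) (hE : PE P a) :
    PH P (1 / (2 - 4 * a)) := by
  intro ε X R' hε
  obtain ⟨R, κ', C0, hκ', H⟩ := aut_fwd2 m hm (ε := ε) (X := max X 1) ha ha1 hε (le_max_right _ _)
  obtain ⟨B, HB⟩ := hE (κ' / 2) (|R'| + |R|) (by positivity)
  obtain ⟨r, hr⟩ : ∃ r : ℝ, r = m * Real.log (1 + |R|) := ⟨_, rfl⟩
  have hr0 : 0 ≤ r := by
    rw [hr]
    exact mul_nonneg (Nat.cast_nonneg m) (Real.log_nonneg (by linarith [abs_nonneg R]))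
  refine ⟨max C0 (Real.exp (2 * (|B| + (a + κ' / 2) * r) / κ')), ?_⟩
  intro N μ α e Λ y hP hS t s ht hsy hC h1 h2 hs
  have hN := hS.1.one_le
  refine H N μ α e Λ hS.1 hS.2 t s.im ht ((le_max_left _ _).trans hC) h1 (h2.trans (le_max_left _ _))
    (fun v hv => ?_) s rfl hs
  have h7 := HB N μ α e Λ y hP hS (s.im - y + v) (by
    refine (abs_add_le _ _).trans (add_le_add (hsy.trans (le_abs_self _)) (hv.trans (le_abs_self _))))
  rw [show y + (s.im - y + v) = s.im + v by ring] at h7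
  refine h7.trans (Real.exp_le_exp.2 ?_)
  have h3 := logm_shift hN μ (y := s.im + v) (y' := s.im) (R := R) (by
    rw [show s.im - (s.im + v) = -v by ring, abs_neg]
    exact hv.trans (le_abs_self R))
  rw [← hr] at h3
  have h4 := lt_log ((le_max_right _ _).trans hC)
  rw [div_le_iff₀ hκ'] at h4
  have h5 : (a + κ' / 2) * Real.log (cnd N μ (s.im + v)) ≤ (a + κ' / 2) * (Real.log (cnd N μ s.im) + r) :=
    mul_le_mul_of_nonneg_left h3 (by positivity)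
  have h6 := le_abs_self B
  linarith

theorem ph_pe (hm : 1 ≤ m) {κ : ℝ} (hκ : 0 ≤ κ) (hH : PH P κ) : PE P (κ / 4) := by
  intro ε R' hε
  obtain ⟨δ, hδd⟩ : ∃ δ : ℝ, δ = ε / 2 := ⟨_, rfl⟩
  have hδ : 0 < δ := by rw [hδd]; positivity
  obtain ⟨X, hX⟩ : ∃ X : ℝ, X = κ + 2 * ε + 1 := ⟨_, rfl⟩
  have hX1 : 1 ≤ X := by linarith
  obtain ⟨R, C1, B1, HZ⟩ := aut_size m hm (ε := δ) (X := X) hδ hX1
  obtain ⟨C2, HH⟩ := hH (δ / 2) X (|R| + |R'|) (by positivity)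
  obtain ⟨B2, HT⟩ := aut_triv m hm
  obtain ⟨r, hr⟩ : ∃ r : ℝ, r = m * Real.log (1 + |R|) := ⟨_, rfl⟩
  have hr0 : 0 ≤ r := by
    rw [hr]
    exact mul_nonneg (Nat.cast_nonneg m) (Real.log_nonneg (by linarith [abs_nonneg R]))
  obtain ⟨W, hW⟩ : ∃ W : ℝ, W = max (max C1 (|C2| * (1 + |R|) ^ m)) (Real.exp (4 * X * r / δ + 1)) := ⟨_, rfl⟩
  have hW1 : 1 ≤ W := by
    rw [hW]
    exact le_trans (Real.one_le_exp (by positivity)) (le_max_right _ _)
  refine ⟨max B1 (B2 + 3 / 4 * Real.log W), ?_⟩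
  intro N μ α e Λ y0 hP hS v hv
  obtain ⟨y, hy⟩ : ∃ y : ℝ, y = y0 + v := ⟨_, rfl⟩
  rw [← hy]
  have hN := hS.1.one_le
  have hc := cnd_pos hN μ y
  have hL0 : 0 ≤ Real.log (cnd N μ y) := Real.log_nonneg hc
  rcases le_total (cnd N μ y) W with hsm | hbig
  · refine (HT N μ α e Λ hS.1 y).trans (Real.exp_le_exp.2 ?_)
    have h1 : Real.log (cnd N μ y) ≤ Real.log W := Real.log_le_log (by linarith) hsm
    have h2 := le_max_right B1 (B2 + 3 / 4 * Real.log W)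
    have h3 : 0 ≤ (κ / 4 + ε) * Real.log (cnd N μ y) := by positivity
    linarith
  · have hCa : C1 ≤ cnd N μ y := ((le_max_left _ _).trans ((le_max_left _ _).trans hW.ge)).trans hbig
    have hCb : |C2| * (1 + |R|) ^ m ≤ cnd N μ y :=
      ((le_max_right _ _).trans ((le_max_left _ _).trans hW.ge)).trans hbig
    have hL := lt_log (((le_max_right _ _).trans hW.ge).trans hbig)
    obtain ⟨L, hLd⟩ : ∃ L : ℝ, L = Real.log (cnd N μ y) := ⟨_, rfl⟩
    rw [← hLd] at hL hL0 ⊢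
    have h8 : 0 ≤ 4 * X * r / δ := by positivity
    have hLp : 0 < L := by linarith
    obtain ⟨t, htd⟩ : ∃ t : ℝ, t = (κ + ε) / L := ⟨_, rfl⟩
    have ht : 0 < t := by rw [htd]; positivity
    have htL : t * L = κ + ε := by rw [htd]; field_simp
    have htr : t * r ≤ δ / 4 := by
      have h9 : t * (4 * X * r / δ) ≤ X := by
        have : t * (4 * X * r / δ) ≤ t * L := mul_le_mul_of_nonneg_left (by linarith) ht.le
        linarith
      rw [show t * (4 * X * r / δ) = 4 * t * r / δ * X by ring] at h9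
      have h10 : 4 * t * r / δ ≤ 1 := by
        by_contra hcon
        push Not at hcon
        nlinarith
      rw [div_le_one hδ] at h10
      linarith
    have key := HZ N μ α e Λ hS.1 t y ht hCa (by rw [← hLd, htL]; linarith)
      (by rw [← hLd, htL]; linarith) (fun z hz1 hz2 hz => by
        have hz2' : |z.im - y| ≤ |R| := hz2.trans (le_abs_self R)
        have hz3 : |z.im - y0| ≤ |R| + |R'| := by
          have e1 : z.im - y0 = (z.im - y) + v := by rw [hy]; ring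
          rw [e1]
          exact (abs_add_le _ _).trans (add_le_add hz2' (hv.trans (le_abs_self _)))
        have h3 := cndm_shift (N := N) (by linarith) μ hz2'
        have h6 := logm_shift hN μ hz2'
        rw [abs_sub_comm] at hz2'
        have h7 := logm_shift hN μ hz2'
        rw [← hr] at h6 h7
        rw [← hLd] at h6 h7
        have h6' := mul_le_mul_of_nonneg_left h6 ht.le
        have h7' := mul_le_mul_of_nonneg_left h7 ht.le
        have h5 : 0 < (1 + |R|) ^ m := by positivity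
        have h9 := HH N μ α e Λ y0 hP hS t z ht hz3 ((le_abs_self C2).trans
          (le_of_mul_le_mul_right (hCb.trans h3) h5)) (by linarith) (by linarith) hz
        linarith)
    refine key.trans (Real.exp_le_exp.2 ?_)
    rw [← hLd, htL]
    have h2 := le_max_left B1 (B2 + 3 / 4 * Real.log W)
    have h3 : ((κ + ε) / 4 + δ) * L ≤ (κ / 4 + ε) * L := by
      apply mul_le_mul_of_nonneg_right _ hL0
      linarith
    linarith

lemma pe_mono {a a' : ℝ} (h : a ≤ a') (hE : PE P a) : PE P a' := by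
  intro ε R hε
  obtain ⟨B, HB⟩ := hE ε R hε
  refine ⟨B, fun N μ α e Λ y hP hS v hv => (HB N μ α e Λ y hP hS v hv).trans (Real.exp_le_exp.2 ?_)⟩
  have := Real.log_nonneg (cnd_pos hS.1.one_le μ (y + v))
  nlinarith

lemma ph_mono {κ κ' : ℝ} (h : κ ≤ κ') (hH : PH P κ) : PH P κ' := by
  intro ε X R hε
  obtain ⟨C0, H⟩ := hH ε X R hε
  exact ⟨C0, fun N μ α e Λ y hP hS t s ht hsy hC h1 h2 hs =>
    H N μ α e Λ y hP hS t s ht hsy hC (by linarith) h2 hs⟩

theorem pe_iff (hm : 1 ≤ m) : (∃ δ : ℝ, 0 < δ ∧ PE P (1 / 4 - δ)) ↔ ∃ κ : ℝ, κ < 1 ∧ PH P κ := by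
  constructor
  · rintro ⟨δ, hδ, h⟩
    have h1 := pe_mono (a' := 1 / 4 - min δ (1 / 4)) (by have := min_le_left δ (1 / 4); linarith) h
    have h2 : 0 < min δ (1 / 4) := lt_min hδ (by norm_num)
    have h3 := min_le_right δ (1 / 4)
    refine ⟨_, ?_, pe_ph hm (by linarith) (by linarith) h1⟩
    rw [div_lt_one (by linarith)]
    linarith
  · rintro ⟨κ, hκ, h⟩
    have h1 := ph_mono (κ' := max κ 0) (le_max_left _ _) h
    have h2 : max κ 0 < 1 := max_lt hκ one_pos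
    refine ⟨(1 - max κ 0) / 4, by linarith, ?_⟩
    have h3 := ph_pe hm (le_max_right κ 0) h1
    rwa [show 1 / 4 - (1 - max κ 0) / 4 = max κ 0 / 4 by ring]

/-- passing to the classes of all heights -/
lemma ph_sh {P0 : Cls m} {κ : ℝ} (h : PH (fun N μ α e Λ _ => P0 N μ α e Λ) κ) : SH P0 κ := by
  intro ε X hε
  obtain ⟨C0, H⟩ := h ε X 0 hε
  exact ⟨C0, fun N μ α e Λ hP hS t s ht hC h1 h2 hs =>
    H N μ α e Λ s.im hP hS t s ht (by simp) hC h1 h2 hs⟩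

/-- comparison with the conductor of the problem -/
lemma prodc {μ : Fin m → ℂ} (c : ℂ) (hc : ‖c‖ ≤ 1 / 2) (z : ℂ) :
    ∏ j, (1 + ‖z + c - μ j‖) ≤ (3 / 2) ^ m * ∏ j, (1 + ‖z - μ j‖) := by
  have h1 : ∀ j, 1 + ‖z + c - μ j‖ ≤ 3 / 2 * (1 + ‖z - μ j‖) := fun j => by
    have h2 : ‖z + c - μ j‖ ≤ ‖z - μ j‖ + 1 / 2 := by
      rw [show z + c - μ j = (z - μ j) + c by ring]
      exact (norm_add_le _ _).trans (by linarith)
    linarith [norm_nonneg (z - μ j)]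
  have h2 := Finset.prod_le_prod (s := (Finset.univ : Finset (Fin m))) (fun j _ => by positivity)
    fun j _ => h1 j
  rwa [Finset.prod_mul_distrib, Finset.prod_const, Finset.card_univ, Fintype.card_fin] at h2

lemma cnd_cmp {N : ℝ} (hN : 1 ≤ N) (μ : Fin m → ℂ) (y : ℝ) :
    cnd N μ y ≤ (3 / 2) ^ m * (N * ∏ j, (1 + ‖1 / 2 + (y : ℂ) * I - μ j‖)) ∧
    N * ∏ j, (1 + ‖1 / 2 + (y : ℂ) * I - μ j‖) ≤ (3 / 2) ^ m * cnd N μ y := by
  have h1 := prodc (μ := μ) (-(1 / 2)) (by simp) (1 / 2 + (y : ℂ) * I)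
  have h2 := prodc (μ := μ) (1 / 2) (by simp) ((y : ℂ) * I)
  have e1 : (1 / 2 + (y : ℂ) * I + -(1 / 2) : ℂ) = y * I := by ring
  have e2 : ((y : ℂ) * I + 1 / 2 : ℂ) = 1 / 2 + y * I := by ring
  rw [e1] at h1
  rw [e2] at h2
  unfold cnd
  constructor
  · calc _ ≤ N * ((3 / 2) ^ m * ∏ j, (1 + ‖1 / 2 + (y : ℂ) * I - μ j‖)) :=
        mul_le_mul_of_nonneg_left h1 (by linarith)
      _ = _ := by ring
  · calc _ ≤ N * ((3 / 2) ^ m * ∏ j, (1 + ‖(y : ℂ) * I - μ j‖)) :=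
        mul_le_mul_of_nonneg_left h2 (by linarith)
      _ = _ := by ring

end Pool.Agent.W169.HF
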