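import Pool.Agent.W169.HF.Loc5
import Pool.Agent.W169.HF.Fam3

/-!
# Project GLD: classes of standard L-functions
-/

set_option autoImplicit false

open Complex Set MeasureTheory intervalIntegral Filter Topology
open scoped ComplexConjugate NNReal ENNReal

namespace Pool.Agent.W169.HF

open H353.E H353.F

/-- size exponent `a` on the line `Re s = 1/2 + r` -/
def SEr {m : ℕ} (P : Cls m) (r a : ℝ) : Prop := ∀ ε : ℝ, 0 < ε → ∃ B : ℝ,
  ∀ (N : ℝ) (μ : Fin m → ℂ) (α : Fin m → ℕ → ℂ) (e : ℂ) (Λ : ℂ → ℂ), P N μ α e Λ → Std N μ α e Λ →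
  ∀ y : ℝ, ‖LL μ Λ (1 / 2 + (r : ℂ) + (y : ℂ) * I)‖ ≤ Real.exp (B + (a + ε) * Real.log (cnd N μ y))

/-- few zeros of the heat flow -/
def FZ {m : ℕ} (P : Cls m) (κ : ℝ) : Prop := ∀ δ ε X : ℝ, 0 < δ → 0 < ε → ∃ C0 : ℝ,
  ∀ (N : ℝ) (μ : Fin m → ℂ) (α : Fin m → ℕ → ℂ) (e : ℂ) (Λ : ℂ → ℂ), P N μ α e Λ → Std N μ α e Λ →
  ∀ t y : ℝ, 0 < t → C0 ≤ cnd N μ y → κ ≤ t * Real.log (cnd N μ y) → t * Real.log (cnd N μ y) ≤ X →
    Cnt (heat t (XX N Λ)) {z : ℂ | 1 / 2 + δ ≤ z.re ∧ |z.im - y| ≤ 1} (ε * Real.log (cnd N μ y))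

variable {m : ℕ} {P : Cls m}

lemma ser_mono {r a a' : ℝ} (h : a ≤ a') (hE : SEr P r a) : SEr P r a' := by
  intro ε hε
  obtain ⟨B, HB⟩ := hE ε hε
  refine ⟨B, fun N μ α e Λ hP hS y => (HB N μ α e Λ hP hS y).trans (Real.exp_le_exp.2 ?_)⟩
  have := Real.log_nonneg (cnd_pos hS.1.one_le μ y)
  nlinarith

lemma fz_mono {κ κ' : ℝ} (h : κ ≤ κ') (hF : FZ P κ) : FZ P κ' := by
  intro δ ε X hδ hε
  obtain ⟨C0, H⟩ := hF δ ε X hδ hε
  exact ⟨C0, fun N μ α e Λ hP hS t y ht hC h1 h2 => H N μ α e Λ hP hS t y ht hC (h.trans h1) h2⟩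

lemma mx_le {κ r : ℝ} (hκ : 0 < κ) (hr : 0 ≤ r) : max (κ - r) 0 ^ 2 / (4 * κ) ≤ κ := by
  have h1 : 0 ≤ max (κ - r) 0 := le_max_right _ _
  have h2 : max (κ - r) 0 ≤ κ := max_le (by linarith) hκ.le
  rw [div_le_iff₀ (by positivity)]
  nlinarith

theorem ser_fz (h1 : S_HPX) (h2 : S_JEN) (h3 : S_NET) (hm : 1 ≤ m) {κ : ℝ} (hκ : 0 < κ) (hκ1 : κ ≤ 1)
    (h : ∀ r : ℝ, 0 ≤ r → r ≤ 1 / 2 → SEr P r (max (κ - r) 0 ^ 2 / (4 * κ))) : FZ P κ := by
  intro δ ε X hδ hε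
  have hδ' : 0 < min δ 1 := lt_min hδ one_pos
  obtain ⟨M, R, κ', C0, hM, hκ', H⟩ := aut_few h1 h2 h3 m hm (x := κ) (X := max X 1) (δ := min δ 1) (ε := ε)
    hκ hκ1 (le_max_right _ _) hδ' (min_le_right _ _) hε
  have hM' : (1 : ℝ) ≤ M := by exact_mod_cast hM
  have hB : ∀ k : ℕ, ∃ B : ℝ, k ≤ M → ∀ (N : ℝ) (μ : Fin m → ℂ) (α : Fin m → ℕ → ℂ) (e : ℂ) (Λ : ℂ → ℂ),
      P N μ α e Λ → Std N μ α e Λ → ∀ y : ℝ, ‖LL μ Λ (1 / 2 + ((k / (2 * M) : ℝ) : ℂ) + (y : ℂ) * I)‖ ≤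
        Real.exp (B + (max (κ - k / (2 * M)) 0 ^ 2 / (4 * κ) + κ' / 2) * Real.log (cnd N μ y)) := by
    intro k
    by_cases hk : k ≤ M
    · have hk' : (k : ℝ) ≤ M := by exact_mod_cast hk
      obtain ⟨B, HB⟩ := h (k / (2 * M)) (by positivity) (by
        rw [div_le_div_iff₀ (by positivity) (by norm_num)]
        linarith) (κ' / 2) (by positivity)
      exact ⟨B, fun _ => HB⟩
    · exact ⟨0, fun hk' => absurd hk' hk⟩
  choose B HB using hB
  obtain ⟨BB, hBB⟩ : ∃ BB : ℝ, BB = ∑ k ∈ Finset.range (M + 1), |B k| := ⟨_, rfl⟩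
  have hBB0 : 0 ≤ BB := by rw [hBB]; exact Finset.sum_nonneg fun k _ => abs_nonneg _
  have hBk : ∀ k, k ≤ M → B k ≤ BB := fun k hk => by
    refine (le_abs_self _).trans ?_
    rw [hBB]
    exact Finset.single_le_sum (f := fun k => |B k|) (fun k _ => abs_nonneg _)
      (Finset.mem_range.2 (by omega))
  obtain ⟨r, hr⟩ : ∃ r : ℝ, r = m * Real.log (1 + |R|) := ⟨_, rfl⟩
  have hr0 : 0 ≤ r := by
    rw [hr]
    exact mul_nonneg (Nat.cast_nonneg m) (Real.log_nonneg (by linarith [abs_nonneg R]))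
  refine ⟨max C0 (Real.exp (2 * (BB + (κ + κ' / 2) * r) / κ')), ?_⟩
  intro N μ α e Λ hP hS t y ht hC hx2 hX2
  have hN := hS.1.one_le
  have h4 := lt_log ((le_max_right _ _).trans hC)
  rw [div_le_iff₀ hκ'] at h4
  refine cnt_mono (H N μ α e Λ hS.1 hS.2 t y ht ((le_max_left _ _).trans hC) hx2 (hX2.trans (le_max_left _ _))
    (fun k hk1 hkM v hv => ?_)) (fun z hz => ⟨?_, hz.2⟩) le_rfl
  · refine (HB k hkM N μ α e Λ hP hS (y + v)).trans (Real.exp_le_exp.2 ?_)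
    have h5 := logm_shift hN μ (y := y + v) (y' := y) (R := R) (by
      rw [show y - (y + v) = -v by ring, abs_neg]
      exact hv.trans (le_abs_self R))
    rw [← hr] at h5
    obtain ⟨c, hc⟩ : ∃ c : ℝ, c = max (κ - k / (2 * M)) 0 ^ 2 / (4 * κ) := ⟨_, rfl⟩
    have hc0 : 0 ≤ c := by rw [hc]; positivity
    have hcκ : c ≤ κ := by rw [hc]; exact mx_le hκ (by positivity)
    rw [← hc]
    have h6 : (c + κ' / 2) * Real.log (cnd N μ (y + v)) ≤ (c + κ' / 2) * (Real.log (cnd N μ y) + r) :=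
      mul_le_mul_of_nonneg_left h5 (by positivity)
    have h7 : (c + κ' / 2) * r ≤ (κ + κ' / 2) * r := mul_le_mul_of_nonneg_right (by linarith) hr0
    have h8 := hBk k hkM
    linarith
  · have := hz.1
    have h5 := min_le_left δ 1
    linarith

/-- covering a window by unit windows -/
lemma cnt_cover {F : ℂ → ℂ} {y δ c R : ℝ} {J : ℕ} (hRJ : R + 1 ≤ J) (hc : 0 ≤ c)
    (h : ∀ j : ℤ, |j| ≤ J → Cnt F {z : ℂ | 1 / 2 + δ ≤ z.re ∧ |z.im - (y + j)| ≤ 1} c) :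
    Cnt F {z : ℂ | 1 / 2 + δ ≤ z.re ∧ |z.im - y| ≤ R} ((2 * J + 1) * c) := by
  classical
  intro S hS
  have hmap : ∀ z ∈ S, round (z.im - y) ∈ Finset.Icc (-(J : ℤ)) J := by
    intro z hz
    have h1 := (hS z hz).2.2
    have h2 := abs_sub_round (z.im - y)
    rw [Finset.mem_Icc, ← abs_le]
    have h3 : |((round (z.im - y) : ℤ) : ℝ)| ≤ J := by
      have h4 : |((round (z.im - y) : ℤ) : ℝ)| ≤ |z.im - y| + 1 / 2 := by
        have h9 := abs_sub_abs_le_abs_sub ((round (z.im - y) : ℤ) : ℝ) (z.im - y)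
        rw [abs_sub_comm ((round (z.im - y) : ℤ) : ℝ) (z.im - y)] at h9
        linarith
      linarith
    exact_mod_cast h3
  rw [← Finset.sum_fiberwise_of_maps_to hmap]
  have h5 : ∀ j ∈ Finset.Icc (-(J : ℤ)) J,
      ∑ z ∈ S.filter (fun z => round (z.im - y) = j), (analyticOrderNatAt F z : ℝ) ≤ c := by
    intro j hj
    rw [Finset.mem_Icc, ← abs_le] at hj
    refine h j hj _ fun z hz => ?_
    rw [Finset.mem_filter] at hz
    obtain ⟨h6, h7⟩ := hS z hz.1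
    refine ⟨h6, h7.1, ?_⟩
    have h8 := abs_sub_round (z.im - y)
    rw [hz.2] at h8
    rw [show z.im - (y + j) = z.im - y - j by ring]
    linarith
  refine (Finset.sum_le_sum h5).trans ?_
  rw [Finset.sum_const, Int.card_Icc, nsmul_eq_mul]
  have e : ((((J : ℤ) + 1 - -(J : ℤ)).toNat : ℕ) : ℝ) = 2 * J + 1 := by
    have : ((J : ℤ) + 1 - -(J : ℤ)).toNat = 2 * J + 1 := by omega
    rw [this]
    push_cast
    ring
  rw [e]

theorem fz_ser (h1 : S_TCZ) (h2 : S_INVX) (hm : 1 ≤ m) {κ : ℝ} (hκ : 0 < κ) (hF : FZ P κ) (r : ℝ)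
    (hr : 0 ≤ r) (hr1 : r ≤ 1 / 2) : SEr P r (max (κ - r) 0 ^ 2 / (4 * κ)) := by
  intro ε hε
  obtain ⟨η, hηd⟩ : ∃ η : ℝ, η = min ε 1 := ⟨_, rfl⟩
  have hη : 0 < η := by rw [hηd]; exact lt_min hε one_pos
  have hηε : η ≤ ε := by rw [hηd]; exact min_le_left _ _
  have hη1 : η ≤ 1 := by rw [hηd]; exact min_le_right _ _
  obtain ⟨κ1, R, C1, B1, hκ1, HZ⟩ := aut_exp h1 h2 m hm (g := κ) (X := κ + 2) (ε := ε / 2) hκ (by linarith)
    (by positivity)
  obtain ⟨J, hJ⟩ := exists_nat_ge (|R| + 1)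
  have hJ0 : (0 : ℝ) ≤ J := Nat.cast_nonneg J
  obtain ⟨C2, HH⟩ := hF κ1 (κ1 / (2 * (2 * J + 1))) (κ + 3) hκ1 (by positivity)
  obtain ⟨B2, HT⟩ := aut_triv_r m hm
  obtain ⟨rr, hrr⟩ : ∃ rr : ℝ, rr = m * Real.log (1 + |(J : ℝ)|) := ⟨_, rfl⟩
  have hrr0 : 0 ≤ rr := by
    rw [hrr]
    exact mul_nonneg (Nat.cast_nonneg m) (Real.log_nonneg (by linarith [abs_nonneg (J : ℝ)]))
  obtain ⟨W, hW⟩ : ∃ W : ℝ, W = max (max C1 (|C2| * (1 + |(J : ℝ)|) ^ m))
    (Real.exp ((κ + 1) * rr / η + rr + 1)) := ⟨_, rfl⟩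
  have hW1 : 1 ≤ W := by
    rw [hW]
    exact le_trans (Real.one_le_exp (by positivity)) (le_max_right _ _)
  refine ⟨max B1 (B2 + 3 / 4 * Real.log W), ?_⟩
  intro N μ α e Λ hP hS y
  have hN := hS.1.one_le
  have hc := cnd_pos hN μ y
  have hL0 : 0 ≤ Real.log (cnd N μ y) := Real.log_nonneg hc
  obtain ⟨q, hq⟩ : ∃ q : ℝ, q = max (κ - r) 0 ^ 2 / (4 * κ) := ⟨_, rfl⟩
  have hq0 : 0 ≤ q := by rw [hq]; positivity
  rcases le_total (cnd N μ y) W with hsm | hbig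
  · refine (HT N μ α e Λ hS.1 y r hr hr1).trans (Real.exp_le_exp.2 ?_)
    rw [← hq]
    have h3 : Real.log (cnd N μ y) ≤ Real.log W := Real.log_le_log (by linarith) hsm
    have h4 := le_max_right B1 (B2 + 3 / 4 * Real.log W)
    have h5 : 0 ≤ (q + ε) * Real.log (cnd N μ y) := by positivity
    linarith
  · have hCa : C1 ≤ cnd N μ y := ((le_max_left _ _).trans ((le_max_left _ _).trans hW.ge)).trans hbig
    have hCb : |C2| * (1 + |(J : ℝ)|) ^ m ≤ cnd N μ y :=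
      ((le_max_right _ _).trans ((le_max_left _ _).trans hW.ge)).trans hbig
    have hL := lt_log (((le_max_right _ _).trans hW.ge).trans hbig)
    obtain ⟨L, hLd⟩ : ∃ L : ℝ, L = Real.log (cnd N μ y) := ⟨_, rfl⟩
    rw [← hLd] at hL hL0 ⊢
    have h8 : 0 ≤ (κ + 1) * rr / η := by positivity
    have hLp : 0 < L := by linarith
    obtain ⟨t, htd⟩ : ∃ t : ℝ, t = (κ + η) / L := ⟨_, rfl⟩
    have ht : 0 < t := by rw [htd]; positivity
    have htL : t * L = κ + η := by rw [htd]; field_simp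
    have htr : t * rr ≤ η := by
      rw [htd, div_mul_eq_mul_div, div_le_iff₀ hLp]
      have h9 : η * ((κ + 1) * rr / η) = (κ + 1) * rr := by field_simp
      have h10 : η * ((κ + 1) * rr / η) ≤ η * L := mul_le_mul_of_nonneg_left (by linarith) hη.le
      have h11 : (κ + η) * rr ≤ (κ + 1) * rr := mul_le_mul_of_nonneg_right (by linarith) hrr0
      linarith
    have hcov : Cnt (heat t (XX N Λ)) {z : ℂ | 1 / 2 + κ1 ≤ z.re ∧ |z.im - y| ≤ R} (κ1 * L) := by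
      have h9 : ∀ j : ℤ, |j| ≤ J → Cnt (heat t (XX N Λ))
          {z : ℂ | 1 / 2 + κ1 ≤ z.re ∧ |z.im - (y + j)| ≤ 1} (κ1 / (2 * (2 * J + 1)) * (2 * L)) := by
        intro j hj
        have hj' : |(j : ℝ)| ≤ J := by exact_mod_cast hj
        have hj2 : |(y + j) - y| ≤ |(J : ℝ)| := by
          rw [add_sub_cancel_left]
          exact hj'.trans (le_abs_self _)
        have h3 := cndm_shift (N := N) (by linarith) μ hj2
        have h6 := logm_shift hN μ hj2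
        rw [abs_sub_comm] at hj2
        have h7 := logm_shift hN μ hj2
        rw [← hrr] at h6 h7
        rw [← hLd] at h6 h7
        have h6' := mul_le_mul_of_nonneg_left h6 ht.le
        have h7' := mul_le_mul_of_nonneg_left h7 ht.le
        have h5 : 0 < (1 + |(J : ℝ)|) ^ m := by positivity
        have h10 := HH N μ α e Λ hP hS t (y + j) ht ((le_abs_self C2).trans
          (le_of_mul_le_mul_right (hCb.trans h3) h5)) (by linarith) (by linarith)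
        refine cnt_mono h10 subset_rfl ?_
        apply mul_le_mul_of_nonneg_left _ (by positivity)
        linarith
      refine cnt_mono (cnt_cover (J := J) (R := R) (by linarith [le_abs_self R]) (by positivity) h9)
        subset_rfl (le_of_eq ?_)
      field_simp
    have key := HZ N μ α e Λ hS.1 t y ht hCa (by rw [← hLd, htL]; linarith)
      (by rw [← hLd, htL]; linarith) (by rw [← hLd]; exact hcov) r hr hr1
    refine key.trans (Real.exp_le_exp.2 ?_)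
    rw [← hLd, htL]
    have h4 := le_max_left B1 (B2 + 3 / 4 * Real.log W)
    have h5 := (phx_lip (x := κ) (x' := κ + η) (η := η) hκ hr (by linarith) le_rfl).2
    unfold phx at h5
    have e1 : max (κ + η - r) 0 ^ 2 / (4 * (κ + η)) = max (κ + η - r) 0 ^ 2 / (2 * (κ + η)) / 2 := by
      field_simp
      ring
    have e2 : max (κ - r) 0 ^ 2 / (4 * κ) = max (κ - r) 0 ^ 2 / (2 * κ) / 2 := by
      field_simp
      ring
    have h6 : (max (κ + η - r) 0 ^ 2 / (4 * (κ + η)) + ε / 2) * L ≤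
        (max (κ - r) 0 ^ 2 / (4 * κ) + ε) * L := by
      apply mul_le_mul_of_nonneg_right _ hL0
      rw [e1, e2]
      linarith
    linarith

/-- the convexity bound -/
theorem aut_conv (m : ℕ) (hm : 1 ≤ m) {ε : ℝ} (hε : 0 < ε) :
    ∃ C0 B : ℝ, ∀ (N : ℝ) (μ : Fin m → ℂ) (α : Fin m → ℕ → ℂ) (e : ℂ) (Λ : ℂ → ℂ),
    DatumT (1 / 2) N μ α e Λ → (∀ s : ℂ, 1 < s.re → Λ s ≠ 0) → ∀ y : ℝ, C0 ≤ cnd N μ y →
      ∀ r : ℝ, 0 ≤ r → r ≤ 1 / 2 → ‖LL μ Λ (1 / 2 + (r : ℂ) + (y : ℂ) * I)‖ ≤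
        Real.exp (B + ((1 / 2 - r) / 2 + ε) * Real.log (cnd N μ y)) := by
  have hm' : (1 : ℝ) ≤ m := by exact_mod_cast hm
  obtain ⟨B, hB, HS⟩ := sharpX m hm (show (0 : ℝ) ≤ 1 / 2 by norm_num) le_rfl
    (show (0 : ℝ) < 1 / 2 by norm_num) (by norm_num)
  have hlogB : 0 ≤ Real.log B := Real.log_nonneg hB
  obtain ⟨ρ0, hρ0d⟩ : ∃ ρ0 : ℝ, ρ0 = min ε 1 := ⟨_, rfl⟩
  have hρ0 : 0 < ρ0 := by rw [hρ0d]; exact lt_min hε one_pos
  have hρ1 : ρ0 ≤ 1 := by rw [hρ0d]; exact min_le_right ε 1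
  have hρε : ρ0 ≤ ε := by rw [hρ0d]; exact min_le_left ε 1
  have hK : 1 ≤ Real.log B + 20 * (6 * m) := by linarith
  obtain ⟨R4, ℓ3, hR4, HP⟩ := prof_all (Real.log B + 20 * (6 * m)) (1 + 1 / 2 + 1 / 2 - 1 / 2) (1 / 2) ρ0 ρ0
    1 hK (by norm_num) (by norm_num) (by norm_num) (by norm_num) hρ0 hρ1 hρ0 le_rfl
  refine ⟨Real.exp (2 * |ℓ3| + 14 * m), 462 * m + 15 * m, ?_⟩
  intro N μ α e Λ d hnz y hC r hr hr1
  obtain ⟨S, hslow, hfe, hzer, hne⟩ := HS N μ α e Λ d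
  have hN1 := d.one_le
  have hNpos : 0 < N := by linarith
  have hN0 : (N : ℂ) ≠ 0 := by exact_mod_cast hNpos.ne'
  have hL : 2 * |ℓ3| + 14 * m ≤ Real.log (cnd N μ y) := by
    have := Real.log_le_log (Real.exp_pos _) hC
    rwa [Real.log_exp] at this
  have hlo := gaD_re_ge d.one_le d.re_le y
  have hup := gaD_re_le d.one_le d.re_le y
  change 1 / 2 * Real.log (cnd N μ y) - 7 * m ≤ _ at hlo
  change _ ≤ 1 / 2 * Real.log (cnd N μ y) + 5 * m at hup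
  obtain ⟨ℓ, hℓ⟩ : ∃ ℓ : ℝ, ℓ = (gaD N μ (3 / 2 + y * I)).re := ⟨_, rfl⟩
  have ha3 := le_abs_self ℓ3
  have hb3 := abs_nonneg ℓ3
  have ud := ud_of_sharp S hslow (by norm_num) y
  have pf := HP _ _ _ (by linarith) ud (fun u hu1 _ h => by
    unfold XX at h
    rcases mul_eq_zero.1 h with h | h
    · exact absurd (Complex.cpow_eq_zero_iff _ _ |>.1 h).1 hN0
    · exact hnz _ (by simp; linarith) h)
  have h5 := pf.upp r (by rw [ofReal_re, abs_of_nonneg hr]; linarith) (by simp)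
  have h6 := LL_le_r hm hN1 d.re_le Λ y hr (by linarith) h5
  rw [← hℓ] at h6 hlo hup
  refine h6.trans (Real.exp_le_exp.2 ?_)
  rw [ofReal_re, abs_of_nonneg hr, max_eq_right (by linarith)]
  have h7 : (1 / 2 - r + 2 * ρ0) * ℓ ≤ (1 / 2 - r + 2 * ρ0) * (1 / 2 * Real.log (cnd N μ y) + 5 * m) :=
    mul_le_mul_of_nonneg_left hup (by linarith)
  have h8 : ρ0 * Real.log (cnd N μ y) ≤ ε * Real.log (cnd N μ y) :=
    mul_le_mul_of_nonneg_right hρε (by linarith)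
  have h9 : (1 / 2 - r + 2 * ρ0) * (5 * m) ≤ 3 * (5 * m) := mul_le_mul_of_nonneg_right (by linarith) (by positivity)
  linarith

theorem conv_ser (hm : 1 ≤ m) (r : ℝ) (hr : 0 ≤ r) (hr1 : r ≤ 1 / 2) : SEr P r ((1 / 2 - r) / 2) := by
  intro ε hε
  obtain ⟨C0, B, H⟩ := aut_conv m hm hε
  obtain ⟨B2, HT⟩ := aut_triv_r m hm
  refine ⟨max B (B2 + 3 / 4 * Real.log (max C0 1)), fun N μ α e Λ hP hS y => ?_⟩
  have hc := cnd_pos hS.1.one_le μ y
  have hL0 : 0 ≤ Real.log (cnd N μ y) := Real.log_nonneg hc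
  rcases le_total (cnd N μ y) (max C0 1) with hsm | hbig
  · refine (HT N μ α e Λ hS.1 y r hr hr1).trans (Real.exp_le_exp.2 ?_)
    have h3 : Real.log (cnd N μ y) ≤ Real.log (max C0 1) := Real.log_le_log (by linarith) hsm
    have h4 := le_max_right B (B2 + 3 / 4 * Real.log (max C0 1))
    have h6 : 0 ≤ (1 / 2 - r) / 2 + ε := by linarith
    have h5 : 0 ≤ ((1 / 2 - r) / 2 + ε) * Real.log (cnd N μ y) := mul_nonneg h6 hL0
    linarith
  · refine (H N μ α e Λ hS.1 hS.2 y ((le_max_left _ _).trans hbig) r hr hr1).trans (Real.exp_le_exp.2 ?_)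
    have h4 := le_max_left B (B2 + 3 / 4 * Real.log (max C0 1))
    linarith

theorem se_ser (hm : 1 ≤ m) (hE : SE P 0) (r : ℝ) (hr : 0 ≤ r) (hr1 : r ≤ 1 / 2) : SEr P r 0 := by
  intro ε hε
  obtain ⟨R, κ', C0, B, hκ', H⟩ := aut_maj m hm hε
  obtain ⟨B2, HT⟩ := aut_triv_r m hm
  obtain ⟨B1, HB⟩ := hE (κ' / 2) (by positivity)
  obtain ⟨rr, hrr⟩ : ∃ rr : ℝ, rr = m * Real.log (1 + |R|) := ⟨_, rfl⟩
  have hrr0 : 0 ≤ rr := by
    rw [hrr]
    exact mul_nonneg (Nat.cast_nonneg m) (Real.log_nonneg (by linarith [abs_nonneg R]))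
  obtain ⟨W, hW⟩ : ∃ W : ℝ, W = max (max C0 1) (Real.exp (2 * (|B1| + κ' / 2 * rr) / κ')) := ⟨_, rfl⟩
  refine ⟨max B (B2 + 3 / 4 * Real.log W), fun N μ α e Λ hP hS y => ?_⟩
  have hc := cnd_pos hS.1.one_le μ y
  have hL0 : 0 ≤ Real.log (cnd N μ y) := Real.log_nonneg hc
  rcases le_total (cnd N μ y) W with hsm | hbig
  · refine (HT N μ α e Λ hS.1 y r hr hr1).trans (Real.exp_le_exp.2 ?_)
    have h3 : Real.log (cnd N μ y) ≤ Real.log W := Real.log_le_log (by linarith) hsm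
    have h4 := le_max_right B (B2 + 3 / 4 * Real.log W)
    have h5 : 0 ≤ (0 + ε) * Real.log (cnd N μ y) := by positivity
    linarith
  · have hL := lt_log (((le_max_right _ _).trans hW.ge).trans hbig)
    rw [div_le_iff₀ hκ'] at hL
    refine (H N μ α e Λ hS.1 hS.2 y ((((le_max_left _ _).trans (le_max_left _ _)).trans hW.ge).trans hbig)
      (fun v hv => ?_) r hr hr1).trans (Real.exp_le_exp.2 ?_)
    · refine (HB N μ α e Λ hP hS (y + v)).trans (Real.exp_le_exp.2 ?_)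
      have h5 := logm_shift hS.1.one_le μ (y := y + v) (y' := y) (R := R) (by
        rw [show y - (y + v) = -v by ring, abs_neg]
        exact hv.trans (le_abs_self R))
      rw [← hrr] at h5
      have h6 : (0 + κ' / 2) * Real.log (cnd N μ (y + v)) ≤ (0 + κ' / 2) * (Real.log (cnd N μ y) + rr) :=
        mul_le_mul_of_nonneg_left h5 (by positivity)
      have h7 := le_abs_self B1
      linarith
    · have h4 := le_max_left B (B2 + 3 / 4 * Real.log W)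
      linarith

lemma ser0 {a : ℝ} : SEr P 0 a ↔ SE P a := by
  unfold SEr SE
  have e : ∀ y : ℝ, (1 / 2 + ((0 : ℝ) : ℂ) + (y : ℂ) * I : ℂ) = 1 / 2 + (y : ℂ) * I := fun y => by
    push_cast; ring
  simp only [e]

theorem fz_one (h1 : S_HPX) (h2 : S_JEN) (h3 : S_NET) (hm : 1 ≤ m) : FZ P 1 := by
  refine ser_fz h1 h2 h3 hm one_pos le_rfl fun r hr hr1 => ser_mono ?_ (conv_ser hm r hr hr1)
  rw [max_eq_left (by linarith)]
  nlinarith [sq_nonneg r]

theorem fz_iff (h1 : S_HPX) (h2 : S_JEN) (h3 : S_NET) (h4 : S_TCZ) (h5 : S_INVX) (hm : 1 ≤ m) {κ : ℝ}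
    (hκ : 0 < κ) : FZ P κ ↔ ∀ r : ℝ, 0 ≤ r → r ≤ 1 / 2 → SEr P r (max (κ - r) 0 ^ 2 / (4 * κ)) := by
  constructor
  · intro h r hr hr1
    exact fz_ser h4 h5 hm hκ h r hr hr1
  · intro h
    rcases le_total κ 1 with hκ1 | hκ1
    · exact ser_fz h1 h2 h3 hm hκ hκ1 h
    · exact fz_mono hκ1 (fz_one h1 h2 h3 hm)

theorem glh_iff (h1 : S_HPX) (h2 : S_JEN) (h3 : S_NET) (h4 : S_TCZ) (h5 : S_INVX) (hm : 1 ≤ m) :
    SE P 0 ↔ ∀ κ : ℝ, 0 < κ → FZ P κ := by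
  constructor
  · intro h κ hκ
    refine (fz_iff h1 h2 h3 h4 h5 hm hκ).2 fun r hr hr1 => ser_mono (by positivity) (se_ser hm h r hr hr1)
  · intro h ε hε
    have h6 := (fz_iff h1 h2 h3 h4 h5 hm hε).1 (h ε hε) 0 le_rfl (by norm_num)
    rw [ser0, sub_zero, max_eq_left hε.le] at h6
    obtain ⟨B, HB⟩ := h6 (ε / 2) (by positivity)
    refine ⟨B, fun N μ α e Λ hP hS y => (HB N μ α e Λ hP hS y).trans (Real.exp_le_exp.2 ?_)⟩
    have h7 := Real.log_nonneg (cnd_pos hS.1.one_le μ y)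
    have e1 : ε ^ 2 / (4 * ε) = ε / 4 := by
      field_simp
    rw [e1]
    nlinarith

/-- the conductor of the problem and the local conductor, normalised data -/
lemma cnd_norm {N : ℝ} (hN : 1 ≤ N) (μ : Fin m → ℂ) (hm : 1 ≤ m) (hsum : ∑ j, (μ j).im = 0) (y : ℝ) :
    Real.log ((1 + |y|) * (N * ∏ j, (1 + ‖μ j‖))) ≤ (m + 2) * Real.log (cnd N μ y) ∧
    Real.log (cnd N μ y) ≤ m * Real.log ((1 + |y|) * (N * ∏ j, (1 + ‖μ j‖))) := by
  have hm' : (1 : ℝ) ≤ m := by exact_mod_cast hm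
  have hy := abs_nonneg y
  have hc := cnd_pos hN μ y
  have hp1 : 1 ≤ ∏ j, (1 + ‖μ j‖) := by
    refine Finset.prod_induction _ (fun x => (1 : ℝ) ≤ x) (fun a b ha hb => ?_) le_rfl fun j _ => ?_
    · nlinarith
    · linarith [norm_nonneg (μ j)]
  have hC : 1 ≤ N * ∏ j, (1 + ‖μ j‖) := by nlinarith
  have hC2 : 1 ≤ (1 + |y|) * (N * ∏ j, (1 + ‖μ j‖)) := by nlinarith
  -- comparison of products
  have hA : ∏ j, (1 + ‖(y : ℂ) * I - μ j‖) ≤ (1 + |y|) ^ m * ∏ j, (1 + ‖μ j‖) := by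
    have h1 : ∀ j, 1 + ‖(y : ℂ) * I - μ j‖ ≤ (1 + |y|) * (1 + ‖μ j‖) := fun j => by
      have h2 := norm_sub_le ((y : ℂ) * I) (μ j)
      rw [norm_mul, Complex.norm_real, Complex.norm_I, mul_one, Real.norm_eq_abs] at h2
      have := norm_nonneg (μ j)
      nlinarith
    have h2 := Finset.prod_le_prod (s := (Finset.univ : Finset (Fin m))) (fun j _ => by positivity)
      fun j _ => h1 j
    rwa [Finset.prod_mul_distrib, Finset.prod_const, Finset.card_univ, Fintype.card_fin] at h2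
  have hB : ∏ j, (1 + ‖μ j‖) ≤ (1 + |y|) ^ m * ∏ j, (1 + ‖(y : ℂ) * I - μ j‖) := by
    have h1 : ∀ j, 1 + ‖μ j‖ ≤ (1 + |y|) * (1 + ‖(y : ℂ) * I - μ j‖) := fun j => by
      have h2 := norm_sub_le ((y : ℂ) * I) ((y : ℂ) * I - μ j)
      rw [sub_sub_cancel, norm_mul, Complex.norm_real, Complex.norm_I, mul_one, Real.norm_eq_abs] at h2
      have := norm_nonneg ((y : ℂ) * I - μ j)
      nlinarith
    have h2 := Finset.prod_le_prod (s := (Finset.univ : Finset (Fin m))) (fun j _ => by positivity)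
      fun j _ => h1 j
    rwa [Finset.prod_mul_distrib, Finset.prod_const, Finset.card_univ, Fintype.card_fin] at h2
  -- the height
  have hD : 1 + |y| ≤ ∏ j, (1 + ‖(y : ℂ) * I - μ j‖) := by
    have h1 : |y| ≤ ∑ j, ‖(y : ℂ) * I - μ j‖ := by
      have h2 : ∑ j, ((y : ℂ) * I - μ j).im = m * y := by
        simp only [sub_im, mul_im, ofReal_re, I_im, mul_one, ofReal_im, I_re, mul_zero, add_zero]
        rw [Finset.sum_sub_distrib, hsum, Finset.sum_const, Finset.card_univ, Fintype.card_fin, nsmul_eq_mul,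
          sub_zero]
      have h3 : |(m : ℝ) * y| ≤ ∑ j, ‖(y : ℂ) * I - μ j‖ := by
        rw [← h2]
        refine (Finset.abs_sum_le_sum_abs _ _).trans (Finset.sum_le_sum fun j _ => abs_im_le_norm _)
      rw [abs_mul, abs_of_nonneg (by linarith : (0 : ℝ) ≤ m)] at h3
      nlinarith
    have h4 : ∀ s : Finset (Fin m), 1 + ∑ j ∈ s, ‖(y : ℂ) * I - μ j‖ ≤
        ∏ j ∈ s, (1 + ‖(y : ℂ) * I - μ j‖) := by
      classical
      intro s
      induction s using Finset.induction_on with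
      | empty => simp
      | insert a s ha ih =>
        rw [Finset.sum_insert ha, Finset.prod_insert ha]
        have h5 := norm_nonneg ((y : ℂ) * I - μ a)
        have h6 : 0 ≤ ∑ j ∈ s, ‖(y : ℂ) * I - μ j‖ := Finset.sum_nonneg fun j _ => norm_nonneg _
        nlinarith
    linarith [h4 Finset.univ]
  have hD' : 1 + |y| ≤ cnd N μ y := by
    unfold cnd
    nlinarith
  have hlog1 : 0 ≤ Real.log (cnd N μ y) := Real.log_nonneg hc
  constructor
  · have h1 : (1 + |y|) * (N * ∏ j, (1 + ‖μ j‖)) ≤ cnd N μ y ^ (m + 2) := by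
      calc (1 + |y|) * (N * ∏ j, (1 + ‖μ j‖)) ≤
          (1 + |y|) * (N * ((1 + |y|) ^ m * ∏ j, (1 + ‖(y : ℂ) * I - μ j‖))) := by gcongr
        _ = (1 + |y|) * ((1 + |y|) ^ m * cnd N μ y) := by unfold cnd; ring
        _ ≤ cnd N μ y * (cnd N μ y ^ m * cnd N μ y) := by gcongr
        _ = _ := by ring
    have h2 := Real.log_le_log (by linarith) h1
    rw [Real.log_pow] at h2
    push_cast at h2
    exact h2
  · have h1 : cnd N μ y ≤ ((1 + |y|) * (N * ∏ j, (1 + ‖μ j‖))) ^ m := by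
      calc cnd N μ y ≤ N * ((1 + |y|) ^ m * ∏ j, (1 + ‖μ j‖)) := by
            unfold cnd
            gcongr
        _ = (1 + |y|) ^ m * (N * ∏ j, (1 + ‖μ j‖)) := by ring
        _ ≤ (1 + |y|) ^ m * (N * ∏ j, (1 + ‖μ j‖)) ^ m := by
            apply mul_le_mul_of_nonneg_left _ (by positivity)
            exact le_self_pow₀ hC (by omega)
        _ = _ := by rw [← mul_pow]
    have h2 := Real.log_le_log (by linarith) h1
    rwa [Real.log_pow] at h2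

end Pool.Agent.W169.HF
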