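import Pool.Agent.W169.HF.Loc2

/-!
# Project SC: the gamma factor on the right of the critical line, and the finite L-function
-/

set_option autoImplicit false

open Complex Set MeasureTheory intervalIntegral Filter Topology
open scoped ComplexConjugate NNReal ENNReal

namespace Pool.Agent.W169.HF

open H353.E H353.F

/-- the finite L-function: the completed one divided by the gamma factors -/
noncomputable def LL {m : ℕ} (μ : Fin m → ℂ) (Λ : ℂ → ℂ) (s : ℂ) : ℂ :=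
  Λ s * ∏ j, (Gammaℝ (s - μ j))⁻¹

lemma LL_diff {m : ℕ} {μ : Fin m → ℂ} {Λ : ℂ → ℂ} (h : Differentiable ℂ Λ) : Differentiable ℂ (LL μ Λ) := by
  unfold LL
  refine h.mul (Differentiable.fun_finsetProd fun j _ => ?_)
  exact Complex.differentiable_Gammaℝ_inv.comp (differentiable_id.sub_const (μ j))

lemma LL_eq {m : ℕ} {N : ℝ} (hN : 0 < N) (μ : Fin m → ℂ) (Λ : ℂ → ℂ) (s : ℂ) :
    LL μ Λ s = XX N Λ s * (gaf N μ s)⁻¹ := by
  unfold LL XX gaf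
  have h : (N : ℂ) ^ (s / 2) ≠ 0 := by
    rw [Ne, Complex.cpow_eq_zero_iff]
    rintro ⟨h, -⟩
    exact hN.ne' (by exact_mod_cast h)
  rw [mul_inv, ← Finset.prod_inv_distrib]
  field_simp

variable {m : ℕ} {N : ℝ} {μ : Fin m → ℂ}

lemma gaf_add_two (hN : 0 < N) {s : ℂ} (hs : ∀ j, s - μ j ≠ 0) :
    gaf N μ (s + 2) = gaf N μ s * (N * ∏ j, ((s - μ j) / 2 / Real.pi)) := by
  unfold gaf
  have h1 : (N : ℂ) ^ ((s + 2) / 2) = (N : ℂ) ^ (s / 2) * N := by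
    rw [show (s + 2) / 2 = s / 2 + 1 by ring, cpow_add _ _ (by exact_mod_cast hN.ne'), cpow_one]
  have h2 : ∀ j, Gammaℝ (s + 2 - μ j) = Gammaℝ (s - μ j) * ((s - μ j) / 2 / Real.pi) := fun j => by
    rw [show s + 2 - μ j = s - μ j + 2 by ring, Gammaℝ_add_two (hs j)]
    ring
  rw [h1, Finset.prod_congr rfl fun j _ => h2 j, Finset.prod_mul_distrib]
  ring

lemma norm_fac (hN : 0 < N) (s : ℂ) :
    ‖((N : ℂ) * ∏ j, ((s - μ j) / 2 / Real.pi))‖ = N * ∏ j, (‖s - μ j‖ / (2 * Real.pi)) := by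
  rw [norm_mul, norm_prod, Complex.norm_real, Real.norm_eq_abs, abs_of_pos hN]
  congr 1
  refine Finset.prod_congr rfl fun j _ => ?_
  rw [norm_div, norm_div, Complex.norm_real, Real.norm_eq_abs, abs_of_pos Real.pi_pos, Complex.norm_ofNat,
    div_div]

lemma sq2 (u : ℂ) : 1 + ‖u + 2‖ ^ 2 ≤ 9 * (1 + ‖u‖ ^ 2) := by
  have h1 : ‖u + 2‖ ≤ ‖u‖ + 2 := by
    refine (norm_add_le _ _).trans ?_
    simp
  have h2 := norm_nonneg u
  have h3 : ‖u + 2‖ ^ 2 ≤ (‖u‖ + 2) ^ 2 := pow_le_pow_left₀ (norm_nonneg _) h1 2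
  nlinarith [sq_nonneg (‖u‖ - 1)]

lemma bd_exp {a M : ℝ} (h0 : 0 ≤ a) (h : a ≤ M) (k : ℕ) : a ^ k ≤ Real.exp (k * M) := by
  have h1 : a ≤ Real.exp M := h.trans (by linarith [Real.add_one_le_exp M])
  calc a ^ k ≤ Real.exp M ^ k := pow_le_pow_left₀ h0 h1 k
    _ = Real.exp (k * M) := by rw [← Real.exp_nat_mul]

lemma cnd_exp (hN : 1 ≤ N) (y : ℝ) : cnd N μ y = Real.exp (Real.log (cnd N μ y)) :=
  (Real.exp_log (lt_of_lt_of_le (by linarith) (le_cnd hN μ y))).symm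

/-- upper bound for the product of the linear factors -/
lemma fac_le (hN : 1 ≤ N) (y : ℝ) (u : ℂ) :
    N * ∏ j, (‖1 / 2 + (y : ℂ) * I + u - μ j‖ / (2 * Real.pi)) ≤
      cnd N μ y * Real.exp (m * (1 + ‖u‖ ^ 2)) := by
  have hN0 : 0 < N := by linarith
  have hpi := Real.pi_gt_three
  have hu := norm_nonneg u
  have h1 : ∀ j, ‖1 / 2 + (y : ℂ) * I + u - μ j‖ / (2 * Real.pi) ≤
      (1 + ‖(y : ℂ) * I - μ j‖) * Real.exp (1 + ‖u‖ ^ 2) := fun j => by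
    have h2 : ‖1 / 2 + (y : ℂ) * I + u - μ j‖ ≤ 1 / 2 + ‖u‖ + ‖(y : ℂ) * I - μ j‖ := by
      have e : 1 / 2 + (y : ℂ) * I + u - μ j = (1 / 2 + u) + (y * I - μ j) := by ring
      rw [e]
      refine (norm_add_le _ _).trans ?_
      have := norm_add_le (1 / 2 : ℂ) u
      have e2 : ‖(1 / 2 : ℂ)‖ = 1 / 2 := by simp
      linarith
    have h3 : ‖1 / 2 + (y : ℂ) * I + u - μ j‖ / (2 * Real.pi) ≤ ‖1 / 2 + (y : ℂ) * I + u - μ j‖ :=
      div_le_self (norm_nonneg _) (by linarith)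
    have h4 := norm_nonneg ((y : ℂ) * I - μ j)
    have h5 : 1 + ‖u‖ ≤ Real.exp (1 + ‖u‖ ^ 2) := by
      have := Real.add_one_le_exp (1 + ‖u‖ ^ 2)
      nlinarith [sq_nonneg (‖u‖ - 1)]
    have h6 : 1 / 2 + ‖u‖ + ‖(y : ℂ) * I - μ j‖ ≤ (1 + ‖(y : ℂ) * I - μ j‖) * (1 + ‖u‖) := by nlinarith
    calc _ ≤ _ := h3
      _ ≤ _ := h2
      _ ≤ _ := h6
      _ ≤ _ := mul_le_mul_of_nonneg_left h5 (by linarith)
  have h7 : ∏ j, (‖1 / 2 + (y : ℂ) * I + u - μ j‖ / (2 * Real.pi)) ≤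
      ∏ j, ((1 + ‖(y : ℂ) * I - μ j‖) * Real.exp (1 + ‖u‖ ^ 2)) :=
    Finset.prod_le_prod (fun j _ => by positivity) fun j _ => h1 j
  rw [Finset.prod_mul_distrib, Finset.prod_const, Finset.card_univ, Fintype.card_fin,
    ← Real.exp_nat_mul] at h7
  unfold cnd
  calc N * ∏ j, (‖1 / 2 + (y : ℂ) * I + u - μ j‖ / (2 * Real.pi)) ≤
      N * ((∏ j, (1 + ‖(y : ℂ) * I - μ j‖)) * Real.exp (m * (1 + ‖u‖ ^ 2))) :=
        mul_le_mul_of_nonneg_left h7 hN0.le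
    _ = _ := by ring

/-- lower bound for the product of the linear factors -/
lemma le_fac (hN : 1 ≤ N) (hμ : ∀ j, (μ j).re ≤ 1 / 2) (y : ℝ) {ρ : ℝ} (hρ : 0 < ρ) (hρ1 : ρ ≤ 1) {u : ℂ}
    (hu : ρ ≤ u.re) : cnd N μ y ≤
      N * (∏ j, (‖1 / 2 + (y : ℂ) * I + u - μ j‖ / (2 * Real.pi))) *
        Real.exp (m * (25 / ρ * (1 + ‖u‖ ^ 2))) := by
  have hN0 : 0 < N := by linarith
  have hpi := Real.pi_gt_three
  have hpi' : Real.pi < 3.15 := Real.pi_lt_d2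
  have hu0 := norm_nonneg u
  have h1 : ∀ j, 1 + ‖(y : ℂ) * I - μ j‖ ≤ (‖1 / 2 + (y : ℂ) * I + u - μ j‖ / (2 * Real.pi)) *
      Real.exp (25 / ρ * (1 + ‖u‖ ^ 2)) := fun j => by
    have h2 : ‖(y : ℂ) * I - μ j‖ ≤ ‖1 / 2 + (y : ℂ) * I + u - μ j‖ + (1 / 2 + ‖u‖) := by
      have e : (y : ℂ) * I - μ j = (1 / 2 + (y : ℂ) * I + u - μ j) - (1 / 2 + u) := by ring
      rw [e]
      refine (norm_sub_le _ _).trans ?_
      have := norm_add_le (1 / 2 : ℂ) u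
      have e2 : ‖(1 / 2 : ℂ)‖ = 1 / 2 := by simp
      linarith
    have h3 : ρ ≤ ‖1 / 2 + (y : ℂ) * I + u - μ j‖ := by
      refine le_trans ?_ (re_le_norm _)
      simp
      linarith [hμ j]
    obtain ⟨w, hw⟩ : ∃ w : ℝ, w = ‖1 / 2 + (y : ℂ) * I + u - μ j‖ := ⟨_, rfl⟩
    rw [← hw] at h2 h3 ⊢
    have hw0 : 0 < w := by linarith
    have h5 : 25 / ρ * (1 + ‖u‖ ^ 2) ≤ Real.exp (25 / ρ * (1 + ‖u‖ ^ 2)) := by
      linarith [Real.add_one_le_exp (25 / ρ * (1 + ‖u‖ ^ 2))]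
    have h6 : 1 + ‖(y : ℂ) * I - μ j‖ ≤ w + (3 / 2 + ‖u‖) := by linarith
    have h7 : w + (3 / 2 + ‖u‖) ≤ w / ρ * (5 / 2 + ‖u‖) := by
      rw [div_mul_eq_mul_div, le_div_iff₀ hρ]
      nlinarith [mul_nonneg (sub_nonneg.2 h3) hu0, mul_nonneg hw0.le hu0]
    have h8 : w / ρ * (5 / 2 + ‖u‖) ≤ w / (2 * Real.pi) * (25 / ρ * (1 + ‖u‖ ^ 2)) := by
      rw [div_mul_eq_mul_div, div_mul_eq_mul_div, div_le_div_iff₀ hρ (by positivity)]
      have h9 : (5 / 2 + ‖u‖) * (2 * Real.pi) ≤ 25 * (1 + ‖u‖ ^ 2) := by nlinarith [sq_nonneg (‖u‖ - 1)]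
      have e9 : w * (25 / ρ * (1 + ‖u‖ ^ 2)) * ρ = w * (25 * (1 + ‖u‖ ^ 2)) := by field_simp
      rw [e9]
      have := mul_le_mul_of_nonneg_left h9 hw0.le
      linarith
    calc _ ≤ _ := h6
      _ ≤ _ := h7
      _ ≤ _ := h8
      _ ≤ _ := mul_le_mul_of_nonneg_left h5 (by positivity)
  have h7 : ∏ j, (1 + ‖(y : ℂ) * I - μ j‖) ≤ ∏ j, ((‖1 / 2 + (y : ℂ) * I + u - μ j‖ / (2 * Real.pi)) *
      Real.exp (25 / ρ * (1 + ‖u‖ ^ 2))) :=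
    Finset.prod_le_prod (fun j _ => by positivity) fun j _ => h1 j
  rw [Finset.prod_mul_distrib, Finset.prod_const, Finset.card_univ, Fintype.card_fin,
    ← Real.exp_nat_mul] at h7
  unfold cnd
  calc N * ∏ j, (1 + ‖(y : ℂ) * I - μ j‖) ≤ N * ((∏ j, (‖1 / 2 + (y : ℂ) * I + u - μ j‖ / (2 * Real.pi))) *
      Real.exp (m * (25 / ρ * (1 + ‖u‖ ^ 2)))) := mul_le_mul_of_nonneg_left h7 hN0.le
    _ = _ := by ring

/-- the inverse of the gamma factor on the right of the critical line -/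
theorem gam_inv (hm : 1 ≤ m) (hN : 1 ≤ N) (hμ : ∀ j, (μ j).re ≤ 1 / 2) (y : ℝ) {u : ℂ} (hu : 0 ≤ u.re) :
    ‖(gaf N μ (1 / 2 + (y : ℂ) * I + u))⁻¹‖ ≤
      (‖gaf N μ (3 / 2 + y * I)‖ * Real.exp (-(gaD N μ (3 / 2 + y * I)).re))⁻¹ *
      Real.exp (-((gaD N μ (3 / 2 + y * I)).re * u.re) + 231 * m * (1 + ‖u‖ ^ 2)) := by
  have hN0 : 0 < N := by linarith
  have hm' : (1 : ℝ) ≤ m := by exact_mod_cast hm
  have gp := gaf_GP hm hN hμ
  obtain ⟨ℓ, hℓ⟩ : ∃ ℓ : ℝ, ℓ = (gaD N μ (3 / 2 + y * I)).re := ⟨_, rfl⟩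
  obtain ⟨G, hG⟩ : ∃ G : ℝ, G = ‖gaf N μ (3 / 2 + y * I)‖ * Real.exp (-ℓ) := ⟨_, rfl⟩
  rw [← hℓ, ← hG]
  have hs1 : 1 ≤ (3 / 2 + y * I : ℂ).re := by simp; norm_num
  have hGpos : 0 < G := by
    rw [hG]
    have := norm_pos_iff.2 (gp.ne _ hs1)
    positivity
  obtain ⟨s, hs⟩ : ∃ s : ℂ, s = 1 / 2 + (y : ℂ) * I + u := ⟨_, rfl⟩
  rw [← hs]
  by_cases hz : ∀ j, s - μ j ≠ 0
  · have h1 := gaf_add_two hN0 hz
    have h2 := (gam_loc gp y (u := u + 2) (by simp; linarith)).2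
    rw [← hℓ, ← hG, show (1 / 2 + (y : ℂ) * I + (u + 2) : ℂ) = s + 2 by rw [hs]; ring] at h2
    have h3 : 0 < ‖gaf N μ (s + 2)‖ := lt_of_lt_of_le (by positivity) h2
    have h4 : (gaf N μ s)⁻¹ = (gaf N μ (s + 2))⁻¹ * (N * ∏ j, ((s - μ j) / 2 / Real.pi)) := by
      have h5 : gaf N μ (s + 2) ≠ 0 := norm_pos_iff.1 h3
      have h6 : gaf N μ s ≠ 0 := fun h => h5 (by rw [h1, h, zero_mul])
      have h7 : (N * ∏ j, ((s - μ j) / 2 / Real.pi) : ℂ) ≠ 0 := fun h => h5 (by rw [h1, h, mul_zero])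
      rw [h1, mul_inv, mul_assoc, inv_mul_cancel₀ h7, mul_one]
    rw [h4, norm_mul, norm_fac hN0, norm_inv]
    have h5 := fac_le (μ := μ) hN y u
    rw [← hs, cnd_exp hN] at h5
    have hlo := gaD_re_ge hN hμ y
    change 1 / 2 * Real.log (cnd N μ y) - 7 * m ≤ _ at hlo
    rw [← hℓ] at hlo
    have h6 : ‖gaf N μ (s + 2)‖⁻¹ ≤ (G * Real.exp (ℓ * (u + 2).re - 4 * (6 * m) * (1 + ‖u + 2‖ ^ 2)))⁻¹ :=
      inv_anti₀ (by positivity) h2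
    have h7 := sq2 u
    have h8 : 0 ≤ ‖u‖ ^ 2 := by positivity
    calc ‖gaf N μ (s + 2)‖⁻¹ * (N * ∏ j, (‖s - μ j‖ / (2 * Real.pi))) ≤
        (G * Real.exp (ℓ * (u + 2).re - 4 * (6 * m) * (1 + ‖u + 2‖ ^ 2)))⁻¹ *
        (Real.exp (Real.log (cnd N μ y)) * Real.exp (m * (1 + ‖u‖ ^ 2))) :=
          mul_le_mul h6 h5 (by positivity) (by positivity)
      _ = G⁻¹ * Real.exp (-(ℓ * (u + 2).re - 4 * (6 * m) * (1 + ‖u + 2‖ ^ 2)) + Real.log (cnd N μ y) +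
          m * (1 + ‖u‖ ^ 2)) := by
          rw [mul_inv, ← Real.exp_neg, Real.exp_add (_ + _), Real.exp_add]
          ring
      _ ≤ _ := by
          apply mul_le_mul_of_nonneg_left _ (by positivity)
          apply Real.exp_le_exp.2
          have e : (u + 2).re = u.re + 2 := by simp
          rw [e]
          nlinarith
  · push Not at hz
    obtain ⟨j, hj⟩ := hz
    have h1 : gaf N μ s = 0 := by
      unfold gaf
      rw [Finset.prod_eq_zero (Finset.mem_univ j), mul_zero]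
      rw [hj, Gammaℝ_eq_zero_iff]
      exact ⟨0, by simp⟩
    rw [h1, inv_zero, norm_zero]
    positivity

/-- upper bound for the gamma factor on the right of the critical line -/
theorem gam_up (hm : 1 ≤ m) (hN : 1 ≤ N) (hμ : ∀ j, (μ j).re ≤ 1 / 2) (y : ℝ) {ρ : ℝ} (hρ : 0 < ρ)
    (hρ1 : ρ ≤ 1) {u : ℂ} (hu : ρ ≤ u.re) :
    gaf N μ (1 / 2 + (y : ℂ) * I + u) ≠ 0 ∧ ‖gaf N μ (1 / 2 + (y : ℂ) * I + u)‖ ≤
      (‖gaf N μ (3 / 2 + y * I)‖ * Real.exp (-(gaD N μ (3 / 2 + y * I)).re)) *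
      Real.exp ((gaD N μ (3 / 2 + y * I)).re * u.re + (226 * m + 25 * m / ρ) * (1 + ‖u‖ ^ 2)) := by
  have hN0 : 0 < N := by linarith
  have hm' : (1 : ℝ) ≤ m := by exact_mod_cast hm
  have gp := gaf_GP hm hN hμ
  obtain ⟨ℓ, hℓ⟩ : ∃ ℓ : ℝ, ℓ = (gaD N μ (3 / 2 + y * I)).re := ⟨_, rfl⟩
  obtain ⟨G, hG⟩ : ∃ G : ℝ, G = ‖gaf N μ (3 / 2 + y * I)‖ * Real.exp (-ℓ) := ⟨_, rfl⟩
  rw [← hℓ, ← hG]
  have hs1 : 1 ≤ (3 / 2 + y * I : ℂ).re := by simp; norm_num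
  have hGpos : 0 < G := by
    rw [hG]
    have := norm_pos_iff.2 (gp.ne _ hs1)
    positivity
  obtain ⟨s, hs⟩ : ∃ s : ℂ, s = 1 / 2 + (y : ℂ) * I + u := ⟨_, rfl⟩
  have hre : ∀ j, 0 < (s - μ j).re := fun j => by
    rw [hs]
    simp
    linarith [hμ j]
  have hz : ∀ j, s - μ j ≠ 0 := fun j h => by
    have := hre j
    rw [h] at this
    simp at this
  have hle := le_fac hN hμ y hρ hρ1 hu
  rw [← hs] at hle ⊢
  have h0 : gaf N μ s ≠ 0 := by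
    unfold gaf
    refine mul_ne_zero ?_ (Finset.prod_ne_zero_iff.mpr fun j _ => Gammaℝ_ne_zero_of_re_pos (hre j))
    rw [cpow_def_of_ne_zero (by exact_mod_cast hN0.ne')]
    exact Complex.exp_ne_zero _
  refine ⟨h0, ?_⟩
  have h1 := gaf_add_two hN0 hz
  have h2 := (gam_loc gp y (u := u + 2) (by simp; linarith)).1
  rw [← hℓ, ← hG, show (1 / 2 + (y : ℂ) * I + (u + 2) : ℂ) = s + 2 by rw [hs]; ring, h1, norm_mul,
    norm_fac hN0] at h2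
  obtain ⟨P, hP⟩ : ∃ P : ℝ, P = N * ∏ j, (‖s - μ j‖ / (2 * Real.pi)) := ⟨_, rfl⟩
  rw [← hP] at h2 hle
  rw [cnd_exp hN] at hle
  have hup := gaD_re_le hN hμ y
  change _ ≤ 1 / 2 * Real.log (cnd N μ y) + 5 * m at hup
  rw [← hℓ] at hup
  have hPpos : 0 < P := by
    by_contra hcon
    push Not at hcon
    have := mul_nonpos_of_nonpos_of_nonneg hcon (Real.exp_pos (m * (25 / ρ * (1 + ‖u‖ ^ 2)))).le
    linarith [Real.exp_pos (Real.log (cnd N μ y))]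
  have h7 := sq2 u
  have h8 : 0 ≤ ‖u‖ ^ 2 := by positivity
  have e25 : (m : ℝ) * (25 / ρ * (1 + ‖u‖ ^ 2)) = 25 * m / ρ * (1 + ‖u‖ ^ 2) := by ring
  rw [e25] at hle
  have h9 : P⁻¹ ≤ Real.exp (-Real.log (cnd N μ y)) * Real.exp (25 * m / ρ * (1 + ‖u‖ ^ 2)) := by
    rw [inv_le_iff_one_le_mul₀ hPpos]
    calc (1 : ℝ) = Real.exp (-Real.log (cnd N μ y)) * Real.exp (Real.log (cnd N μ y)) := by
          rw [← Real.exp_add]; simp
      _ ≤ Real.exp (-Real.log (cnd N μ y)) * (P * Real.exp (25 * m / ρ * (1 + ‖u‖ ^ 2))) := by gcongr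
      _ = _ := by ring
  calc ‖gaf N μ s‖ = ‖gaf N μ s‖ * P * P⁻¹ := by field_simp
    _ ≤ G * Real.exp (ℓ * (u + 2).re + 4 * (6 * m) * (1 + ‖u + 2‖ ^ 2)) *
        (Real.exp (-Real.log (cnd N μ y)) * Real.exp (25 * m / ρ * (1 + ‖u‖ ^ 2))) :=
          mul_le_mul h2 h9 (by positivity) (by positivity)
    _ = G * Real.exp (ℓ * (u + 2).re + 4 * (6 * m) * (1 + ‖u + 2‖ ^ 2) + -Real.log (cnd N μ y) +
        25 * m / ρ * (1 + ‖u‖ ^ 2)) := by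
          rw [Real.exp_add (_ + _), Real.exp_add (ℓ * (u + 2).re + 4 * (6 * m) * (1 + ‖u + 2‖ ^ 2))]
          ring
    _ ≤ _ := by
          apply mul_le_mul_of_nonneg_left _ hGpos.le
          apply Real.exp_le_exp.2
          have e : (u + 2).re = u.re + 2 := by simp
          rw [e]
          have h10 : (226 * m + 25 * m / ρ) * (1 + ‖u‖ ^ 2) =
            226 * m * (1 + ‖u‖ ^ 2) + 25 * m / ρ * (1 + ‖u‖ ^ 2) := by ring
          rw [h10]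
          nlinarith

end Pool.Agent.W169.HF
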