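import Pool.Agent.W169.HF.Defs

/-!
# Laplace's method on a half-line: representation and Gaussian integrals
-/

set_option autoImplicit false

open Complex MeasureTheory Filter Topology Set
open scoped ComplexConjugate

namespace Pool.Agent.W169.HF

variable {K a ℓ : ℝ} {g P : ℝ → ℂ}

theorem RP.rep (h : RP K a ℓ g P) (hK : 0 ≤ K) {u0 u : ℝ} (h0 : a ≤ u0) (hu : a ≤ u) :
    ∃ R : ℂ, ‖R‖ ≤ K * (u - u0) ^ 2 ∧ g u = g u0 * cexp (P u0 * ((u - u0 : ℝ) : ℂ) + R) := by
  have hPt : Continuous (fun v : ℝ => P (max a v)) := by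
    have hl : LipschitzWith (Real.toNNReal K) (fun v : ℝ => P (max a v)) := by
      apply LipschitzWith.of_dist_le_mul
      intro x y
      rw [dist_eq_norm, Real.dist_eq, Real.coe_toNNReal K hK]
      refine (h.lip _ _ (le_max_left _ _) (le_max_left _ _)).trans ?_
      apply mul_le_mul_of_nonneg_left _ hK
      exact (abs_max_sub_max_le_max a x a y).trans (by simp)
    exact hl.continuous
  obtain ⟨G, hG⟩ : ∃ G : ℝ → ℂ, G = fun v => ∫ s in u0..v, (P (max a s) - P u0) := ⟨_, rfl⟩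
  have hGd : ∀ v, HasDerivAt G (P (max a v) - P u0) v := by
    intro v
    rw [hG]
    have hc : Continuous (fun s : ℝ => P (max a s) - P u0) := hPt.sub continuous_const
    exact intervalIntegral.integral_hasDerivAt_right (hc.intervalIntegrable _ _)
      (hc.stronglyMeasurableAtFilter _ _) hc.continuousAt
  have hFd : ∀ v, a ≤ v → HasDerivAt (fun v : ℝ => g v * cexp (-(P u0 * ((v - u0 : ℝ) : ℂ)) - G v)) 0 v := by
    intro v hv
    have h1 := h.der v hv
    have h2 : HasDerivAt (fun v : ℝ => ((v - u0 : ℝ) : ℂ)) 1 v := by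
      have := ((hasDerivAt_id v).sub_const u0).ofReal_comp
      simpa using this
    have h3 := ((h2.const_mul (P u0)).neg.sub (hGd v)).cexp
    have h4 := h1.mul h3
    refine h4.congr_deriv ?_
    rw [max_eq_right hv]
    simp only [Pi.neg_apply, Pi.sub_apply]
    ring
  have hconst : g u * cexp (-(P u0 * ((u - u0 : ℝ) : ℂ)) - G u) = g u0 := by
    have hG0 : G u0 = 0 := by rw [hG]; simp
    have key : ∀ x y : ℝ, a ≤ x → x ≤ y →
        g y * cexp (-(P u0 * ((y - u0 : ℝ) : ℂ)) - G y) = g x * cexp (-(P u0 * ((x - u0 : ℝ) : ℂ)) - G x) := by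
      intro x y hx hxy
      exact constant_of_has_deriv_right_zero (a := x) (b := y)
        (f := fun v : ℝ => g v * cexp (-(P u0 * ((v - u0 : ℝ) : ℂ)) - G v))
        (fun v hv => (hFd v (hx.trans hv.1)).continuousAt.continuousWithinAt)
        (fun v hv => (hFd v (hx.trans hv.1)).hasDerivWithinAt) y ⟨hxy, le_rfl⟩
    have e0 : g u0 * cexp (-(P u0 * ((u0 - u0 : ℝ) : ℂ)) - G u0) = g u0 := by
      rw [hG0]; simp
    rcases le_total u0 u with hle | hle
    · rw [key u0 u h0 hle, e0]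
    · rw [← key u u0 hu hle, e0]
  refine ⟨G u, ?_, ?_⟩
  · rw [hG]
    have h1 : ∀ s ∈ Set.uIoc u0 u, ‖P (max a s) - P u0‖ ≤ K * |u - u0| := by
      intro s hs
      have h2 := h.lip (max a s) u0 (le_max_left _ _) h0
      refine h2.trans (mul_le_mul_of_nonneg_left ?_ hK)
      rw [mem_uIoc] at hs
      rcases hs with hs | hs
      · rw [max_eq_right (by linarith [hs.1])]
        rw [abs_of_nonneg (by linarith [hs.1]), abs_of_nonneg (by linarith [hs.1, hs.2])]
        linarith [hs.2]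
      · rw [max_eq_right (by linarith [hs.1])]
        rw [abs_of_nonpos (by linarith [hs.2]), abs_of_nonpos (by linarith [hs.1, hs.2])]
        linarith [hs.1]
    have h3 := intervalIntegral.norm_integral_le_of_norm_le_const h1
    refine h3.trans (le_of_eq ?_)
    rw [mul_assoc, ← sq, sq_abs]
  · rw [← hconst, mul_assoc, ← Complex.exp_add]
    have e : -(P u0 * ((u - u0 : ℝ) : ℂ)) - G u + (P u0 * ((u - u0 : ℝ) : ℂ) + G u) = 0 := by ring
    rw [e, Complex.exp_zero, mul_one]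

/-! ### Gaussian integrals -/

lemma gint_quad {b : ℝ} (hb : 0 < b) (c d : ℝ) :
    Integrable (fun u : ℝ => Real.exp (-(b * u ^ 2) + c * u + d)) := by
  have h := (integrable_cexp_quadratic' (b := ((-b : ℝ) : ℂ)) (by simpa using hb) (c : ℂ) (d : ℂ)).norm
  refine h.congr (Eventually.of_forall fun u => ?_)
  simp only
  rw [Complex.norm_exp]
  congr 1
  simp [← Complex.ofReal_pow]
  

lemma gint0 {b : ℝ} (hb : 0 < b) (c : ℝ) : Integrable (fun u : ℝ => Real.exp (-(b * (u - c) ^ 2))) := by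
  have h := (integrable_exp_neg_mul_sq hb).comp_sub_right c
  refine h.congr (Eventually.of_forall fun u => ?_)
  simp

lemma gval0 {t : ℝ} (ht : 0 < t) (c : ℝ) :
    ∫ u : ℝ, Real.exp (-((u - c) ^ 2 / (4 * t))) = Real.sqrt (4 * Real.pi * t) := by
  have h1 := integral_sub_right_eq_self (μ := (volume : Measure ℝ)) (fun v : ℝ => Real.exp (-(v ^ 2 / (4 * t)))) c
  rw [h1]
  have h2 := integral_gaussian (1 / (4 * t))
  have e : (fun x : ℝ => Real.exp (-(1 / (4 * t)) * x ^ 2)) = fun v : ℝ => Real.exp (-(v ^ 2 / (4 * t))) := by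
    funext x; congr 1; ring
  rw [e] at h2
  rw [h2]
  congr 1
  field_simp

/-- `∫ (|v| + v²) exp (-v²/8t) ≤ 160 t` for `t ≤ 1` -/
lemma gmom {t : ℝ} (ht : 0 < t) (ht1 : t ≤ 1) (c : ℝ) :
    Integrable (fun u : ℝ => (|u - c| + (u - c) ^ 2) * Real.exp (-((u - c) ^ 2 / (8 * t)))) ∧
    ∫ u : ℝ, (|u - c| + (u - c) ^ 2) * Real.exp (-((u - c) ^ 2 / (8 * t))) ≤ 160 * t := by
  obtain ⟨q, hq⟩ : ∃ q : ℝ, q = Real.sqrt t := ⟨_, rfl⟩
  have hq0 : 0 < q := by rw [hq]; exact Real.sqrt_pos.2 ht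
  have hq2 : q ^ 2 = t := by rw [hq]; exact Real.sq_sqrt ht.le
  have hpt : ∀ u : ℝ, (|u - c| + (u - c) ^ 2) * Real.exp (-((u - c) ^ 2 / (8 * t))) ≤
      (3 * q + 16 * t) * Real.exp (-((u - c) ^ 2 / (4 * (4 * t)))) := by
    intro u
    obtain ⟨v, hv⟩ : ∃ v : ℝ, v = u - c := ⟨_, rfl⟩
    rw [← hv]
    have e1 : Real.exp (-(v ^ 2 / (8 * t))) = Real.exp (-(v ^ 2 / (4 * (4 * t)))) * Real.exp (-(v ^ 2 / (16 * t))) := by
      rw [← Real.exp_add]
      congr 1
      field_simp
      ring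
    have h1 : |v| ≤ 3 * q * Real.exp (v ^ 2 / (16 * t)) := by
      have h2 := Real.add_one_le_exp (v ^ 2 / (16 * t))
      have h3 : |v| ≤ 3 * q * (v ^ 2 / (16 * t) + 1) := by
        rw [← hq2]
        have e : 3 * q * (v ^ 2 / (16 * q ^ 2) + 1) = (3 * v ^ 2 + 48 * q ^ 2) / (16 * q) := by
          field_simp
          ring
        rw [e, le_div_iff₀ (by positivity), ← sq_abs v]
        nlinarith [sq_nonneg (3 * |v| - 8 * q), sq_nonneg (|v| - 4 * q), abs_nonneg v]
      exact h3.trans (mul_le_mul_of_nonneg_left h2 (by positivity))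
    have h4 : v ^ 2 ≤ 16 * t * Real.exp (v ^ 2 / (16 * t)) := by
      have h2 := Real.add_one_le_exp (v ^ 2 / (16 * t))
      have h3 : v ^ 2 = 16 * t * (v ^ 2 / (16 * t)) := by field_simp
      rw [h3]
      apply mul_le_mul_of_nonneg_left _ (by positivity)
      rw [← h3]
      linarith
    have h5 : |v| + v ^ 2 ≤ (3 * q + 16 * t) * Real.exp (v ^ 2 / (16 * t)) := by linarith
    rw [e1]
    have e2 : Real.exp (v ^ 2 / (16 * t)) * Real.exp (-(v ^ 2 / (16 * t))) = 1 := by
      rw [← Real.exp_add]; simp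
    calc (|v| + v ^ 2) * (Real.exp (-(v ^ 2 / (4 * (4 * t)))) * Real.exp (-(v ^ 2 / (16 * t))))
        ≤ ((3 * q + 16 * t) * Real.exp (v ^ 2 / (16 * t))) *
          (Real.exp (-(v ^ 2 / (4 * (4 * t)))) * Real.exp (-(v ^ 2 / (16 * t)))) := by gcongr
      _ = (3 * q + 16 * t) * Real.exp (-(v ^ 2 / (4 * (4 * t)))) *
          (Real.exp (v ^ 2 / (16 * t)) * Real.exp (-(v ^ 2 / (16 * t)))) := by ring
      _ = _ := by rw [e2, mul_one]
  have i2 : Integrable (fun u : ℝ => (3 * q + 16 * t) * Real.exp (-((u - c) ^ 2 / (4 * (4 * t))))) := by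
    have h7 := (gint0 (b := 1 / (16 * t)) (by positivity) c).const_mul (3 * q + 16 * t)
    have e7 : (fun u : ℝ => (3 * q + 16 * t) * Real.exp (-((u - c) ^ 2 / (4 * (4 * t))))) =
        fun u : ℝ => (3 * q + 16 * t) * Real.exp (-(1 / (16 * t) * (u - c) ^ 2)) := by
      funext u
      congr 2
      field_simp
      ring
    rw [e7]
    exact h7
  have i1 : Integrable (fun u : ℝ => (|u - c| + (u - c) ^ 2) * Real.exp (-((u - c) ^ 2 / (8 * t)))) := by
    refine Integrable.mono' i2 (by fun_prop) (Eventually.of_forall fun u => ?_)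
    rw [Real.norm_eq_abs, abs_of_nonneg (by positivity)]
    exact hpt u
  refine ⟨i1, (integral_mono i1 i2 hpt).trans ?_⟩
  rw [integral_const_mul, gval0 (by positivity : 0 < 4 * t) c]
  have h6 : Real.sqrt (4 * Real.pi * (4 * t)) ≤ 8 * q := by
    rw [Real.sqrt_le_left (by positivity), mul_pow, hq2]
    nlinarith [Real.pi_le_four]
  have hq1 : q ≤ 1 := by
    rw [hq]; exact Real.sqrt_le_one.2 ht1
  calc (3 * q + 16 * t) * Real.sqrt (4 * Real.pi * (4 * t)) ≤ (3 * q + 16 * t) * (8 * q) := by gcongr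
    _ = 24 * q ^ 2 + 128 * q * q ^ 2 := by rw [← hq2]; ring
    _ ≤ 160 * t := by rw [hq2]; nlinarith

end Pool.Agent.W169.HF
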