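import Pool.Agent.W169.HF.Aut3
import Pool.Agent.W169.HF.AsmB

/-!
# Project HF: zero-free strips and the heat flow, local theorems for automorphic data
-/

set_option autoImplicit false

open Complex Set MeasureTheory intervalIntegral Filter Topology
open scoped ComplexConjugate NNReal ENNReal

namespace Pool.Agent.W169.HF

open H353.E H353.F

section ud

variable {C B σ : ℝ} {Sg : ℝ → ℝ} {Λ γ D : ℂ → ℂ}

/-- the gamma factor near the point `1/2 + i y` -/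
lemma gam_loc (gp : GP C Sg γ D) (y : ℝ) {u : ℂ} (hu : 1 / 2 ≤ u.re) :
    ‖γ (1 / 2 + (y : ℂ) * I + u)‖ ≤ ‖γ (3 / 2 + y * I)‖ * Real.exp (-(D (3 / 2 + y * I)).re) *
      Real.exp ((D (3 / 2 + y * I)).re * u.re + 4 * C * (1 + ‖u‖ ^ 2)) ∧
    ‖γ (3 / 2 + y * I)‖ * Real.exp (-(D (3 / 2 + y * I)).re) *
      Real.exp ((D (3 / 2 + y * I)).re * u.re - 4 * C * (1 + ‖u‖ ^ 2)) ≤
      ‖γ (1 / 2 + (y : ℂ) * I + u)‖ := by
  have hC := gp.C_nonneg
  obtain ⟨ℓ, hℓ⟩ : ∃ ℓ : ℝ, ℓ = (D (3 / 2 + y * I)).re := ⟨_, rfl⟩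
  rw [← hℓ]
  obtain ⟨v, hv⟩ : ∃ v : ℂ, v = u - 1 := ⟨_, rfl⟩
  have e1 : (1 / 2 + (y : ℂ) * I + u : ℂ) = 3 / 2 + y * I + v := by rw [hv]; ring
  have hs : (3 / 2 + y * I : ℂ).re = 3 / 2 := by simp
  have hvre : v.re = u.re - 1 := by rw [hv]; simp
  have hsv : 1 ≤ (3 / 2 + y * I + v : ℂ).re := by rw [add_re, hs, hvre]; linarith
  have hs1 : 1 ≤ (3 / 2 + y * I : ℂ).re := by rw [hs]; norm_num
  have hvn : ‖v‖ ≤ ‖u‖ + 1 := by
    rw [hv]
    refine (norm_sub_le _ _).trans ?_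
    simp
  have hv0 := norm_nonneg v
  have hu0 := norm_nonneg u
  have hpath : ∀ t ∈ Icc (0 : ℝ) 1, ‖D (3 / 2 + y * I + t * v) - ℓ‖ ≤ C * (1 + ‖v‖) := by
    intro t ht
    have hre : 1 ≤ (3 / 2 + y * I + t * v : ℂ).re := by
      rw [add_re, hs, Complex.re_ofReal_mul]
      rw [add_re, hs] at hsv
      nlinarith [ht.1, ht.2]
    have h1 := gp.lipD (ρ := 1) le_rfl hre hs1
    have e2 : (3 / 2 + y * I + t * v : ℂ) - (3 / 2 + y * I) = t * v := by ring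
    rw [e2, norm_mul, Complex.norm_real, Real.norm_eq_abs, abs_of_nonneg ht.1, div_one] at h1
    have h2 : ‖D (3 / 2 + y * I) - ℓ‖ ≤ C := by
      have e3 : D (3 / 2 + y * I) - ℓ = ((D (3 / 2 + y * I)).im : ℂ) * I := by
        rw [hℓ]
        apply Complex.ext <;> simp
      rw [e3, norm_mul, Complex.norm_I, mul_one, Complex.norm_real, Real.norm_eq_abs]
      exact gp.im _ hs1
    have h3 : D (3 / 2 + y * I + t * v) - ℓ =
      (D (3 / 2 + y * I + t * v) - D (3 / 2 + y * I)) + (D (3 / 2 + y * I) - ℓ) := by ring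
    rw [h3]
    refine (norm_add_le _ _).trans ?_
    have h4 : C * (t * ‖v‖) ≤ C * (1 * ‖v‖) := by
      apply mul_le_mul_of_nonneg_left _ hC
      exact mul_le_mul_of_nonneg_right ht.2 hv0
    linarith
  have hfin : C * (1 + ‖v‖) * ‖v‖ ≤ 4 * C * (1 + ‖u‖ ^ 2) := by
    have h1 : (1 + ‖v‖) * ‖v‖ ≤ 4 * (1 + ‖u‖ ^ 2) := by nlinarith [sq_nonneg (‖u‖ - 1)]
    calc C * (1 + ‖v‖) * ‖v‖ = C * ((1 + ‖v‖) * ‖v‖) := by ring
      _ ≤ C * (4 * (1 + ‖u‖ ^ 2)) := mul_le_mul_of_nonneg_left h1 hC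
      _ = _ := by ring
  rw [e1]
  constructor
  · have h1 := gam_move gp hs1 hsv hpath
    refine h1.trans ?_
    rw [mul_assoc ‖γ (3 / 2 + y * I)‖, ← Real.exp_add]
    apply mul_le_mul_of_nonneg_left _ (norm_nonneg _)
    apply Real.exp_le_exp.2
    rw [hvre]
    linarith
  · have hback : 1 ≤ (3 / 2 + y * I + v + -v : ℂ).re := by
      rw [add_neg_cancel_right]; exact hs1
    have h1 := gam_move gp (ℓ := ℓ) (K := C * (1 + ‖v‖)) hsv hback (fun t ht => by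
      have e4 : (3 / 2 + y * I + v + t * -v : ℂ) = 3 / 2 + y * I + ((1 - t : ℝ) : ℂ) * v := by
        push_cast; ring
      rw [e4]
      exact hpath (1 - t) ⟨by linarith [ht.2], by linarith [ht.1]⟩)
    rw [add_neg_cancel_right, neg_re, norm_neg] at h1
    calc ‖γ (3 / 2 + y * I)‖ * Real.exp (-ℓ) * Real.exp (ℓ * u.re - 4 * C * (1 + ‖u‖ ^ 2))
        ≤ ‖γ (3 / 2 + y * I + v)‖ * Real.exp (ℓ * -v.re + C * (1 + ‖v‖) * ‖v‖) * Real.exp (-ℓ) *
          Real.exp (ℓ * u.re - 4 * C * (1 + ‖u‖ ^ 2)) := by gcongr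
      _ = ‖γ (3 / 2 + y * I + v)‖ * Real.exp (ℓ * -v.re + C * (1 + ‖v‖) * ‖v‖ + -ℓ +
          (ℓ * u.re - 4 * C * (1 + ‖u‖ ^ 2))) := by
          rw [Real.exp_add (ℓ * -v.re + C * (1 + ‖v‖) * ‖v‖ + -ℓ),
            Real.exp_add (ℓ * -v.re + C * (1 + ‖v‖) * ‖v‖)]
          ring
      _ ≤ ‖γ (3 / 2 + y * I + v)‖ * 1 := by
          apply mul_le_mul_of_nonneg_left _ (norm_nonneg _)
          apply Real.exp_le_one_iff.2
          rw [hvre]
          linarith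
      _ = _ := mul_one _

theorem ud_of_sharp (S : Sharp C B σ Sg Λ γ D) (hslow : Slow Λ) (hσ2 : σ ≤ 5 / 2) (y : ℝ) :
    UD (Real.log B + 20 * C) (σ - 1 / 2) (D (3 / 2 + y * I)).re
      (‖γ (3 / 2 + y * I)‖ * Real.exp (-(D (3 / 2 + y * I)).re))
      (fun u : ℂ => Λ (1 / 2 + (y : ℂ) * I + u)) := by
  have hC := S.hC
  have hB := S.hB
  have hσ := S.hσ
  have hlogB : 0 ≤ Real.log B := Real.log_nonneg hB
  have hBexp : B = Real.exp (Real.log B) := (Real.exp_log (by linarith)).symm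
  obtain ⟨ε, hε, hfe⟩ := S.fe
  have hs1 : 1 ≤ (3 / 2 + y * I : ℂ).re := by simp; norm_num
  have hre : ∀ u : ℂ, (1 / 2 + (y : ℂ) * I + u : ℂ).re = 1 / 2 + u.re := fun u => by simp
  obtain ⟨ℓ, hℓ⟩ : ∃ ℓ : ℝ, ℓ = (D (3 / 2 + y * I)).re := ⟨_, rfl⟩
  obtain ⟨G, hG⟩ : ∃ G : ℝ, G = ‖γ (3 / 2 + y * I)‖ * Real.exp (-ℓ) := ⟨_, rfl⟩
  have hfe' : ∀ u : ℂ, Λ (1 / 2 + (y : ℂ) * I + u) = ε * conj (Λ (1 / 2 + (y : ℂ) * I + -conj u)) := by
    intro u
    rw [hfe]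
    congr 3
    simp only [map_add, map_mul, map_div₀, map_one, map_ofNat, conj_ofReal, conj_I]
    ring
  rw [← hℓ, ← hG]
  have hGpos : 0 < G := by
    rw [hG]
    have := norm_pos_iff.2 (S.gp.ne _ hs1)
    positivity
  have hup0 : ∀ u : ℂ, 0 ≤ u.re → ‖Λ (1 / 2 + (y : ℂ) * I + u)‖ ≤
      G * Real.exp (ℓ * max u.re (σ - 1 / 2) + (Real.log B + 20 * C) * (1 + ‖u‖ ^ 2)) := by
    intro u hu
    have hu2 : 0 ≤ ‖u‖ ^ 2 := by positivity
    rcases le_total (σ - 1 / 2) u.re with h | h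
    · have h1 := S.hi (1 / 2 + (y : ℂ) * I + u) (by rw [hre]; linarith)
      have h2 := (gam_loc S.gp y (u := u) (by linarith)).1
      rw [← hℓ, ← hG] at h2
      rw [max_eq_left h]
      calc ‖Λ (1 / 2 + (y : ℂ) * I + u)‖ ≤ B * ‖γ (1 / 2 + (y : ℂ) * I + u)‖ := h1
        _ ≤ B * (G * Real.exp (ℓ * u.re + 4 * C * (1 + ‖u‖ ^ 2))) := by gcongr
        _ = G * Real.exp (Real.log B + (ℓ * u.re + 4 * C * (1 + ‖u‖ ^ 2))) := by
            rw [Real.exp_add (Real.log B), ← hBexp]; ring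
        _ ≤ _ := by
            apply mul_le_mul_of_nonneg_left _ hGpos.le
            apply Real.exp_le_exp.2
            nlinarith [mul_nonneg hlogB hu2]
    · have h1 := S.strip (1 / 2 + (y : ℂ) * I + u) (by rw [hre]; linarith) (by rw [hre]; linarith)
      have him : (1 / 2 + (y : ℂ) * I + u : ℂ).im = y + u.im := by simp
      rw [him] at h1
      obtain ⟨u', hu'⟩ : ∃ u' : ℂ, u' = ((σ - 1 / 2 : ℝ) : ℂ) + (u.im : ℂ) * I := ⟨_, rfl⟩
      have hu're : u'.re = σ - 1 / 2 := by rw [hu']; simp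
      have hu'im : u'.im = u.im := by rw [hu']; simp
      have e1 : (σ + ((y + u.im : ℝ) : ℂ) * I : ℂ) = 1 / 2 + (y : ℂ) * I + u' := by
        rw [hu']; push_cast; ring
      rw [e1] at h1
      have h2 := (gam_loc S.gp y (u := u') (by rw [hu're]; linarith)).1
      rw [← hℓ, ← hG, hu're] at h2
      have hn : ‖u'‖ ^ 2 ≤ 4 + ‖u‖ ^ 2 := by
        rw [Complex.sq_norm, Complex.sq_norm, Complex.normSq_apply, Complex.normSq_apply, hu're, hu'im]
        nlinarith [mul_self_nonneg u.re]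
      rw [max_eq_right h]
      calc ‖Λ (1 / 2 + (y : ℂ) * I + u)‖ ≤ B * ‖γ (1 / 2 + (y : ℂ) * I + u')‖ := h1
        _ ≤ B * (G * Real.exp (ℓ * (σ - 1 / 2) + 4 * C * (1 + ‖u'‖ ^ 2))) := by gcongr
        _ = G * Real.exp (Real.log B + (ℓ * (σ - 1 / 2) + 4 * C * (1 + ‖u'‖ ^ 2))) := by
            rw [Real.exp_add (Real.log B), ← hBexp]; ring
        _ ≤ _ := by
            apply mul_le_mul_of_nonneg_left _ hGpos.le
            apply Real.exp_le_exp.2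
            nlinarith [mul_nonneg hlogB hu2]
  refine { slow := ?_, fe := ⟨ε, hε, fun u => hfe' u⟩, hG := hGpos, up := fun u => ?_, lo := fun u hu => ?_ }
  · have := Pool.Agent.W366.HF.slow_shift hslow (1 / 2 + (y : ℂ) * I)
    have e : (fun w : ℂ => Λ (w + (1 / 2 + (y : ℂ) * I))) = fun u : ℂ => Λ (1 / 2 + (y : ℂ) * I + u) := by
      funext w
      rw [add_comm]
    rw [← e]
    exact this
  · show ‖Λ (1 / 2 + (y : ℂ) * I + u)‖ ≤ _
    rcases le_total 0 u.re with h | h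
    · rw [abs_of_nonneg h]
      exact hup0 u h
    · have h1 := hup0 (-conj u) (by rw [neg_re, conj_re]; linarith)
      rw [norm_neg, Complex.norm_conj, neg_re, conj_re] at h1
      rw [hfe' u, norm_mul, hε, one_mul, Complex.norm_conj, abs_of_nonpos h]
      exact h1
  · show _ ≤ ‖Λ (1 / 2 + (y : ℂ) * I + u)‖
    have hu2 : 0 ≤ ‖u‖ ^ 2 := by positivity
    have h1 := S.lo (1 / 2 + (y : ℂ) * I + u) (by rw [hre]; linarith)
    have h2 := (gam_loc S.gp y (u := u) (by linarith)).2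
    rw [← hℓ, ← hG] at h2
    have h3 := h2.trans h1
    have h4 : G * Real.exp (ℓ * u.re - (Real.log B + 20 * C) * (1 + ‖u‖ ^ 2)) * B ≤
        G * Real.exp (ℓ * u.re - 4 * C * (1 + ‖u‖ ^ 2)) := by
      have e5 : G * Real.exp (ℓ * u.re - (Real.log B + 20 * C) * (1 + ‖u‖ ^ 2)) * B =
          G * Real.exp (ℓ * u.re - (Real.log B + 20 * C) * (1 + ‖u‖ ^ 2) + Real.log B) := by
        rw [Real.exp_add _ (Real.log B), ← hBexp]; ring
      rw [e5]
      apply mul_le_mul_of_nonneg_left _ hGpos.le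
      apply Real.exp_le_exp.2
      nlinarith [mul_nonneg hlogB hu2]
    have h5 := h4.trans h3
    nlinarith

end ud

end Pool.Agent.W169.HF
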