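import Pool.Agent.W169.HF.AsmC
import Pool.Agent.W169.HF.Gam

/-!
# Project SC: size on the critical line and zeros of the heat flow, for automorphic data
-/

set_option autoImplicit false

open Complex Set MeasureTheory intervalIntegral Filter Topology
open scoped ComplexConjugate NNReal ENNReal

namespace Pool.Agent.W169.HF

open H353.E H353.F

lemma Pf_mono' {κ κ' b R R' ℓ G : ℝ} {f : ℂ → ℂ} (h : Pf κ b R ℓ G f) (hκ : κ ≤ κ') (hR : R' ≤ R)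
    (hℓ : 0 ≤ ℓ) (hG : 0 < G) : Pf κ' b R' ℓ G f := by
  have h1 : κ * ℓ ≤ κ' * ℓ := mul_le_mul_of_nonneg_right hκ hℓ
  refine ⟨fun u a b c => le_trans ?_ (h.low u a (b.trans hR) (c.trans hR)),
    fun u a b => (h.upp u (a.trans hR) (b.trans hR)).trans ?_,
    fun u a b c => (h.der u a (b.trans hR) (c.trans hR)).trans h1⟩
  · exact mul_le_mul_of_nonneg_left (Real.exp_le_exp.2 (by linarith)) hG.le
  · exact mul_le_mul_of_nonneg_left (Real.exp_le_exp.2 (by linarith)) hG.le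

/-- the quadratic threshold -/
lemma thr {μ0 ρ0 τ ε : ℝ} (hμ1 : μ0 ≤ 1 / 4) (hρ0 : 0 < ρ0) (hρ1 : ρ0 ≤ 1 / 20)
    (hρε : 20 * ρ0 ≤ ε) (hμ0 : 0 ≤ μ0) (hτ : 1 / (2 - 4 * μ0) + ε / 2 ≤ τ) :
    2 * (1 / 2 + ρ0) ^ 2 + ρ0 ≤ (2 * (1 / 2 + ρ0) - (2 * μ0 + ρ0)) * τ := by
  have hD : 0 < 2 - 4 * μ0 := by linarith
  have h1 : (2 - 4 * μ0) * (1 / (2 - 4 * μ0)) = 1 := by field_simp
  have h2 : (2 - 4 * μ0) * (1 / (2 - 4 * μ0) + ε / 2) ≤ (2 - 4 * μ0) * τ :=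
    mul_le_mul_of_nonneg_left hτ hD.le
  have h3 : 1 + ε / 2 ≤ (2 - 4 * μ0) * τ := by nlinarith
  have h4 : 0 ≤ τ := by
    by_contra hcon
    push Not at hcon
    nlinarith
  nlinarith

theorem aut_fwd2 (m : ℕ) (hm : 1 ≤ m) {μ0 ε X : ℝ} (hμ0 : 0 ≤ μ0) (hμ1 : μ0 ≤ 1 / 4)
    (hε : 0 < ε) (hX : 1 ≤ X) :
    ∃ R κ' C0 : ℝ, 0 < κ' ∧ ∀ (N : ℝ) (μ : Fin m → ℂ) (α : Fin m → ℕ → ℂ) (e : ℂ) (Λ : ℂ → ℂ),
    DatumT (1 / 2) N μ α e Λ → (∀ s : ℂ, 1 < s.re → Λ s ≠ 0) → ∀ t y : ℝ, 0 < t → C0 ≤ cnd N μ y →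
      1 / (2 - 4 * μ0) + ε ≤ t * Real.log (cnd N μ y) → t * Real.log (cnd N μ y) ≤ X →
      (∀ v : ℝ, |v| ≤ R → ‖LL μ Λ (1 / 2 + ((y + v : ℝ) : ℂ) * I)‖ ≤
        Real.exp ((μ0 + κ') * Real.log (cnd N μ y))) →
      ∀ s : ℂ, s.im = y → heat t (XX N Λ) s = 0 → s.re = 1 / 2 := by
  have hm' : (1 : ℝ) ≤ m := by exact_mod_cast hm
  obtain ⟨B, hB, HS⟩ := sharpX m hm (show (0 : ℝ) ≤ 1 / 2 by norm_num) le_rfl
    (show (0 : ℝ) < 1 / 2 by norm_num) (by norm_num)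
  have hlogB : 0 ≤ Real.log B := Real.log_nonneg hB
  obtain ⟨ρ0, hρ0d⟩ : ∃ ρ0 : ℝ, ρ0 = min ε 1 / 20 := ⟨_, rfl⟩
  have hρ0 : 0 < ρ0 := by rw [hρ0d]; have := lt_min hε one_pos; linarith
  have hρ1 : ρ0 ≤ 1 / 20 := by rw [hρ0d]; have := min_le_right ε 1; linarith
  have hρε : 20 * ρ0 ≤ ε := by rw [hρ0d]; have := min_le_left ε 1; linarith
  have hK : 1 ≤ Real.log B + 20 * (6 * m) := by linarith
  obtain ⟨κ1, R1, ℓ1, hκ1, HF⟩ := fwd2_all (Real.log B + 20 * (6 * m)) (1 + 1 / 2 + 1 / 2 - 1 / 2)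
    (1 / 2 + ρ0) (2 * μ0 + ρ0) ρ0 (X + ε) hK (by norm_num) (by norm_num) (by linarith) (by linarith)
    (by linarith) (by linarith) hρ0 (by linarith) (by linarith)
  obtain ⟨κ2, R2, ρ, ℓ2, hκ2, hρ, hρ', HM⟩ := maj rect_all (K := Real.log B + 20 * (6 * m))
    (K1 := 231 * m) (ϑ0 := 1 + 1 / 2 + 1 / 2 - 1 / 2) (b := 1 / 2 + ρ0) (M0 := 2 * μ0 + ρ0) (κ := κ1) hK
    (by positivity) (by norm_num) (by norm_num) (by linarith) (by linarith) (by linarith) (by linarith)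
    hκ1 (fun ρ => 226 * m + 25 * m / ρ)
  obtain ⟨κ3, hκ3d⟩ : ∃ κ3 : ℝ, κ3 = min κ1 κ2 := ⟨_, rfl⟩
  have hκ3 : 0 < κ3 := by rw [hκ3d]; exact lt_min hκ1 hκ2
  have hκ31 : κ3 ≤ κ1 := by rw [hκ3d]; exact min_le_left _ _
  have hκ32 : κ3 ≤ κ2 := by rw [hκ3d]; exact min_le_right _ _
  obtain ⟨R3, hR3d⟩ : ∃ R3 : ℝ, R3 = max (max R1 R2) 1 := ⟨_, rfl⟩
  have hR31 : R1 ≤ R3 := by rw [hR3d]; exact (le_max_left _ _).trans (le_max_left _ _)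
  have hR32 : R2 ≤ R3 := by rw [hR3d]; exact (le_max_right _ _).trans (le_max_left _ _)
  have hR33 : 1 ≤ R3 := by rw [hR3d]; exact le_max_right _ _
  obtain ⟨R4, ℓ3, hR4, HP⟩ := prof_all (Real.log B + 20 * (6 * m)) (1 + 1 / 2 + 1 / 2 - 1 / 2) (1 / 2) ρ0 κ3
    R3 hK (by norm_num) (by norm_num) (by norm_num) (by norm_num) hρ0 (by linarith) hκ3 hR33
  obtain ⟨W, hW⟩ : ∃ W : ℝ, W = |ℓ1| + |ℓ2| + |ℓ3| + 14 * m * (μ0 + ρ0 / 2) / κ2 := ⟨_, rfl⟩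
  have hW4 : 0 ≤ 14 * m * (μ0 + ρ0 / 2) / κ2 := by positivity
  refine ⟨R2, ρ0 / 2, Real.exp (2 * W + 14 * m + 28 * m * X / ε), by positivity, ?_⟩
  intro N μ α e Λ d hnz t y ht hC h1 h2 hline s hsy hs
  obtain ⟨S, hslow, hfe, hzer, hne⟩ := HS N μ α e Λ d
  have hN1 := d.one_le
  have hNpos : 0 < N := by linarith
  have hN0 : (N : ℂ) ≠ 0 := by exact_mod_cast hNpos.ne'
  have hL : 2 * W + 14 * m + 28 * m * X / ε ≤ Real.log (cnd N μ y) := by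
    have := Real.log_le_log (Real.exp_pos _) hC
    rwa [Real.log_exp] at this
  have h0 : 0 ≤ 28 * m * X / ε := by positivity
  have hlo := gaD_re_ge d.one_le d.re_le y
  have hup := gaD_re_le d.one_le d.re_le y
  change 1 / 2 * Real.log (cnd N μ y) - 7 * m ≤ _ at hlo
  change _ ≤ 1 / 2 * Real.log (cnd N μ y) + 5 * m at hup
  obtain ⟨ℓ, hℓ⟩ : ∃ ℓ : ℝ, ℓ = (gaD N μ (3 / 2 + y * I)).re := ⟨_, rfl⟩
  obtain ⟨G, hG⟩ : ∃ G : ℝ, G = ‖gaf N μ (3 / 2 + y * I)‖ * Real.exp (-ℓ) := ⟨_, rfl⟩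
  have ha1 := le_abs_self ℓ1
  have ha2 := le_abs_self ℓ2
  have ha3 := le_abs_self ℓ3
  have hb1 := abs_nonneg ℓ1
  have hb2 := abs_nonneg ℓ2
  have hb3 := abs_nonneg ℓ3
  have hW0 : 0 ≤ W := by rw [hW]; positivity
  obtain ⟨h3, h4⟩ := pass (by linarith : (0 : ℝ) < m) hε hX ht hlo hup (by linarith) h2
  have ud := ud_of_sharp S hslow (by norm_num) y
  rw [← hℓ, ← hG] at ud
  rw [← hℓ] at hlo hup h3 h4
  have hWℓ : W ≤ ℓ := by linarith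
  have hℓ0 : 0 ≤ ℓ := hW0.trans hWℓ
  obtain ⟨f, hf⟩ : ∃ f : ℂ → ℂ, f = fun u : ℂ => XX N Λ (1 / 2 + (y : ℂ) * I + u) := ⟨_, rfl⟩
  rw [← hf] at ud
  have hfu : ∀ u, f u = XX N Λ (1 / 2 + (y : ℂ) * I + u) := fun u => by rw [hf]
  have hGpos := ud.hG
  have pf := HP ℓ G f (by linarith) ud (fun u hu1 _ h => by
    rw [hfu] at h
    unfold XX at h
    rcases mul_eq_zero.1 h with h | h
    · exact absurd (Complex.cpow_eq_zero_iff _ _ |>.1 h).1 hN0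
    · exact hnz _ (by simp; linarith) h)
  have hmj := HM ℓ G f (fun u => LL μ Λ (1 / 2 + (y : ℂ) * I + u))
    (fun u => gaf N μ (1 / 2 + (y : ℂ) * I + u)) (by linarith) ud (Pf_mono' pf hκ32 hR32 hℓ0 hGpos)
    ((LL_diff d.entire).comp (differentiable_id.const_add _))
    (fun u => by
      show LL μ Λ _ = _
      rw [LL_eq hNpos, hfu])
    (fun u hu => by
      have := gam_inv hm hN1 d.re_le y hu
      rw [← hℓ, ← hG] at this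
      exact this)
    (fun u hu => by
      have := gam_up hm hN1 d.re_le y hρ hρ' hu
      rw [← hℓ, ← hG] at this
      exact this)
    (fun v hv => by
      show ‖LL μ Λ (1 / 2 + (y : ℂ) * I + (v : ℂ) * I)‖ ≤ _
      have h5 := hline v hv
      have e1 : (1 / 2 + ((y + v : ℝ) : ℂ) * I : ℂ) = 1 / 2 + (y : ℂ) * I + (v : ℂ) * I := by
        push_cast; ring
      rw [e1] at h5
      refine h5.trans (Real.exp_le_exp.2 ?_)
      have h6 : Real.log (cnd N μ y) ≤ 2 * ℓ + 14 * m := by linarith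
      have h7 : (μ0 + ρ0 / 2) * Real.log (cnd N μ y) ≤ (μ0 + ρ0 / 2) * (2 * ℓ + 14 * m) :=
        mul_le_mul_of_nonneg_left h6 (by positivity)
      have h8 : 14 * m * (μ0 + ρ0 / 2) ≤ κ2 * ℓ := by
        have h9 : 14 * m * (μ0 + ρ0 / 2) / κ2 ≤ ℓ := by linarith
        rw [div_le_iff₀ hκ2] at h9
        linarith
      linarith)
  have key := HF ℓ G t f (by linarith) ud (Pf_mono' pf hκ31 hR31 hℓ0 hGpos) hmj ht
    (thr hμ1 hρ0 hρ1 hρε hμ0 (by linarith)) (by linarith)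
  by_contra hcon
  have hst := heat_strip hslow ⟨e, d.norm_eq, hfe⟩ hne hzer ht.le hs
  refine key (s.re - 1 / 2) (sub_ne_zero.2 hcon) (by linarith) ?_
  rw [hf, heat_shift']
  have e : (1 / 2 + (y : ℂ) * I + ((s.re - 1 / 2 : ℝ) : ℂ) : ℂ) = s := by
    apply Complex.ext
    · simp
    · simp [hsy]
  rw [e]
  exact hs

/-- the value of the finite L-function on the critical line -/
lemma LL_le {k : ℕ} (hm : 1 ≤ k) {N : ℝ} {μ : Fin k → ℂ} (hN : 1 ≤ N) (hμ : ∀ j, (μ j).re ≤ 1 / 2)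
    (Λ : ℂ → ℂ) (y : ℝ) {M : ℝ} (h : ‖XX N Λ (1 / 2 + (y : ℂ) * I + 0)‖ ≤
      (‖gaf N μ (3 / 2 + y * I)‖ * Real.exp (-(gaD N μ (3 / 2 + y * I)).re)) * M) :
    ‖LL μ Λ (1 / 2 + (y : ℂ) * I)‖ ≤ Real.exp (231 * k) * M := by
  have h1 := gam_inv hm hN hμ y (u := 0) (by simp)
  obtain ⟨G, hG⟩ : ∃ G : ℝ, G = ‖gaf N μ (3 / 2 + y * I)‖ * Real.exp (-(gaD N μ (3 / 2 + y * I)).re) :=
    ⟨_, rfl⟩
  rw [← hG] at h h1
  have hGpos : 0 < G := by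
    rw [hG]
    have := norm_pos_iff.2 ((gaf_GP hm hN hμ).ne (3 / 2 + y * I) (by simp; norm_num))
    positivity
  rw [add_zero] at h h1
  simp only [zero_re, mul_zero, neg_zero, norm_zero, zero_add, ne_eq, OfNat.ofNat_ne_zero, not_false_eq_true,
    zero_pow, add_zero, mul_one] at h1
  rw [LL_eq (by linarith : (0 : ℝ) < N), norm_mul]
  calc ‖XX N Λ (1 / 2 + (y : ℂ) * I)‖ * ‖(gaf N μ (1 / 2 + (y : ℂ) * I))⁻¹‖ ≤
      (G * M) * (G⁻¹ * Real.exp (231 * k)) := mul_le_mul h h1 (norm_nonneg _) ((norm_nonneg _).trans h)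
    _ = Real.exp (231 * k) * M := by field_simp

/-- trivial bound -/
theorem aut_triv (m : ℕ) (hm : 1 ≤ m) : ∃ B : ℝ, ∀ (N : ℝ) (μ : Fin m → ℂ) (α : Fin m → ℕ → ℂ) (e : ℂ)
    (Λ : ℂ → ℂ), DatumT (1 / 2) N μ α e Λ → ∀ y : ℝ,
    ‖LL μ Λ (1 / 2 + (y : ℂ) * I)‖ ≤ Real.exp (B + 3 / 4 * Real.log (cnd N μ y)) := by
  have hm' : (1 : ℝ) ≤ m := by exact_mod_cast hm
  obtain ⟨B, hB, HS⟩ := sharpX m hm (show (0 : ℝ) ≤ 1 / 2 by norm_num) le_rfl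
    (show (0 : ℝ) < 1 / 2 by norm_num) (by norm_num)
  refine ⟨231 * m + (Real.log B + 20 * (6 * m)) + 15 / 2 * m, ?_⟩
  intro N μ α e Λ d y
  obtain ⟨S, hslow, -, -, -⟩ := HS N μ α e Λ d
  have ud := ud_of_sharp S hslow (by norm_num) y
  have hup := gaD_re_le d.one_le d.re_le y
  change _ ≤ 1 / 2 * Real.log (cnd N μ y) + 5 * m at hup
  have h1 := ud.up 0
  have h2 := LL_le hm d.one_le d.re_le Λ y h1
  refine h2.trans ?_
  rw [← Real.exp_add]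
  apply Real.exp_le_exp.2
  have e1 : max |(0 : ℂ).re| (1 + 1 / 2 + 1 / 2 - 1 / 2 : ℝ) = 3 / 2 := by norm_num
  rw [e1]
  simp only [norm_zero, ne_eq, OfNat.ofNat_ne_zero, not_false_eq_true, zero_pow, add_zero, mul_one]
  linarith

theorem aut_size (m : ℕ) (hm : 1 ≤ m) {ε X : ℝ} (hε : 0 < ε) (hX : 1 ≤ X) :
    ∃ R C0 B : ℝ, ∀ (N : ℝ) (μ : Fin m → ℂ) (α : Fin m → ℕ → ℂ) (e : ℂ) (Λ : ℂ → ℂ),
    DatumT (1 / 2) N μ α e Λ → ∀ t y : ℝ, 0 < t → C0 ≤ cnd N μ y →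
      ε ≤ t * Real.log (cnd N μ y) → t * Real.log (cnd N μ y) ≤ X →
      (∀ s : ℂ, 1 / 2 < s.re → |s.im - y| ≤ R → heat t (XX N Λ) s ≠ 0) →
      ‖LL μ Λ (1 / 2 + (y : ℂ) * I)‖ ≤
        Real.exp (B + (t * Real.log (cnd N μ y) / 4 + ε) * Real.log (cnd N μ y)) := by
  have hm' : (1 : ℝ) ≤ m := by exact_mod_cast hm
  obtain ⟨B, hB, HS⟩ := sharpX m hm (show (0 : ℝ) ≤ 1 / 2 by norm_num) le_rfl
    (show (0 : ℝ) < 1 / 2 by norm_num) (by norm_num)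
  have hlogB : 0 ≤ Real.log B := Real.log_nonneg hB
  obtain ⟨R, ℓ0, HZ⟩ := size_all (Real.log B + 20 * (6 * m)) (1 + 1 / 2 + 1 / 2 - 1 / 2) (ε / 2) (X + ε) ε
    (by linarith) (by norm_num) (by norm_num) (by positivity) (by linarith) hε
  refine ⟨R, Real.exp (2 * |ℓ0| + 14 * m + 28 * m * X / ε),
    231 * m + 5 * m / 2 * (X + ε) + 5 * m * ε, ?_⟩
  intro N μ α e Λ d t y ht hC h1 h2 hzf
  obtain ⟨S, hslow, hfe, hzer, hne⟩ := HS N μ α e Λ d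
  obtain ⟨L, hLd⟩ : ∃ L : ℝ, L = Real.log (cnd N μ y) := ⟨_, rfl⟩
  have hL : 2 * |ℓ0| + 14 * m + 28 * m * X / ε ≤ L := by
    have := Real.log_le_log (Real.exp_pos _) hC
    rwa [Real.log_exp, ← hLd] at this
  have h0 : 0 ≤ 28 * m * X / ε := by positivity
  have hab := le_abs_self ℓ0
  have hab0 := abs_nonneg ℓ0
  have hlo := gaD_re_ge d.one_le d.re_le y
  have hup := gaD_re_le d.one_le d.re_le y
  change 1 / 2 * Real.log (cnd N μ y) - 7 * m ≤ _ at hlo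
  change _ ≤ 1 / 2 * Real.log (cnd N μ y) + 5 * m at hup
  rw [← hLd] at hlo hup h1 h2 ⊢
  obtain ⟨h3, h4⟩ := pass (by linarith : (0 : ℝ) < m) hε hX ht hlo hup (by linarith) h2
  have ud := ud_of_sharp S hslow (by norm_num) y
  have key := HZ _ _ t _ (by linarith) ud ht (by linarith) (by linarith) (fun u hu1 hu2 => by
    rw [heat_shift']
    exact hzf (1 / 2 + (y : ℂ) * I + u) (by simp; linarith) (by simpa using hu2))
  have h5 := LL_le hm d.one_le d.re_le Λ y key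
  refine h5.trans ?_
  rw [← Real.exp_add]
  apply Real.exp_le_exp.2
  obtain ⟨ℓ, hℓ⟩ : ∃ ℓ : ℝ, ℓ = (gaD N μ (3 / 2 + y * I)).re := ⟨_, rfl⟩
  rw [← hℓ] at hlo hup h3 h4 ⊢
  have hL0 : 0 ≤ L := by linarith
  have hℓ0' : 0 ≤ ℓ := by linarith
  have h6 : t * ℓ ^ 2 ≤ (t * L + ε / 2) / 2 * (1 / 2 * L + 5 * m) := by
    have h7 : 2 * t * ℓ * ℓ ≤ (t * L + ε / 2) * (1 / 2 * L + 5 * m) :=
      mul_le_mul h4 hup hℓ0' (by positivity)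
    nlinarith
  have h8 : ε * ℓ ≤ ε * (1 / 2 * L + 5 * m) := mul_le_mul_of_nonneg_left hup hε.le
  have h9 : (t * L + ε / 2) / 2 * (1 / 2 * L + 5 * m) =
      t * L / 4 * L + ε / 8 * L + 5 * m / 2 * (t * L + ε / 2) := by ring
  have h10 : 5 * m / 2 * (t * L + ε / 2) ≤ 5 * m / 2 * (X + ε) :=
    mul_le_mul_of_nonneg_left (by linarith) (by positivity)
  have h11 : 0 ≤ ε * L := by positivity
  nlinarith

end Pool.Agent.W169.HF
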