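import Pool.Agent.W169.HF.Loc3
import Pool.Agent.W169.HF.DefsD
import Pool.Agent.W186.LH.Fac

/-!
# Project GLD: number of zeros of the heat flow and size, for automorphic data
-/

set_option autoImplicit false

open Complex Set MeasureTheory intervalIntegral Filter Topology
open scoped ComplexConjugate NNReal ENNReal

namespace Pool.Agent.W169.HF

open H353.E H353.F

/-! ### the exponent -/

lemma phx_eq {x r : ℝ} (hx : 0 < x) (h : r ≤ x) : phx x r = x / 2 + r ^ 2 / (2 * x) := by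
  unfold phx
  rw [max_eq_left (by linarith)]
  field_simp
  ring

lemma phx_eq' {x r : ℝ} (h : x ≤ r) : phx x r = r := by
  unfold phx
  rw [max_eq_right (by linarith)]
  simp

lemma phx_lip {x x' η r : ℝ} (hx : 0 < x) (hr : 0 ≤ r) (h1 : x ≤ x') (h2 : x' ≤ x + η) :
    phx x r ≤ phx x' r ∧ phx x' r ≤ phx x r + η := by
  have hx' : 0 < x' := by linarith
  rcases le_total r x with h | h
  · rw [phx_eq hx h, phx_eq hx' (by linarith)]
    have e : r ^ 2 / (2 * x) - r ^ 2 / (2 * x') = (x' - x) / 2 * (r ^ 2 / (x * x')) := by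
      field_simp
    have h3 : r ^ 2 / (x * x') ≤ 1 := by
      rw [div_le_one (by positivity)]
      nlinarith
    have h4 : 0 ≤ r ^ 2 / (x * x') := by positivity
    constructor
    · nlinarith
    · nlinarith
  · rw [phx_eq' h]
    rcases le_total r x' with h' | h'
    · rw [phx_eq hx' h']
      have e : x' / 2 + r ^ 2 / (2 * x') = r + (x' - r) ^ 2 / (2 * x') := by
        field_simp
        ring
      rw [e]
      have h3 : 0 ≤ (x' - r) ^ 2 / (2 * x') := by positivity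
      have h4 : (x' - r) ^ 2 / (2 * x') ≤ (x' - r) / 2 := by
        rw [div_le_div_iff₀ (by positivity) (by norm_num)]
        nlinarith
      constructor <;> linarith
    · rw [phx_eq' h']
      constructor <;> linarith

/-- the multiplicity after a translation -/
lemma ord_shift {F : ℂ → ℂ} (hF : Differentiable ℂ F) (hne : ∃ u, F u ≠ 0) (a u0 : ℂ) :
    analyticOrderNatAt (fun u => F (a + u)) u0 = analyticOrderNatAt F (a + u0) := by
  obtain ⟨h, hh, hh0, hFh⟩ := Pool.Agent.W186.LH.single hF hne (a + u0)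
  obtain ⟨n, hn⟩ : ∃ n : ℕ, n = analyticOrderNatAt F (a + u0) := ⟨_, rfl⟩
  rw [← hn] at hFh ⊢
  refine Pool.Agent.W186.LH.ord_of (h := fun u => h (a + u)) (hF.comp (by fun_prop)) (hh.comp (by fun_prop))
    hh0 fun u => ?_
  rw [hFh]
  congr 1
  ring

lemma cnt_shift {F : ℂ → ℂ} (hF : Differentiable ℂ F) (hne : ∃ u, F u ≠ 0) (a : ℂ) {A B : Set ℂ} {c : ℝ}
    (h : Cnt (fun u => F (a + u)) A c) (hAB : ∀ z ∈ B, F z = 0 → z - a ∈ A) : Cnt F B c := by
  classical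
  intro S hS
  have h1 := h (S.image fun z => z - a) (fun w hw => by
    obtain ⟨z, hz, rfl⟩ := Finset.mem_image.1 hw
    obtain ⟨h2, h3⟩ := hS z hz
    refine ⟨?_, hAB z h3 h2⟩
    simp only [add_sub_cancel]
    exact h2)
  rw [Finset.sum_image (fun x _ y _ hxy => by simpa using hxy)] at h1
  refine le_trans (le_of_eq (Finset.sum_congr rfl fun z _ => ?_)) h1
  rw [ord_shift hF hne, add_sub_cancel]

lemma cnt_mono {F : ℂ → ℂ} {A B : Set ℂ} {c c' : ℝ} (h : Cnt F A c) (hAB : B ⊆ A) (hc : c ≤ c') :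
    Cnt F B c' := fun S hS => (h S fun z hz => ⟨(hS z hz).1, hAB (hS z hz).2⟩).trans hc

/-- the heat flow is entire and not zero -/
lemma heat_ok {f : ℂ → ℂ} (hf : Slow f) (hfe : Fe f) (hne : ∃ z, f z ≠ 0)
    (hz : ∀ z, f z = 0 → z.re ≤ 3 / 2) {t : ℝ} (ht : 0 ≤ t) :
    Differentiable ℂ (heat t f) ∧ ∃ u, heat t f u ≠ 0 := by
  have h1 := Pool.Agent.W327.HF.heat_diff hf ht
  refine ⟨h1, 2, fun h => ?_⟩
  have := heat_strip hf hfe hne hz ht h
  norm_num at this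

/-! ### forward: bounds on finitely many vertical lines give few zeros -/

theorem aut_few (h1 : S_HPX) (h2 : S_JEN) (h3 : S_NET) (m : ℕ) (hm : 1 ≤ m) {x X δ ε : ℝ} (hx : 0 < x)
    (hx1 : x ≤ 1) (hX : 1 ≤ X) (hδ : 0 < δ) (hδ1 : δ ≤ 1) (hε : 0 < ε) :
    ∃ (M : ℕ) (R κ' C0 : ℝ), 1 ≤ M ∧ 0 < κ' ∧ ∀ (N : ℝ) (μ : Fin m → ℂ) (α : Fin m → ℕ → ℂ) (e : ℂ)
    (Λ : ℂ → ℂ), DatumT (1 / 2) N μ α e Λ → (∀ s : ℂ, 1 < s.re → Λ s ≠ 0) → ∀ t y : ℝ, 0 < t →
      C0 ≤ cnd N μ y → x ≤ t * Real.log (cnd N μ y) → t * Real.log (cnd N μ y) ≤ X →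
      (∀ k : ℕ, 1 ≤ k → k ≤ M → ∀ v : ℝ, |v| ≤ R →
        ‖LL μ Λ (1 / 2 + ((k / (2 * M) : ℝ) : ℂ) + ((y + v : ℝ) : ℂ) * I)‖ ≤
        Real.exp ((max (x - k / (2 * M)) 0 ^ 2 / (4 * x) + κ') * Real.log (cnd N μ y))) →
      Cnt (heat t (XX N Λ)) {z : ℂ | 1 / 2 + δ ≤ z.re ∧ |z.im - y| ≤ 1} (ε * Real.log (cnd N μ y)) := by
  have hm' : (1 : ℝ) ≤ m := by exact_mod_cast hm
  obtain ⟨B, hB, HS⟩ := sharpX m hm (show (0 : ℝ) ≤ 1 / 2 by norm_num) le_rfl
    (show (0 : ℝ) < 1 / 2 by norm_num) (by norm_num)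
  have hlogB : 0 ≤ Real.log B := Real.log_nonneg hB
  have hK : 1 ≤ Real.log B + 20 * (6 * m) := by linarith
  obtain ⟨κj, Rj, hκj, hRj, HJ⟩ := h2 3 δ ε 2 (by norm_num) hδ hδ1 hε (by norm_num)
  obtain ⟨κh, Rh, ℓh, hκh, hRh, HH⟩ := h1 (Real.log B + 20 * (6 * m)) (1 + 1 / 2 + 1 / 2 - 1 / 2) x (X + 1)
    κj Rj hK (by norm_num) (by norm_num) hx (by linarith) (by linarith) hκj (by linarith)
  obtain ⟨M, κn, Rn, ℓn, hM, hκn, hRn, HN⟩ := h3 (Real.log B + 20 * (6 * m)) (1 + 1 / 2 + 1 / 2 - 1 / 2) x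
    κh Rh hK (by norm_num) (by norm_num) hx hκh (by linarith)
  have hM' : (1 : ℝ) ≤ M := by exact_mod_cast hM
  obtain ⟨ρ, hρd⟩ : ∃ ρ : ℝ, ρ = 1 / (2 * M) := ⟨_, rfl⟩
  have hρ : 0 < ρ := by rw [hρd]; positivity
  have hρ1 : ρ ≤ 1 := by
    rw [hρd, div_le_one (by positivity)]
    linarith
  obtain ⟨Rp, ℓp, hRp, HP⟩ := prof_all (Real.log B + 20 * (6 * m)) (1 + 1 / 2 + 1 / 2 - 1 / 2) (1 / 2) ρ κn
    Rn hK (by norm_num) (by norm_num) (by norm_num) (by norm_num) hρ hρ1 hκn hRn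
  obtain ⟨ℓo, HO⟩ := hlo_all (Real.log B + 20 * (6 * m)) (1 + 1 / 2 + 1 / 2 - 1 / 2) (x / 2) (X + 1) κj Rj hK
    (by norm_num) (by norm_num) (by positivity) (by linarith) hκj (by linarith)
  obtain ⟨g, hgd⟩ : ∃ g : ℝ, g = min (min (x / 2) κh) 1 := ⟨_, rfl⟩
  have hg : 0 < g := by rw [hgd]; exact lt_min (lt_min (by positivity) hκh) one_pos
  have hgx : g ≤ x / 2 := by rw [hgd]; exact (min_le_left _ _).trans (min_le_left _ _)
  have hgκ : g ≤ κh := by rw [hgd]; exact (min_le_left _ _).trans (min_le_right _ _)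
  have hg1 : g ≤ 1 := by rw [hgd]; exact min_le_right _ _
  obtain ⟨c1, hc1⟩ : ∃ c1 : ℝ, c1 = (14 * m * (x + κn) + (226 * m + 25 * m / ρ) * (2 + Rn ^ 2)) / (κn / 2) :=
    ⟨_, rfl⟩
  have hc10 : 0 ≤ c1 := by rw [hc1]; positivity
  obtain ⟨W, hW⟩ : ∃ W : ℝ, W = |ℓh| + |ℓn| + |ℓp| + |ℓo| + 1 + c1 := ⟨_, rfl⟩
  refine ⟨M, Rn, κn / 4, Real.exp (2 * W + 14 * m + 28 * m * X / g), hM, by positivity, ?_⟩
  intro N μ α e Λ d hnz t y ht hC hx2 hX2 hline
  obtain ⟨S, hslow, hfe, hzer, hne⟩ := HS N μ α e Λ d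
  have hN1 := d.one_le
  have hNpos : 0 < N := by linarith
  have hN0 : (N : ℂ) ≠ 0 := by exact_mod_cast hNpos.ne'
  obtain ⟨L, hLd⟩ : ∃ L : ℝ, L = Real.log (cnd N μ y) := ⟨_, rfl⟩
  have hL : 2 * W + 14 * m + 28 * m * X / g ≤ L := by
    have := Real.log_le_log (Real.exp_pos _) hC
    rwa [Real.log_exp, ← hLd] at this
  rw [← hLd] at hx2 hX2 hline ⊢
  have h0 : 0 ≤ 28 * m * X / g := by positivity
  have hlo := gaD_re_ge d.one_le d.re_le y
  have hup := gaD_re_le d.one_le d.re_le y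
  change 1 / 2 * Real.log (cnd N μ y) - 7 * m ≤ _ at hlo
  change _ ≤ 1 / 2 * Real.log (cnd N μ y) + 5 * m at hup
  rw [← hLd] at hlo hup
  obtain ⟨ℓ, hℓ⟩ : ∃ ℓ : ℝ, ℓ = (gaD N μ (3 / 2 + y * I)).re := ⟨_, rfl⟩
  obtain ⟨G, hG⟩ : ∃ G : ℝ, G = ‖gaf N μ (3 / 2 + y * I)‖ * Real.exp (-ℓ) := ⟨_, rfl⟩
  have ha1 := le_abs_self ℓh
  have ha2 := le_abs_self ℓn
  have ha3 := le_abs_self ℓp
  have ha4 := le_abs_self ℓo
  have hb1 := abs_nonneg ℓh
  have hb2 := abs_nonneg ℓn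
  have hb3 := abs_nonneg ℓp
  have hb4 := abs_nonneg ℓo
  have hW1 : 1 ≤ W := by rw [hW]; linarith
  obtain ⟨h4, h5⟩ := pass (by linarith : (0 : ℝ) < m) hg hX ht hlo hup (by linarith) hX2
  have ud := ud_of_sharp S hslow (by norm_num) y
  rw [← hℓ, ← hG] at ud
  rw [← hℓ] at hlo hup h4 h5
  have hWℓ : W ≤ ℓ := by linarith
  have hℓ0 : 0 < ℓ := by linarith
  have hLℓ : L ≤ 2 * ℓ + 14 * m := by linarith
  obtain ⟨f, hf⟩ : ∃ f : ℂ → ℂ, f = fun u : ℂ => XX N Λ (1 / 2 + (y : ℂ) * I + u) := ⟨_, rfl⟩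
  rw [← hf] at ud
  have hfu : ∀ u, f u = XX N Λ (1 / 2 + (y : ℂ) * I + u) := fun u => by rw [hf]
  have hGpos := ud.hG
  have pf := HP ℓ G f (by linarith) ud (fun u hu1 _ h => by
    rw [hfu] at h
    unfold XX at h
    rcases mul_eq_zero.1 h with h | h
    · exact absurd (Complex.cpow_eq_zero_iff _ _ |>.1 h).1 hN0
    · exact hnz _ (by simp; linarith) h)
  rw [hρd] at pf
  -- the bounds on the lines
  have hbd := HN ℓ G f (by linarith) ud pf (fun k hk1 hkM v hv => by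
    have hk1' : (1 : ℝ) ≤ k := by exact_mod_cast hk1
    have hkM' : (k : ℝ) ≤ M := by exact_mod_cast hkM
    obtain ⟨r, hr⟩ : ∃ r : ℝ, r = k / (2 * M) := ⟨_, rfl⟩
    have hrρ : ρ ≤ r := by
      rw [hρd, hr]
      gcongr
    have hr1 : r ≤ 1 := by
      rw [hr, div_le_one (by positivity)]
      linarith
    have h6 := hline k hk1 hkM v hv
    rw [← hr] at h6 ⊢
    obtain ⟨u, hu⟩ : ∃ u : ℂ, u = (r : ℂ) + v * I := ⟨_, rfl⟩
    have hure : u.re = r := by rw [hu]; simp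
    have huim : u.im = v := by rw [hu]; simp
    rw [← hu, hfu]
    have e1 : (1 / 2 + (r : ℂ) + ((y + v : ℝ) : ℂ) * I : ℂ) = 1 / 2 + (y : ℂ) * I + u := by
      rw [hu]; push_cast; ring
    rw [e1, LL_eq hNpos] at h6
    obtain ⟨h7, h8⟩ := gam_up hm hN1 d.re_le y hρ hρ1 (u := u) (by rw [hure]; exact hrρ)
    rw [← hℓ, ← hG, hure] at h8
    have h9 : ‖XX N Λ (1 / 2 + (y : ℂ) * I + u)‖ =
        ‖XX N Λ (1 / 2 + (y : ℂ) * I + u) * (gaf N μ (1 / 2 + (y : ℂ) * I + u))⁻¹‖ *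
        ‖gaf N μ (1 / 2 + (y : ℂ) * I + u)‖ := by
      rw [← norm_mul, mul_assoc, inv_mul_cancel₀ h7, mul_one]
    rw [h9]
    have hnu : 1 + ‖u‖ ^ 2 ≤ 2 + Rn ^ 2 := by
      have := nsq (u := u) (a := 1) (b := Rn) (by rw [hure, abs_of_pos (by linarith)]; exact hr1)
        (by rw [huim]; exact hv)
      linarith
    obtain ⟨q, hq⟩ : ∃ q : ℝ, q = max (x - r) 0 := ⟨_, rfl⟩
    have hq0 : 0 ≤ q := by rw [hq]; exact le_max_right _ _
    have hqx : q ≤ x := by rw [hq]; exact max_le (by linarith) hx.le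
    have hq2 : q ^ 2 / (4 * x) ≤ x := by
      rw [div_le_iff₀ (by positivity)]
      nlinarith
    have hq3 : 0 ≤ q ^ 2 / (4 * x) := by positivity
    have hc : (14 * m * (x + κn) + (226 * m + 25 * m / ρ) * (2 + Rn ^ 2)) ≤ κn / 2 * ℓ := by
      have : c1 ≤ ℓ := by linarith
      rw [hc1, div_le_iff₀ (by positivity)] at this
      linarith
    calc _ ≤ Real.exp ((max (x - r) 0 ^ 2 / (4 * x) + κn / 4) * L) *
          (G * Real.exp (ℓ * r + (226 * m + 25 * m / ρ) * (1 + ‖u‖ ^ 2))) :=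
            mul_le_mul h6 h8 (norm_nonneg _) (Real.exp_pos _).le
      _ = G * Real.exp ((q ^ 2 / (4 * x) + κn / 4) * L +
          (ℓ * r + (226 * m + 25 * m / ρ) * (1 + ‖u‖ ^ 2))) := by
            rw [Real.exp_add ((q ^ 2 / (4 * x) + κn / 4) * L), hq]; ring
      _ ≤ G * Real.exp (ℓ * phx x r + κn * ℓ) := by
            apply mul_le_mul_of_nonneg_left _ hGpos.le
            apply Real.exp_le_exp.2
            unfold phx
            rw [← hq]
            have h10 : (q ^ 2 / (4 * x) + κn / 4) * L ≤ (q ^ 2 / (4 * x) + κn / 4) * (2 * ℓ + 14 * m) :=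
              mul_le_mul_of_nonneg_left hLℓ (by positivity)
            have h11 : (226 * m + 25 * m / ρ) * (1 + ‖u‖ ^ 2) ≤ (226 * m + 25 * m / ρ) * (2 + Rn ^ 2) :=
              mul_le_mul_of_nonneg_left hnu (by positivity)
            have h12 : 14 * m * (q ^ 2 / (4 * x) + κn / 4) ≤ 14 * m * (x + κn) :=
              mul_le_mul_of_nonneg_left (by linarith) (by positivity)
            have e3 : q ^ 2 / (2 * x) = 2 * (q ^ 2 / (4 * x)) := by
              field_simp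
              ring
            rw [e3]
            nlinarith)
  -- the bound for the heat flow
  have hht := HH ℓ G t f (by linarith) ud hbd ht (by linarith) (by linarith)
  obtain ⟨hd, hnz'⟩ := heat_ok hslow ⟨e, d.norm_eq, hfe⟩ hne hzer ht.le
  have hHF : ∀ u, heat t f u = heat t (XX N Λ) (1 / 2 + (y : ℂ) * I + u) := fun u => by
    rw [hf]
    exact heat_shift' t _ _ u
  have hdf : Differentiable ℂ (heat t f) := by
    have : heat t f = fun u => heat t (XX N Λ) (1 / 2 + (y : ℂ) * I + u) := funext hHF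
    rw [this]
    exact hd.comp (by fun_prop)
  have key := HJ ℓ (G * Real.exp (t * ℓ ^ 2)) (heat t f) hℓ0 (by positivity) hdf
    (fun u hu1 hu2 hu3 => by
      have := hht u (by rw [abs_of_nonneg hu1]; exact hu2) hu3
      rwa [abs_of_nonneg hu1] at this)
    (fun u hu1 hu2 hu3 => (HO ℓ G t f (by linarith) ud ht (by linarith) (by linarith) u
      (by linarith) hu2 hu3).1)
  have key2 : Cnt (fun u => heat t (XX N Λ) (1 / 2 + (y : ℂ) * I + u))
      {z : ℂ | δ ≤ z.re ∧ z.re ≤ 3 ∧ |z.im| ≤ 3} (ε * ℓ) := by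
    have : heat t f = fun u => heat t (XX N Λ) (1 / 2 + (y : ℂ) * I + u) := funext hHF
    rwa [this] at key
  refine cnt_mono (cnt_shift hd hnz' (1 / 2 + (y : ℂ) * I) key2 (fun z hz hz0 => ?_)) subset_rfl ?_
  · have hst := (abs_le.1 (heat_strip hslow ⟨e, d.norm_eq, hfe⟩ hne hzer ht.le hz0)).2
    obtain ⟨hz1, hz2⟩ := hz
    have e1 : (z - (1 / 2 + (y : ℂ) * I)).re = z.re - 1 / 2 := by simp
    have e2 : (z - (1 / 2 + (y : ℂ) * I)).im = z.im - y := by simp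
    simp only [mem_setOf_eq, e1, e2]
    exact ⟨by linarith, by linarith, by linarith⟩
  · apply mul_le_mul_of_nonneg_left _ hε.le
    linarith

end Pool.Agent.W169.HF
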