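import Pool.Agent.W169.HF.Loc4

/-!
# Project GLD: few zeros of the heat flow give bounds, for automorphic data
-/

set_option autoImplicit false

open Complex Set MeasureTheory intervalIntegral Filter Topology
open scoped ComplexConjugate NNReal ENNReal

namespace Pool.Agent.W169.HF

open H353.E H353.F

/-- the value of the finite L-function on the right of the critical line -/
lemma LL_le_r {k : ℕ} (hm : 1 ≤ k) {N : ℝ} {μ : Fin k → ℂ} (hN : 1 ≤ N) (hμ : ∀ j, (μ j).re ≤ 1 / 2)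
    (Λ : ℂ → ℂ) (y : ℝ) {r M : ℝ} (hr : 0 ≤ r) (hr1 : r ≤ 1) (h : ‖XX N Λ (1 / 2 + (y : ℂ) * I + r)‖ ≤
      (‖gaf N μ (3 / 2 + y * I)‖ * Real.exp (-(gaD N μ (3 / 2 + y * I)).re)) * Real.exp M) :
    ‖LL μ Λ (1 / 2 + (r : ℂ) + (y : ℂ) * I)‖ ≤
      Real.exp (462 * k + M - (gaD N μ (3 / 2 + y * I)).re * r) := by
  have h1 := gam_inv hm hN hμ y (u := r) (by simpa using hr)
  obtain ⟨G, hG⟩ : ∃ G : ℝ, G = ‖gaf N μ (3 / 2 + y * I)‖ * Real.exp (-(gaD N μ (3 / 2 + y * I)).re) :=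
    ⟨_, rfl⟩
  rw [← hG] at h h1
  have hGpos : 0 < G := by
    rw [hG]
    have := norm_pos_iff.2 ((gaf_GP hm hN hμ).ne (3 / 2 + y * I) (by simp; norm_num))
    positivity
  rw [Complex.norm_real, Real.norm_eq_abs, abs_of_nonneg hr, ofReal_re] at h1
  have e1 : (1 / 2 + (r : ℂ) + (y : ℂ) * I : ℂ) = 1 / 2 + (y : ℂ) * I + r := by ring
  rw [e1, LL_eq (by linarith : (0 : ℝ) < N), norm_mul]
  calc _ ≤ (G * Real.exp M) * (G⁻¹ * Real.exp (-((gaD N μ (3 / 2 + y * I)).re * r) + 231 * k * (1 + r ^ 2))) :=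
      mul_le_mul h h1 (norm_nonneg _) (by positivity)
    _ = Real.exp (M + (-((gaD N μ (3 / 2 + y * I)).re * r) + 231 * k * (1 + r ^ 2))) := by
      rw [Real.exp_add M]
      field_simp
    _ ≤ _ := by
      apply Real.exp_le_exp.2
      have : 231 * (k : ℝ) * (1 + r ^ 2) ≤ 462 * k := by
        have h2 : r ^ 2 ≤ 1 := by nlinarith
        have h3 : (0 : ℝ) ≤ k := Nat.cast_nonneg k
        nlinarith
      linarith

/-- trivial bound -/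
theorem aut_triv_r (m : ℕ) (hm : 1 ≤ m) : ∃ B : ℝ, ∀ (N : ℝ) (μ : Fin m → ℂ) (α : Fin m → ℕ → ℂ) (e : ℂ)
    (Λ : ℂ → ℂ), DatumT (1 / 2) N μ α e Λ → ∀ y r : ℝ, 0 ≤ r → r ≤ 1 / 2 →
    ‖LL μ Λ (1 / 2 + (r : ℂ) + (y : ℂ) * I)‖ ≤ Real.exp (B + 3 / 4 * Real.log (cnd N μ y)) := by
  have hm' : (1 : ℝ) ≤ m := by exact_mod_cast hm
  obtain ⟨B, hB, HS⟩ := sharpX m hm (show (0 : ℝ) ≤ 1 / 2 by norm_num) le_rfl
    (show (0 : ℝ) < 1 / 2 by norm_num) (by norm_num)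
  have hlogB : 0 ≤ Real.log B := Real.log_nonneg hB
  refine ⟨462 * m + 2 * (Real.log B + 20 * (6 * m)) + 15 / 2 * m + 7 * m, ?_⟩
  intro N μ α e Λ d y r hr hr1
  obtain ⟨S, hslow, -, -, -⟩ := HS N μ α e Λ d
  have ud := ud_of_sharp S hslow (by norm_num) y
  have hup := gaD_re_le d.one_le d.re_le y
  change _ ≤ 1 / 2 * Real.log (cnd N μ y) + 5 * m at hup
  have hlo := gaD_re_ge d.one_le d.re_le y
  change 1 / 2 * Real.log (cnd N μ y) - 7 * m ≤ _ at hlo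
  have hLp : 0 ≤ Real.log (cnd N μ y) :=
    Real.log_nonneg (d.one_le.trans (le_cnd d.one_le μ y))
  have h1 := ud.up r
  have h2 := LL_le_r hm d.one_le d.re_le Λ y hr (by linarith) h1
  refine h2.trans (Real.exp_le_exp.2 ?_)
  have e1 : max |(r : ℂ).re| (1 + 1 / 2 + 1 / 2 - 1 / 2 : ℝ) = 3 / 2 := by
    rw [ofReal_re, abs_of_nonneg hr, max_eq_right (by linarith)]
    norm_num
  rw [e1, Complex.norm_real, Real.norm_eq_abs, abs_of_nonneg hr]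
  obtain ⟨ℓ, hℓ⟩ : ∃ ℓ : ℝ, ℓ = (gaD N μ (3 / 2 + y * I)).re := ⟨_, rfl⟩
  rw [← hℓ] at hup hlo ⊢
  have h3 : (Real.log B + 20 * (6 * m)) * (1 + r ^ 2) ≤ 2 * (Real.log B + 20 * (6 * m)) := by
    have h4 : r ^ 2 ≤ 1 := by nlinarith
    nlinarith
  have h5 : -(ℓ * r) ≤ 7 * m := by
    rcases le_total 0 ℓ with h | h
    · nlinarith
    · nlinarith
  linarith

theorem aut_exp (h1 : S_TCZ) (h2 : S_INVX) (m : ℕ) (hm : 1 ≤ m) {g X ε : ℝ} (hg : 0 < g) (hX : 1 ≤ X)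
    (hε : 0 < ε) :
    ∃ κ1 R C0 B : ℝ, 0 < κ1 ∧ ∀ (N : ℝ) (μ : Fin m → ℂ) (α : Fin m → ℕ → ℂ) (e : ℂ)
    (Λ : ℂ → ℂ), DatumT (1 / 2) N μ α e Λ → ∀ t y : ℝ, 0 < t →
      C0 ≤ cnd N μ y → g ≤ t * Real.log (cnd N μ y) → t * Real.log (cnd N μ y) ≤ X →
      Cnt (heat t (XX N Λ)) {z : ℂ | 1 / 2 + κ1 ≤ z.re ∧ |z.im - y| ≤ R} (κ1 * Real.log (cnd N μ y)) →
      ∀ r : ℝ, 0 ≤ r → r ≤ 1 / 2 → ‖LL μ Λ (1 / 2 + (r : ℂ) + (y : ℂ) * I)‖ ≤
        Real.exp (B + (max (t * Real.log (cnd N μ y) - r) 0 ^ 2 / (4 * (t * Real.log (cnd N μ y))) + ε) *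
          Real.log (cnd N μ y)) := by
  have hm' : (1 : ℝ) ≤ m := by exact_mod_cast hm
  obtain ⟨B, hB, HS⟩ := sharpX m hm (show (0 : ℝ) ≤ 1 / 2 by norm_num) le_rfl
    (show (0 : ℝ) < 1 / 2 by norm_num) (by norm_num)
  have hlogB : 0 ≤ Real.log B := Real.log_nonneg hB
  have hK : 1 ≤ Real.log B + 20 * (6 * m) := by linarith
  obtain ⟨κi, Ri, ℓi, hκi, hκi1, hRi, HI⟩ := h2 (Real.log B + 20 * (6 * m)) (1 + 1 / 2 + 1 / 2 - 1 / 2) (g / 2)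
    (X + g) (ε / 2) hK (by norm_num) (by norm_num) (by positivity) (by linarith) (by positivity)
  obtain ⟨K', ℓu, hK', HU⟩ := hup_all (Real.log B + 20 * (6 * m)) (1 + 1 / 2 + 1 / 2 - 1 / 2) (X + g) hK
    (by norm_num) (by norm_num) (by linarith)
  obtain ⟨κt, Rt, hκt, hRt, HT⟩ := h1 3 2 κi κi (Ri + 2) (by norm_num) (by norm_num) (by norm_num) hκi hκi1
    hκi (by linarith)
  obtain ⟨ℓo, HO⟩ := hlo_all (Real.log B + 20 * (6 * m)) (1 + 1 / 2 + 1 / 2 - 1 / 2) (g / 2) (X + g) κt Rt hK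
    (by norm_num) (by norm_num) (by positivity) (by linarith) hκt (by linarith)
  obtain ⟨g', hgd⟩ : ∃ g' : ℝ, g' = min g ε := ⟨_, rfl⟩
  have hg' : 0 < g' := by rw [hgd]; exact lt_min hg hε
  have hg'g : g' ≤ g := by rw [hgd]; exact min_le_left _ _
  have hg'ε : g' ≤ ε := by rw [hgd]; exact min_le_right _ _
  obtain ⟨W, hW⟩ : ∃ W : ℝ, W = |ℓi| + |ℓu| + |ℓo| + 1 + K' * (1 + 2 * Rt ^ 2) := ⟨_, rfl⟩
  refine ⟨κt / 4, Rt, Real.exp (2 * W + 28 * m + 28 * m * X / g'), 462 * m + 5 * m * (X + 2 * ε), by positivity,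
    ?_⟩
  intro N μ α e Λ d t y ht hC hx2 hX2 hcnt r hr hr1
  obtain ⟨S, hslow, hfe, hzer, hne⟩ := HS N μ α e Λ d
  have hN1 := d.one_le
  obtain ⟨L, hLd⟩ : ∃ L : ℝ, L = Real.log (cnd N μ y) := ⟨_, rfl⟩
  have hL : 2 * W + 28 * m + 28 * m * X / g' ≤ L := by
    have := Real.log_le_log (Real.exp_pos _) hC
    rwa [Real.log_exp, ← hLd] at this
  rw [← hLd] at hx2 hX2 hcnt ⊢
  have h0 : 0 ≤ 28 * m * X / g' := by positivity
  have hlo := gaD_re_ge d.one_le d.re_le y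
  have hup := gaD_re_le d.one_le d.re_le y
  change 1 / 2 * Real.log (cnd N μ y) - 7 * m ≤ _ at hlo
  change _ ≤ 1 / 2 * Real.log (cnd N μ y) + 5 * m at hup
  rw [← hLd] at hlo hup
  obtain ⟨ℓ, hℓ⟩ : ∃ ℓ : ℝ, ℓ = (gaD N μ (3 / 2 + y * I)).re := ⟨_, rfl⟩
  obtain ⟨G, hG⟩ : ∃ G : ℝ, G = ‖gaf N μ (3 / 2 + y * I)‖ * Real.exp (-ℓ) := ⟨_, rfl⟩
  have ha1 := le_abs_self ℓi
  have ha2 := le_abs_self ℓu
  have ha3 := le_abs_self ℓo
  have hb1 := abs_nonneg ℓi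
  have hb2 := abs_nonneg ℓu
  have hb3 := abs_nonneg ℓo
  have hKR : 0 ≤ K' * (1 + 2 * Rt ^ 2) := by positivity
  have hW1 : 1 ≤ W := by rw [hW]; linarith
  obtain ⟨h4, h5⟩ := pass (by linarith : (0 : ℝ) < m) hg' hX ht hlo hup (by linarith) hX2
  have ud := ud_of_sharp S hslow (by norm_num) y
  rw [← hℓ, ← hG] at ud
  rw [← hℓ] at hlo hup h4 h5
  have hWℓ : W ≤ ℓ := by linarith
  have hℓ0 : 0 < ℓ := by linarith
  obtain ⟨f, hf⟩ : ∃ f : ℂ → ℂ, f = fun u : ℂ => XX N Λ (1 / 2 + (y : ℂ) * I + u) := ⟨_, rfl⟩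
  rw [← hf] at ud
  have hGpos := ud.hG
  obtain ⟨hd, hnz'⟩ := heat_ok hslow ⟨e, d.norm_eq, hfe⟩ hne hzer ht.le
  have hHF : heat t f = fun u => heat t (XX N Λ) (1 / 2 + (y : ℂ) * I + u) := by
    funext u
    rw [hf]
    exact heat_shift' t _ _ u
  have hdf : Differentiable ℂ (heat t f) := by
    rw [hHF]
    exact hd.comp (by fun_prop)
  have hnzf : ∃ u, heat t f u ≠ 0 := by
    obtain ⟨u, hu⟩ := hnz'
    refine ⟨-(1 / 2 + (y : ℂ) * I) + u, ?_⟩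
    rw [hHF]
    show heat t (XX N Λ) (1 / 2 + (y : ℂ) * I + (-(1 / 2 + (y : ℂ) * I) + u)) ≠ 0
    rw [add_neg_cancel_left]
    exact hu
  -- count for the shifted function
  have hcnt' : Cnt (heat t f) {z : ℂ | κt ≤ z.re ∧ z.re ≤ Rt ∧ |z.im| ≤ Rt} (κt * ℓ) := by
    have h6 : Cnt (fun u => heat t f (-(1 / 2 + (y : ℂ) * I) + u))
        {z : ℂ | 1 / 2 + κt / 4 ≤ z.re ∧ |z.im - y| ≤ Rt} (κt / 4 * L) := by
      have : (fun u => heat t f (-(1 / 2 + (y : ℂ) * I) + u)) = heat t (XX N Λ) := by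
        funext u
        rw [hHF]
        show heat t (XX N Λ) (1 / 2 + (y : ℂ) * I + (-(1 / 2 + (y : ℂ) * I) + u)) = _
        rw [add_neg_cancel_left]
      rw [this]
      exact hcnt
    refine cnt_mono (cnt_shift hdf hnzf (-(1 / 2 + (y : ℂ) * I)) h6 (fun z hz _ => ?_)) subset_rfl ?_
    · obtain ⟨hz1, hz2, hz3⟩ := hz
      have e1 : (z - -(1 / 2 + (y : ℂ) * I)).re = z.re + 1 / 2 := by simp
      have e2 : (z - -(1 / 2 + (y : ℂ) * I)).im = z.im + y := by simp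
      simp only [mem_setOf_eq, e1, e2, add_sub_cancel_right]
      exact ⟨by linarith, hz3⟩
    · have h7 : L ≤ 4 * ℓ := by linarith
      have h8 : κt / 4 * L ≤ κt / 4 * (4 * ℓ) := mul_le_mul_of_nonneg_left h7 (by positivity)
      linarith
  have hH := HT ℓ (G * Real.exp (t * ℓ ^ 2)) (heat t f) hℓ0 (by positivity) hdf
    (fun u hu1 hu2 hu3 => by
      refine (HU ℓ G t f (by linarith) ud ht (by linarith) u).trans ?_
      apply mul_le_mul_of_nonneg_left _ (by positivity)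
      apply Real.exp_le_exp.2
      have h6 : max |u.re| (1 + 1 / 2 + 1 / 2 - 1 / 2 : ℝ) ≤ u.re + 2 := by
        rw [abs_of_nonneg hu1]
        exact max_le (by linarith) (by linarith)
      have h7 := mul_le_mul_of_nonneg_left h6 hℓ0.le
      have h8 : ‖u‖ ^ 2 ≤ Rt ^ 2 + Rt ^ 2 := nsq (by rw [abs_of_nonneg hu1]; exact hu2) hu3
      have h9 : K' * (1 + ‖u‖ ^ 2) ≤ K' * (1 + 2 * Rt ^ 2) :=
        mul_le_mul_of_nonneg_left (by linarith) (by linarith)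
      linarith)
    (fun u hu1 hu2 hu3 => HO ℓ G t f (by linarith) ud ht (by linarith) (by linarith) u
      (by linarith) hu2 hu3) hcnt'
  have hfr := HI ℓ G t f (by linarith) ud ht (by linarith) (by linarith)
    (fun u hu1 hu2 hu3 => hH u hu1 (by linarith) (by linarith)) r hr (by linarith)
  have hfr' : ‖XX N Λ (1 / 2 + (y : ℂ) * I + r)‖ ≤
      (‖gaf N μ (3 / 2 + y * I)‖ * Real.exp (-(gaD N μ (3 / 2 + y * I)).re)) *
      Real.exp (ℓ * phx (2 * t * ℓ) r + ε / 2 * ℓ) := by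
    rw [← hℓ, ← hG]
    rw [hf] at hfr
    exact hfr
  have h6 := LL_le_r hm hN1 d.re_le Λ y hr (by linarith) hfr'
  rw [← hℓ] at h6
  refine h6.trans (Real.exp_le_exp.2 ?_)
  obtain ⟨τ, hτ⟩ : ∃ τ : ℝ, τ = t * L := ⟨_, rfl⟩
  rw [← hτ] at hx2 hX2 h4 h5 ⊢
  have hτ0 : 0 < τ := by linarith
  have h7 : phx (2 * t * ℓ) r ≤ phx τ r + ε / 2 := by
    rcases le_total (2 * t * ℓ) τ with h | h
    · have := (phx_lip (x := 2 * t * ℓ) (x' := τ) (η := τ - 2 * t * ℓ) (by positivity) hr h (by linarith)).1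
      linarith
    · have := (phx_lip (x := τ) (x' := 2 * t * ℓ) (η := ε / 2) hτ0 hr h (by linarith)).2
      linarith
  unfold phx at h7
  obtain ⟨q, hq⟩ : ∃ q : ℝ, q = max (τ - r) 0 := ⟨_, rfl⟩
  rw [← hq] at h7 ⊢
  have hq0 : 0 ≤ q := by rw [hq]; exact le_max_right _ _
  have hqτ : q ≤ τ := by rw [hq]; exact max_le (by linarith) hτ0.le
  have h8 : q ^ 2 / (2 * τ) ≤ X := by
    rw [div_le_iff₀ (by positivity)]
    nlinarith
  have h80 : 0 ≤ q ^ 2 / (2 * τ) := by positivity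
  have e8 : q ^ 2 / (4 * τ) = q ^ 2 / (2 * τ) / 2 := by
    field_simp
    ring
  rw [e8]
  obtain ⟨c, hc⟩ : ∃ c : ℝ, c = q ^ 2 / (2 * τ) := ⟨_, rfl⟩
  rw [← hc] at h8 h80 ⊢
  have h9 : ℓ * phx (2 * t * ℓ) r ≤ ℓ * (r + c + ε / 2) := by
    apply mul_le_mul_of_nonneg_left _ hℓ0.le
    unfold phx
    rw [hc]
    exact h7
  have h10 : (c + ε) * ℓ ≤ (c + ε) * (1 / 2 * L + 5 * m) := mul_le_mul_of_nonneg_left hup (by positivity)
  have h11 : (c + ε) * (5 * m) ≤ (X + ε) * (5 * m) := mul_le_mul_of_nonneg_right (by linarith) (by positivity)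
  have h12 : 0 ≤ ε * L := by
    have : 0 ≤ L := by linarith
    positivity
  have h13 : 0 ≤ ε * (5 * m) := by positivity
  nlinarith

/-- the majorant on the critical line gives bounds to the right -/
theorem aut_maj (m : ℕ) (hm : 1 ≤ m) {ε : ℝ} (hε : 0 < ε) :
    ∃ R κ' C0 B : ℝ, 0 < κ' ∧ ∀ (N : ℝ) (μ : Fin m → ℂ) (α : Fin m → ℕ → ℂ) (e : ℂ) (Λ : ℂ → ℂ),
    DatumT (1 / 2) N μ α e Λ → (∀ s : ℂ, 1 < s.re → Λ s ≠ 0) → ∀ y : ℝ, C0 ≤ cnd N μ y →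
      (∀ v : ℝ, |v| ≤ R → ‖LL μ Λ (1 / 2 + ((y + v : ℝ) : ℂ) * I)‖ ≤
        Real.exp (κ' * Real.log (cnd N μ y))) →
      ∀ r : ℝ, 0 ≤ r → r ≤ 1 / 2 → ‖LL μ Λ (1 / 2 + (r : ℂ) + (y : ℂ) * I)‖ ≤
        Real.exp (B + ε * Real.log (cnd N μ y)) := by
  have hm' : (1 : ℝ) ≤ m := by exact_mod_cast hm
  obtain ⟨B, hB, HS⟩ := sharpX m hm (show (0 : ℝ) ≤ 1 / 2 by norm_num) le_rfl
    (show (0 : ℝ) < 1 / 2 by norm_num) (by norm_num)
  have hlogB : 0 ≤ Real.log B := Real.log_nonneg hB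
  obtain ⟨ρ0, hρ0d⟩ : ∃ ρ0 : ℝ, ρ0 = min ε 1 / 20 := ⟨_, rfl⟩
  have hρ0 : 0 < ρ0 := by rw [hρ0d]; have := lt_min hε one_pos; linarith
  have hρ1 : ρ0 ≤ 1 / 20 := by rw [hρ0d]; have := min_le_right ε 1; linarith
  have hρε : 20 * ρ0 ≤ ε := by rw [hρ0d]; have := min_le_left ε 1; linarith
  have hK : 1 ≤ Real.log B + 20 * (6 * m) := by linarith
  obtain ⟨κ2, R2, ρ, ℓ2, hκ2, hρ, hρ', HM⟩ := maj rect_all (K := Real.log B + 20 * (6 * m))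
    (K1 := 231 * m) (ϑ0 := 1 + 1 / 2 + 1 / 2 - 1 / 2) (b := 1 / 2 + ρ0) (M0 := ρ0) (κ := ρ0) hK
    (by positivity) (by norm_num) (by norm_num) (by linarith) (by linarith) hρ0.le (by linarith)
    hρ0 (fun ρ => 226 * m + 25 * m / ρ)
  obtain ⟨R4, ℓ3, hR4, HP⟩ := prof_all (Real.log B + 20 * (6 * m)) (1 + 1 / 2 + 1 / 2 - 1 / 2) (1 / 2) ρ0 κ2
    (max R2 1) hK (by norm_num) (by norm_num) (by norm_num) (by norm_num) hρ0 (by linarith) hκ2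
    (le_max_right _ _)
  obtain ⟨W, hW⟩ : ∃ W : ℝ, W = |ℓ2| + |ℓ3| + 14 * m * (ρ0 / 2) / κ2 := ⟨_, rfl⟩
  have hW4 : 0 ≤ 14 * m * (ρ0 / 2) / κ2 := by positivity
  refine ⟨R2, ρ0 / 2, Real.exp (2 * W + 14 * m), 462 * m + 10 * m, by positivity, ?_⟩
  intro N μ α e Λ d hnz y hC hline r hr hr1
  obtain ⟨S, hslow, hfe, hzer, hne⟩ := HS N μ α e Λ d
  have hN1 := d.one_le
  have hNpos : 0 < N := by linarith
  have hN0 : (N : ℂ) ≠ 0 := by exact_mod_cast hNpos.ne'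
  have hL : 2 * W + 14 * m ≤ Real.log (cnd N μ y) := by
    have := Real.log_le_log (Real.exp_pos _) hC
    rwa [Real.log_exp] at this
  have hlo := gaD_re_ge d.one_le d.re_le y
  have hup := gaD_re_le d.one_le d.re_le y
  change 1 / 2 * Real.log (cnd N μ y) - 7 * m ≤ _ at hlo
  change _ ≤ 1 / 2 * Real.log (cnd N μ y) + 5 * m at hup
  obtain ⟨ℓ, hℓ⟩ : ∃ ℓ : ℝ, ℓ = (gaD N μ (3 / 2 + y * I)).re := ⟨_, rfl⟩
  obtain ⟨G, hG⟩ : ∃ G : ℝ, G = ‖gaf N μ (3 / 2 + y * I)‖ * Real.exp (-ℓ) := ⟨_, rfl⟩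
  have ha2 := le_abs_self ℓ2
  have ha3 := le_abs_self ℓ3
  have hb2 := abs_nonneg ℓ2
  have hb3 := abs_nonneg ℓ3
  have hW0 : 0 ≤ W := by rw [hW]; positivity
  have ud := ud_of_sharp S hslow (by norm_num) y
  rw [← hℓ, ← hG] at ud
  rw [← hℓ] at hlo hup
  have hWℓ : W ≤ ℓ := by linarith
  have hℓ0 : 0 ≤ ℓ := hW0.trans hWℓ
  obtain ⟨f, hf⟩ : ∃ f : ℂ → ℂ, f = fun u : ℂ => XX N Λ (1 / 2 + (y : ℂ) * I + u) := ⟨_, rfl⟩
  rw [← hf] at ud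
  have hfu : ∀ u, f u = XX N Λ (1 / 2 + (y : ℂ) * I + u) := fun u => by rw [hf]
  have hGpos := ud.hG
  have pf := HP ℓ G f (by linarith) ud (fun u hu1 _ h => by
    rw [hfu] at h
    unfold XX at h
    rcases mul_eq_zero.1 h with h | h
    · exact absurd (Complex.cpow_eq_zero_iff _ _ |>.1 h).1 hN0
    · exact hnz _ (by simp; linarith) h)
  have hmj := HM ℓ G f (fun u => LL μ Λ (1 / 2 + (y : ℂ) * I + u))
    (fun u => gaf N μ (1 / 2 + (y : ℂ) * I + u)) (by linarith) ud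
    (Pf_mono' pf le_rfl (le_max_left _ _) hℓ0 hGpos)
    ((LL_diff d.entire).comp (differentiable_id.const_add _))
    (fun u => by
      show LL μ Λ _ = _
      rw [LL_eq hNpos, hfu])
    (fun u hu => by
      have := gam_inv hm hN1 d.re_le y hu
      rw [← hℓ, ← hG] at this
      exact this)
    (fun u hu => by
      have := gam_up hm hN1 d.re_le y hρ hρ' hu
      rw [← hℓ, ← hG] at this
      exact this)
    (fun v hv => by
      show ‖LL μ Λ (1 / 2 + (y : ℂ) * I + (v : ℂ) * I)‖ ≤ _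
      have h5 := hline v hv
      have e1 : (1 / 2 + ((y + v : ℝ) : ℂ) * I : ℂ) = 1 / 2 + (y : ℂ) * I + (v : ℂ) * I := by
        push_cast; ring
      rw [e1] at h5
      refine h5.trans (Real.exp_le_exp.2 ?_)
      have h6 : Real.log (cnd N μ y) ≤ 2 * ℓ + 14 * m := by linarith
      have h7 : (ρ0 / 2) * Real.log (cnd N μ y) ≤ (ρ0 / 2) * (2 * ℓ + 14 * m) :=
        mul_le_mul_of_nonneg_left h6 (by positivity)
      have h8 : 14 * m * (ρ0 / 2) ≤ κ2 * ℓ := by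
        have h9 : 14 * m * (ρ0 / 2) / κ2 ≤ ℓ := by linarith
        rw [div_le_iff₀ hκ2] at h9
        linarith
      linarith)
  have hr' := hmj r hr (by linarith)
  have hfr' : ‖XX N Λ (1 / 2 + (y : ℂ) * I + r)‖ ≤
      (‖gaf N μ (3 / 2 + y * I)‖ * Real.exp (-(gaD N μ (3 / 2 + y * I)).re)) *
      Real.exp (ℓ * (ρ0 + (1 - ρ0 / (1 / 2 + ρ0)) * r) + ρ0 * ℓ) := by
    rw [← hℓ, ← hG, ← hfu]
    exact hr'
  have h6 := LL_le_r hm hN1 d.re_le Λ y hr (by linarith) hfr'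
  rw [← hℓ] at h6
  refine h6.trans (Real.exp_le_exp.2 ?_)
  have h7 : ρ0 + (1 - ρ0 / (1 / 2 + ρ0)) * r ≤ ρ0 + r := by
    have : 0 ≤ ρ0 / (1 / 2 + ρ0) := by positivity
    nlinarith
  have h8 := mul_le_mul_of_nonneg_left h7 hℓ0
  have h9 : 2 * ρ0 * ℓ ≤ 2 * ρ0 * (1 / 2 * Real.log (cnd N μ y) + 5 * m) :=
    mul_le_mul_of_nonneg_left hup (by positivity)
  have h10 : ρ0 * Real.log (cnd N μ y) ≤ ε * Real.log (cnd N μ y) := by
    apply mul_le_mul_of_nonneg_right _ (by linarith)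
    linarith
  have h11 : 2 * ρ0 * (5 * m) ≤ 10 * m := by nlinarith
  linarith

end Pool.Agent.W169.HF
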